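import Pool.Agent.Helper484.Angle

set_option autoImplicit false

namespace Pool.Agent.Helper840.BC

open Finset

variable {d : ℕ}


/-- the polar set -/
def Q (P : Set (EuclideanSpace ℝ (Fin d))) : Set (EuclideanSpace ℝ (Fin d)) :=
  {y | ∀ x ∈ P, inner ℝ x y ≤ 1}

lemma Q_convex (P : Set (EuclideanSpace ℝ (Fin d))) : Convex ℝ (Q P) := by
  intro y hy z hz a b ha hb hab x hx
  have h1 := hy x hx
  have h2 := hz x hx
  rw [inner_add_right, inner_smul_right, inner_smul_right]
  have : a * inner ℝ x y + b * inner ℝ x z ≤ a * 1 + b * 1 := by gcongr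
  linarith

lemma Q_closed (P : Set (EuclideanSpace ℝ (Fin d))) : IsClosed (Q P) := by
  have : Q P = ⋂ x ∈ P, {y | inner ℝ x y ≤ 1} := by
    ext y; simp [Q]
  rw [this]
  refine isClosed_biInter fun x _ => ?_
  exact isClosed_le (by fun_prop) continuous_const

lemma Q_norm {P : Set (EuclideanSpace ℝ (Fin d))}
    (hB : Metric.closedBall (0 : EuclideanSpace ℝ (Fin d)) 1 ⊆ P)
    {y : EuclideanSpace ℝ (Fin d)} (hy : y ∈ Q P) : ‖y‖ ≤ 1 := by
  by_cases h0 : y = 0
  · simp [h0]
  have hn : 0 < ‖y‖ := norm_pos_iff.mpr h0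
  have h1 := hy (‖y‖⁻¹ • y) (hB (by simp [norm_smul, hn.ne']))
  rw [real_inner_smul_left, real_inner_self_eq_norm_sq] at h1
  have h2 : ‖y‖⁻¹ * ‖y‖ ^ 2 = ‖y‖ := by field_simp
  linarith

lemma Q_compact {P : Set (EuclideanSpace ℝ (Fin d))}
    (hB : Metric.closedBall (0 : EuclideanSpace ℝ (Fin d)) 1 ⊆ P) : IsCompact (Q P) := by
  refine (isCompact_closedBall (0 : EuclideanSpace ℝ (Fin d)) 1).of_isClosed_subset (Q_closed P) ?_
  intro y hy
  simpa using Q_norm hB hy

/-- bipolar theorem with extreme points -/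
lemma bipolar {P : Set (EuclideanSpace ℝ (Fin d))} (hPc : IsClosed P) (hPv : Convex ℝ P)
    (hB : Metric.closedBall (0 : EuclideanSpace ℝ (Fin d)) 1 ⊆ P)
    {x : EuclideanSpace ℝ (Fin d)} (hx : ∀ y ∈ (Q P).extremePoints ℝ, inner ℝ x y ≤ 1) :
    x ∈ P := by
  by_contra hxP
  have hall : ∀ y ∈ Q P, inner ℝ x y ≤ 1 := by
    have h1 : Q P ⊆ {y | inner ℝ x y ≤ 1} := by
      rw [← closure_convexHull_extremePoints (Q_compact hB) (Q_convex P)]
      refine closure_minimal (convexHull_min hx ?_) ?_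
      · intro y hy z hz a b ha hb hab
        simp only [Set.mem_ofPred_eq] at hy hz ⊢
        rw [inner_add_right, inner_smul_right, inner_smul_right]
        have : a * inner ℝ x y + b * inner ℝ x z ≤ a * 1 + b * 1 := by gcongr
        linarith
      · exact isClosed_le (by fun_prop) continuous_const
    exact fun y hy => h1 hy
  obtain ⟨f, u, hf1, hf2⟩ := geometric_hahn_banach_closed_point hPv hPc hxP
  have hu : 0 < u := by
    have := hf1 0 (hB (by simp))
    simpa using this
  set w := (InnerProductSpace.toDual ℝ (EuclideanSpace ℝ (Fin d))).symm f with hw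
  have hwf : ∀ z, inner ℝ w z = f z := by
    intro z
    rw [hw, InnerProductSpace.toDual_symm_apply]
  have h3 : (u⁻¹ • w) ∈ Q P := by
    intro z hz
    rw [real_inner_smul_right, real_inner_comm, hwf]
    have := hf1 z hz
    rw [inv_mul_le_iff₀ hu]
    linarith
  have h4 := hall _ h3
  rw [real_inner_smul_right, real_inner_comm, hwf, inv_mul_le_iff₀ hu] at h4
  linarith

lemma fin_eps {α : Type*} (V : Finset α) (f g : α → ℝ) (h : ∀ v ∈ V, 0 < f v) :
    ∃ ε : ℝ, 0 < ε ∧ ∀ v ∈ V, ε * |g v| ≤ f v := by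
  classical
  induction V using Finset.induction_on with
  | empty => exact ⟨1, one_pos, by simp⟩
  | insert a s ha ih =>
    obtain ⟨ε, h1, h2⟩ := ih (fun v hv => h v (Finset.mem_insert_of_mem hv))
    have hfa := h a (Finset.mem_insert_self _ _)
    refine ⟨min ε (f a / (|g a| + 1)), lt_min h1 (by positivity), ?_⟩
    intro v hv
    rcases Finset.mem_insert.mp hv with rfl | hv
    · calc min ε (f v / (|g v| + 1)) * |g v| ≤ f v / (|g v| + 1) * |g v| := by
            gcongr; exact min_le_right _ _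
        _ ≤ f v / (|g v| + 1) * (|g v| + 1) := by
            gcongr; linarith
        _ = f v := by field_simp
    · calc min ε (f a / (|g a| + 1)) * |g v| ≤ ε * |g v| := by
            gcongr; exact min_le_left _ _
        _ ≤ f v := h2 v hv

lemma mem_Q_of_V {V : Finset (EuclideanSpace ℝ (Fin d))} {y : EuclideanSpace ℝ (Fin d)}
    (h : ∀ v ∈ V, inner ℝ v y ≤ 1) :
    y ∈ Q (convexHull ℝ (V : Set (EuclideanSpace ℝ (Fin d)))) := by
  intro x hx
  have h1 : convexHull ℝ (V : Set (EuclideanSpace ℝ (Fin d))) ⊆ {x | inner ℝ x y ≤ 1} := by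
    refine convexHull_min (fun v hv => h v (by simpa using hv)) ?_
    intro v hv z hz a b ha hb hab
    simp only [Set.mem_ofPred_eq] at hv hz ⊢
    rw [inner_add_left, real_inner_smul_left, real_inner_smul_left]
    have : a * inner ℝ v y + b * inner ℝ z y ≤ a * 1 + b * 1 := by gcongr
    linarith
  exact h1 hx

/-- at an extreme point of the polar the tight vertices span -/
lemma span_tight {V : Finset (EuclideanSpace ℝ (Fin d))} {y : EuclideanSpace ℝ (Fin d)}
    (hy : y ∈ (Q (convexHull ℝ (V : Set (EuclideanSpace ℝ (Fin d))))).extremePoints ℝ) :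
    Submodule.span ℝ {v : EuclideanSpace ℝ (Fin d) | v ∈ V ∧ inner ℝ v y = 1} = ⊤ := by
  classical
  by_contra hne
  have h1 : (Submodule.span ℝ {v : EuclideanSpace ℝ (Fin d) | v ∈ V ∧ inner ℝ v y = 1})ᗮ ≠ ⊥ := by
    intro h
    exact hne ((Submodule.orthogonal_eq_bot_iff).mp h)
  obtain ⟨u, hu, hu0⟩ := Submodule.exists_mem_ne_zero_of_ne_bot h1
  have hu1 : ∀ v ∈ V, inner ℝ v y = 1 → inner ℝ v u = 0 := by
    intro v hv h
    exact hu v (Submodule.subset_span ⟨hv, h⟩)
  have hyQ : ∀ v ∈ V, inner ℝ v y ≤ 1 := fun v hv =>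
    hy.1 v (subset_convexHull ℝ _ (by simpa using hv))
  obtain ⟨ε, hε, h2⟩ := fin_eps (V.filter fun v => inner ℝ v y < 1) (fun v => 1 - inner ℝ v y)
    (fun v => inner ℝ v u) (by
      intro v hv
      have := (Finset.mem_filter.mp hv).2
      linarith)
  have h3 : ∀ s : ℝ, |s| = ε → y + s • u ∈
      Q (convexHull ℝ (V : Set (EuclideanSpace ℝ (Fin d)))) := by
    intro s hs
    apply mem_Q_of_V
    intro v hv
    rw [inner_add_right, inner_smul_right]
    rcases (hyQ v hv).lt_or_eq with h | h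
    · have h4 := h2 v (Finset.mem_filter.mpr ⟨hv, h⟩)
      have h5 : s * inner ℝ v u ≤ ε * |inner ℝ v u| := by
        rw [← hs, ← abs_mul]; exact le_abs_self _
      linarith
    · rw [hu1 v hv h, h]; simp
  have h4 := h3 ε (abs_of_pos hε)
  have h5 := h3 (-ε) (by rw [abs_neg, abs_of_pos hε])
  have h6 : y ∈ openSegment ℝ (y + ε • u) (y + (-ε) • u) := by
    refine ⟨1/2, 1/2, by norm_num, by norm_num, by norm_num, ?_⟩
    module
  have h7 := (mem_extremePoints.mp hy).2 _ h4 _ h5 h6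
  have h8 : ε • u = 0 := by
    have := h7.1
    simpa using this
  rcases smul_eq_zero.mp h8 with h | h
  · exact hε.ne' h
  · exact hu0 h

/-- the face of `P` cut out by an extreme point of the polar -/
def face (P : Set (EuclideanSpace ℝ (Fin d))) (y : EuclideanSpace ℝ (Fin d)) :
    Set (EuclideanSpace ℝ (Fin d)) := {x | x ∈ P ∧ inner ℝ y x = 1}

lemma tight_subset_face {V : Finset (EuclideanSpace ℝ (Fin d))} {y : EuclideanSpace ℝ (Fin d)} :
    {v : EuclideanSpace ℝ (Fin d) | v ∈ V ∧ inner ℝ v y = 1} ⊆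
      face (convexHull ℝ (V : Set (EuclideanSpace ℝ (Fin d)))) y := by
  rintro v ⟨hv, h⟩
  exact ⟨subset_convexHull ℝ _ (by simpa using hv), by rw [real_inner_comm]; exact h⟩

lemma face_nonempty (hd : 1 ≤ d) {V : Finset (EuclideanSpace ℝ (Fin d))}
    {y : EuclideanSpace ℝ (Fin d)}
    (hy : y ∈ (Q (convexHull ℝ (V : Set (EuclideanSpace ℝ (Fin d))))).extremePoints ℝ) :
    ∃ v, v ∈ V ∧ inner ℝ v y = 1 := by
  by_contra hne
  have h1 : {v : EuclideanSpace ℝ (Fin d) | v ∈ V ∧ inner ℝ v y = 1} = ∅ := by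
    ext v
    constructor
    · intro hv; exact (hne ⟨v, hv⟩).elim
    · intro hv; exact hv.elim
  have h2 := span_tight hy
  rw [h1, Submodule.span_empty] at h2
  have h3 : Module.finrank ℝ (EuclideanSpace ℝ (Fin d)) = 0 := by
    rw [← finrank_top ℝ (EuclideanSpace ℝ (Fin d)), ← h2, finrank_bot]
  rw [finrank_euclideanSpace_fin] at h3
  omega

lemma ext_ne_zero (hd : 1 ≤ d) {V : Finset (EuclideanSpace ℝ (Fin d))}
    {y : EuclideanSpace ℝ (Fin d)}
    (hy : y ∈ (Q (convexHull ℝ (V : Set (EuclideanSpace ℝ (Fin d))))).extremePoints ℝ) :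
    y ≠ 0 := by
  obtain ⟨v, -, hv⟩ := face_nonempty hd hy
  rintro rfl
  simp at hv

lemma face_finrank (hd : 1 ≤ d) {V : Finset (EuclideanSpace ℝ (Fin d))}
    {y : EuclideanSpace ℝ (Fin d)}
    (hy : y ∈ (Q (convexHull ℝ (V : Set (EuclideanSpace ℝ (Fin d))))).extremePoints ℝ) :
    Module.finrank ℝ (vectorSpan ℝ
      (face (convexHull ℝ (V : Set (EuclideanSpace ℝ (Fin d)))) y)) + 1 = d := by
  set F := face (convexHull ℝ (V : Set (EuclideanSpace ℝ (Fin d)))) y with hF
  obtain ⟨t, htV, ht⟩ := face_nonempty hd hy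
  have htF : t ∈ F := tight_subset_face ⟨htV, ht⟩
  have hy0 := ext_ne_zero hd hy
  have h1 : vectorSpan ℝ F ≤ (ℝ ∙ y)ᗮ := by
    rw [vectorSpan_def, Submodule.span_le]
    rintro _ ⟨a, ha, b, hb, rfl⟩
    rw [SetLike.mem_coe, Submodule.mem_orthogonal_singleton_iff_inner_right]
    simp only [vsub_eq_sub]
    rw [inner_sub_right, ha.2, hb.2, sub_self]
  have h2 : Module.finrank ℝ (ℝ ∙ y) = 1 := finrank_span_singleton hy0
  have h3 := Submodule.finrank_add_finrank_orthogonal (ℝ ∙ y)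
  rw [h2, finrank_euclideanSpace_fin] at h3
  have h4 := Submodule.finrank_mono h1
  have h5 : (⊤ : Submodule ℝ (EuclideanSpace ℝ (Fin d))) ≤ (ℝ ∙ t) ⊔ vectorSpan ℝ F := by
    rw [← span_tight hy, Submodule.span_le]
    intro v hv
    have hvF : v ∈ F := tight_subset_face hv
    have h6 : v = t + (v - t) := by abel
    rw [h6]
    refine Submodule.add_mem_sup (Submodule.mem_span_singleton_self t) ?_
    exact vsub_mem_vectorSpan ℝ hvF htF
  have h6 := Submodule.finrank_mono h5
  rw [finrank_top, finrank_euclideanSpace_fin] at h6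
  have h7 := Submodule.finrank_add_le_finrank_add_finrank (ℝ ∙ t) (vectorSpan ℝ F)
  have ht0 : t ≠ 0 := by
    rintro rfl
    simp at ht
  have h8 : Module.finrank ℝ (ℝ ∙ t) ≤ 1 := (finrank_span_singleton ht0).le
  omega

lemma face_inj {V : Finset (EuclideanSpace ℝ (Fin d))} {y z : EuclideanSpace ℝ (Fin d)}
    (hy : y ∈ (Q (convexHull ℝ (V : Set (EuclideanSpace ℝ (Fin d))))).extremePoints ℝ)
    (h : face (convexHull ℝ (V : Set (EuclideanSpace ℝ (Fin d)))) y =
      face (convexHull ℝ (V : Set (EuclideanSpace ℝ (Fin d)))) z) : y = z := by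
  have h1 : y - z ∈ (Submodule.span ℝ
      {v : EuclideanSpace ℝ (Fin d) | v ∈ V ∧ inner ℝ v y = 1})ᗮ := by
    rw [Submodule.mem_orthogonal]
    intro u hu
    induction hu using Submodule.span_induction with
    | mem v hv =>
      have h2 : v ∈ face (convexHull ℝ (V : Set (EuclideanSpace ℝ (Fin d)))) z := by
        rw [← h]; exact tight_subset_face hv
      rw [inner_sub_right, hv.2, real_inner_comm, h2.2, sub_self]
    | zero => simp
    | add a b _ _ ha hb => rw [inner_add_left, ha, hb, add_zero]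
    | smul c a _ ha => rw [real_inner_smul_left, ha, mul_zero]
  rw [span_tight hy, Submodule.top_orthogonal_eq_bot, Submodule.mem_bot, sub_eq_zero] at h1
  exact h1

/-- the cap-covering property of the normals of a polytope inside a ball -/
lemma level_of_bound {ι : Type*} [Fintype ι] [Nonempty ι] {P : Set (EuclideanSpace ℝ (Fin d))}
    (y : ι → EuclideanSpace ℝ (Fin d)) (hy0 : ∀ i, y i ≠ 0) (hy1 : ∀ i, ‖y i‖ ≤ 1)
    (hP : ∀ x, (∀ i, inner ℝ x (y i) ≤ 1) → x ∈ P) {R : ℝ} (hR : 0 < R)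
    (hb : ∀ x ∈ P, ‖x‖ ≤ R) (w : EuclideanSpace ℝ (Fin d)) (hw : ‖w‖ = 1) :
    ∃ i, 1 / R ≤ inner ℝ (‖y i‖⁻¹ • y i) w := by
  by_contra hne
  push Not at hne
  obtain ⟨i0, -, hi0⟩ := Finset.exists_max_image (Finset.univ : Finset ι)
    (fun i => inner ℝ (‖y i‖⁻¹ • y i) w) Finset.univ_nonempty
  set t := inner ℝ (‖y i0‖⁻¹ • y i0) w with ht
  have htR : t < 1 / R := hne i0
  have hmem : ∀ r : ℝ, 0 < r → r * t ≤ 1 → r • w ∈ P := by
    intro r hr hrt
    apply hP
    intro i
    have hn : 0 < ‖y i‖ := norm_pos_iff.mpr (hy0 i)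
    have h1 : inner ℝ w (y i) = ‖y i‖ * inner ℝ (‖y i‖⁻¹ • y i) w := by
      rw [real_inner_smul_left, real_inner_comm]
      field_simp
    have h2 : inner ℝ (‖y i‖⁻¹ • y i) w ≤ t := hi0 i (Finset.mem_univ _)
    rw [real_inner_smul_left, h1]
    have h3 : r * inner ℝ (‖y i‖⁻¹ • y i) w ≤ 1 := by
      have : r * inner ℝ (‖y i‖⁻¹ • y i) w ≤ r * t := by gcongr
      linarith
    have h4 : r * (‖y i‖ * inner ℝ (‖y i‖⁻¹ • y i) w) =
        ‖y i‖ * (r * inner ℝ (‖y i‖⁻¹ • y i) w) := by ring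
    rw [h4]
    calc ‖y i‖ * (r * inner ℝ (‖y i‖⁻¹ • y i) w) ≤ ‖y i‖ * 1 := by gcongr
      _ ≤ 1 := by linarith [hy1 i]
  rcases le_or_gt t 0 with h | h
  · have h1 := hb _ (hmem (R + 1) (by linarith) (by nlinarith))
    rw [norm_smul, hw, Real.norm_of_nonneg (by linarith)] at h1
    linarith
  · have h1 := hb _ (hmem (1 / t) (by positivity) (by field_simp; exact le_refl _))
    rw [norm_smul, hw, Real.norm_of_nonneg (by positivity)] at h1
    have h2 : 1 / R ≤ t := by
      rw [div_le_iff₀ hR]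
      have h3 : 1 / t * t = 1 := by field_simp
      nlinarith
    linarith

lemma sqrt_div_self' (hd : 1 ≤ d) : Real.sqrt d / d = 1 / Real.sqrt d := by
  have h0 : (0:ℝ) < d := by exact_mod_cast hd
  have h1 : 0 < Real.sqrt d := Real.sqrt_pos.mpr h0
  rw [div_eq_div_iff h0.ne' h1.ne', one_mul]
  exact Real.mul_self_sqrt h0.le

/-- lower bound -/
lemma lower {P : Set (EuclideanSpace ℝ (Fin d))} (hd : 1 ≤ d)
    (y : Fin (d + d) → EuclideanSpace ℝ (Fin d)) (hy0 : ∀ i, y i ≠ 0) (hy1 : ∀ i, ‖y i‖ ≤ 1)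
    (hP : ∀ x, (∀ i, inner ℝ x (y i) ≤ 1) → x ∈ P) {R : ℝ} (hR : 0 < R)
    (hb : ∀ x ∈ P, ‖x‖ ≤ R) : Real.sqrt d ≤ R := by
  have : Nonempty (Fin (d + d)) := ⟨⟨0, by omega⟩⟩
  have hunit : ∀ i, ‖(‖y i‖⁻¹ • y i)‖ = 1 := by
    intro i
    have hn : 0 < ‖y i‖ := norm_pos_iff.mpr (hy0 i)
    rw [norm_smul, norm_inv, norm_norm, inv_mul_cancel₀ hn.ne']
  have h1 := Helper484.level_le (n := d) (k := d) hd hd (by simp)
    (fun i => ‖y i‖⁻¹ • y i) hunit (1 / R)
    (fun w hw => level_of_bound y hy0 hy1 hP hR hb w hw)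
  rw [sqrt_div_self' hd] at h1
  have h0 : (0:ℝ) < d := by exact_mod_cast hd
  have h2 : 0 < Real.sqrt d := Real.sqrt_pos.mpr h0
  exact (one_div_le_one_div hR h2).mp h1

/-- equality case -/
lemma rigid {P : Set (EuclideanSpace ℝ (Fin d))} (hd : 1 ≤ d)
    (y : Fin (d + d) → EuclideanSpace ℝ (Fin d)) (hy0 : ∀ i, y i ≠ 0) (hy1 : ∀ i, ‖y i‖ ≤ 1)
    (hP : ∀ x, x ∈ P ↔ ∀ i, inner ℝ x (y i) ≤ 1)
    (hb : ∀ x ∈ P, ‖x‖ ≤ Real.sqrt d) :
    ∃ b : OrthonormalBasis (Fin d) ℝ (EuclideanSpace ℝ (Fin d)),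
      ∀ x, x ∈ P ↔ ∀ i, |inner ℝ (b i) x| ≤ 1 := by
  classical
  have : Nonempty (Fin (d + d)) := ⟨⟨0, by omega⟩⟩
  have : Nonempty (Fin d) := ⟨⟨0, by omega⟩⟩
  have h0 : (0:ℝ) < d := by exact_mod_cast hd
  have hR : 0 < Real.sqrt d := Real.sqrt_pos.mpr h0
  have hn : ∀ i, 0 < ‖y i‖ := fun i => norm_pos_iff.mpr (hy0 i)
  set c : Fin (d + d) → EuclideanSpace ℝ (Fin d) := fun i => ‖y i‖⁻¹ • y i with hc
  have hunit : ∀ i, ‖c i‖ = 1 := by
    intro i
    simp only [hc]
    rw [norm_smul, norm_inv, norm_norm, inv_mul_cancel₀ (hn i).ne']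
  have hyc : ∀ i, y i = ‖y i‖ • c i := by
    intro i
    simp only [hc]
    rw [smul_smul, mul_inv_cancel₀ (hn i).ne', one_smul]
  obtain ⟨f, hf1, hf2, hf3⟩ := Helper484.structure_of_cover (n := d) (k := d) (q := 1)
    one_pos hd (by ring) (by simp) c hunit (by
      intro w hw
      rw [sqrt_div_self' hd]
      exact level_of_bound y hy0 hy1 (fun x hx => (hP x).mpr hx) hR hb w hw)
  have hf2' : ∀ i j, i ≠ j → f i = f j → c j = - c i := by
    intro i j hij hfij
    have h1 := hf2 i j hij hfij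
    norm_num at h1
    have h2 : ‖c j + c i‖ ^ 2 = 0 := by
      rw [norm_add_sq_real, hunit, hunit, real_inner_comm, h1]; norm_num
    have h3 : c j + c i = 0 := by
      rw [← norm_eq_zero]; exact pow_eq_zero_iff (two_ne_zero) |>.mp h2
    exact eq_neg_of_add_eq_zero_left h3
  -- representatives
  have hrep : ∀ b : Fin d, ∃ i j, i ≠ j ∧ f i = b ∧ f j = b := by
    intro b
    have h1 := hf1 b
    obtain ⟨i, j, hij, h2⟩ := Finset.card_eq_two.mp h1
    refine ⟨i, j, hij, ?_, ?_⟩
    · have : i ∈ Finset.univ.filter (fun j => f j = b) := by rw [h2]; simp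
      exact (Finset.mem_filter.mp this).2
    · have : j ∈ Finset.univ.filter (fun j => f j = b) := by rw [h2]; simp
      exact (Finset.mem_filter.mp this).2
  choose r r' hrr hr hr' using hrep
  set e : Fin d → EuclideanSpace ℝ (Fin d) := fun b => c (r b) with he
  have heo : Orthonormal ℝ e := by
    refine ⟨fun b => hunit _, ?_⟩
    intro a b hab
    exact hf3 _ _ (by rw [hr, hr]; exact hab)
  have hspan : ⊤ ≤ Submodule.span ℝ (Set.range e) := by
    have h1 := heo.linearIndependent.span_eq_top_of_card_eq_finrank (by simp)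
    exact h1.ge
  set b : OrthonormalBasis (Fin d) ℝ (EuclideanSpace ℝ (Fin d)) :=
    OrthonormalBasis.mk heo hspan with hbdef
  have hbe : ∀ i, b i = e i := by
    intro i
    rw [hbdef, OrthonormalBasis.coe_mk]
  have hce : ∀ i, c i = e (f i) ∨ c i = - e (f i) := by
    intro i
    by_cases h : r (f i) = i
    · left; simp only [he]; rw [h]
    · right
      exact hf2' (r (f i)) i h (hr _)
  -- all normals have norm one
  have hnorm : ∀ i, ‖y i‖ = 1 := by
    intro i0
    by_contra hne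
    have hlt : ‖y i0‖ < 1 := lt_of_le_of_ne (hy1 i0) hne
    set x : EuclideanSpace ℝ (Fin d) := ‖y i0‖⁻¹ • c i0 +
      ∑ a ∈ Finset.univ.erase (f i0), e a with hx
    have hce0 : ∀ a, a ≠ f i0 → inner ℝ (c i0) (e a) = 0 := by
      intro a ha
      exact hf3 _ _ (by rw [hr]; exact Ne.symm ha)
    have hee : ∀ a b, inner ℝ (e a) (e b) = if a = b then (1:ℝ) else 0 :=
      fun a b => (orthonormal_iff_ite.mp heo) a b
    have hxP : x ∈ P := by
      rw [hP]
      intro i
      have h1 : inner ℝ x (c i) ≤ if i = i0 then ‖y i0‖⁻¹ else 1 := by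
        rw [hx, inner_add_left, real_inner_smul_left, sum_inner]
        by_cases hi : i = i0
        · rw [if_pos hi, hi, real_inner_self_eq_norm_sq, hunit]
          have h2 : ∑ a ∈ Finset.univ.erase (f i0), inner ℝ (e a) (c i0) = 0 := by
            apply Finset.sum_eq_zero
            intro a ha
            rw [real_inner_comm]
            exact hce0 a (Finset.ne_of_mem_erase ha)
          rw [h2]; simp
        · rw [if_neg hi]
          have h2 : inner ℝ (c i0) (c i) ≤ 0 := by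
            by_cases hfi : f i0 = f i
            · rw [hf2 i0 i (Ne.symm hi) hfi]; norm_num
            · rw [hf3 i0 i hfi]
          have h3 : ∑ a ∈ Finset.univ.erase (f i0), inner ℝ (e a) (c i) ≤ 1 := by
            have h4 : ∀ a, inner ℝ (e a) (c i) ≤ if a = f i then (1:ℝ) else 0 := by
              intro a
              rcases hce i with h | h
              · rw [h, hee]
              · rw [h, inner_neg_right, hee]
                split_ifs <;> norm_num
            calc ∑ a ∈ Finset.univ.erase (f i0), inner ℝ (e a) (c i)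
                ≤ ∑ a ∈ Finset.univ.erase (f i0), (if a = f i then (1:ℝ) else 0) :=
                  Finset.sum_le_sum fun a _ => h4 a
              _ ≤ 1 := by
                  rw [Finset.sum_ite_eq']
                  split_ifs <;> norm_num
          have h5 : ‖y i0‖⁻¹ * inner ℝ (c i0) (c i) ≤ 0 :=
            mul_nonpos_of_nonneg_of_nonpos (by positivity) h2
          linarith
      rw [hyc i, inner_smul_right]
      by_cases hi : i = i0
      · rw [if_pos hi] at h1
        rw [hi] at h1 ⊢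
        calc ‖y i0‖ * inner ℝ x (c i0) ≤ ‖y i0‖ * ‖y i0‖⁻¹ := by
              have := hn i0
              gcongr
          _ = 1 := mul_inv_cancel₀ (hn i0).ne'
      · rw [if_neg hi] at h1
        calc ‖y i‖ * inner ℝ x (c i) ≤ ‖y i‖ * 1 := by
              have := hn i
              gcongr
          _ ≤ 1 := by linarith [hy1 i]
    have h1 := hb x hxP
    have h2 : ‖x‖ ^ 2 ≤ (d:ℝ) := by
      calc ‖x‖ ^ 2 ≤ (Real.sqrt d) ^ 2 := by gcongr
        _ = (d:ℝ) := Real.sq_sqrt h0.le
    have h3 : ‖x‖ ^ 2 = (‖y i0‖⁻¹) ^ 2 + ((d:ℝ) - 1) := by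
      rw [hx, norm_add_sq_real, norm_smul, hunit, real_inner_smul_left, inner_sum]
      have h4 : ∑ a ∈ Finset.univ.erase (f i0), inner ℝ (c i0) (e a) = 0 := by
        apply Finset.sum_eq_zero
        intro a ha
        exact hce0 a (Finset.ne_of_mem_erase ha)
      have h5 : ‖∑ a ∈ Finset.univ.erase (f i0), e a‖ ^ 2 = (d:ℝ) - 1 := by
        rw [← real_inner_self_eq_norm_sq, sum_inner]
        have h6 : ∀ a ∈ Finset.univ.erase (f i0),
            inner ℝ (e a) (∑ a ∈ Finset.univ.erase (f i0), e a) = (1:ℝ) := by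
          intro a ha
          rw [inner_sum]
          simp only [hee]
          rw [Finset.sum_ite_eq, if_pos ha]
        rw [Finset.sum_congr rfl h6, Finset.sum_const, Finset.card_erase_of_mem (Finset.mem_univ _),
          Finset.card_univ, Fintype.card_fin]
        rw [nsmul_eq_mul, mul_one, Nat.cast_sub hd, Nat.cast_one]
      rw [h4, h5, norm_inv, norm_norm]
      ring
    have h4 : 1 < ‖y i0‖⁻¹ := (one_lt_inv₀ (hn i0)).mpr hlt
    nlinarith
  refine ⟨b, fun x => ?_⟩
  rw [hP]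
  have hyi : ∀ i, y i = c i := by
    intro i
    rw [hyc i, hnorm i, one_smul]
  constructor
  · intro h i
    rw [hbe, abs_le]
    constructor
    · have h1 := h (r' i)
      rw [hyi, hf2' (r i) (r' i) (hrr i) (by rw [hr, hr']), inner_neg_right,
        real_inner_comm] at h1
      have h2 : inner ℝ (e i) x = inner ℝ (c (r i)) x := rfl
      rw [h2]; linarith
    · have h1 := h (r i)
      rw [hyi, real_inner_comm] at h1
      exact h1
  · intro h i
    rw [hyi, real_inner_comm]
    have h1 := h (f i)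
    rw [hbe, abs_le] at h1
    rcases hce i with h2 | h2
    · rw [h2]; exact h1.2
    · rw [h2, inner_neg_left]; linarith [h1.1]

end Pool.Agent.Helper840.BC
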