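import Pool.Agent.Helper840.E48Refine

set_option autoImplicit false

namespace Pool.Agent.Helper840.E48

open Finset

theorem matching {ι : Type*} [DecidableEq ι] (bk d : ι → ℕ) :
    ∀ n : ℕ, ∀ I : Finset ι, I.card = n → ∃ M : Finset (ι × ι), ∃ rest ⊆ I,
      rest.card + 2 * M.card = I.card ∧
      (∀ p ∈ M, p.1 ∈ I ∧ p.2 ∈ I ∧ d p.1 < d p.2 ∧ bk p.1 = bk p.2) ∧
      (∀ p ∈ M, ∀ p' ∈ M, p ≠ p' → p.1 ≠ p'.1 ∧ p.1 ≠ p'.2 ∧ p.2 ≠ p'.1 ∧ p.2 ≠ p'.2) ∧
      (∀ i ∈ rest, ∀ j ∈ rest, bk i = bk j → d i = d j) := by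
  intro n
  induction n using Nat.strong_induction_on with
  | _ n ih =>
    intro I hI
    by_cases h : ∃ i ∈ I, ∃ j ∈ I, bk i = bk j ∧ d i < d j
    · obtain ⟨i, hi, j, hj, hbk, hd⟩ := h
      have hij : j ≠ i := by rintro rfl; exact lt_irrefl _ hd
      have hj' : j ∈ I.erase i := Finset.mem_erase.mpr ⟨hij, hj⟩
      have hc1 : (I.erase i).card = I.card - 1 := Finset.card_erase_of_mem hi
      have hc2 : ((I.erase i).erase j).card = (I.erase i).card - 1 := Finset.card_erase_of_mem hj'
      have hpos1 : 0 < I.card := Finset.card_pos.mpr ⟨i, hi⟩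
      have hpos2 : 0 < (I.erase i).card := Finset.card_pos.mpr ⟨j, hj'⟩
      obtain ⟨M, rest, hrest, hcard, hM1, hM2, hM3⟩ := ih ((I.erase i).erase j).card
        (by omega) _ rfl
      have hsub : ∀ x, x ∈ (I.erase i).erase j → x ∈ I ∧ x ≠ i ∧ x ≠ j := by
        intro x hx
        rw [Finset.mem_erase, Finset.mem_erase] at hx
        exact ⟨hx.2.2, hx.2.1, hx.1⟩
      have hnotin : (i, j) ∉ M := by
        intro hcon
        have := (hsub _ (hM1 _ hcon).1).2.1
        exact this rfl
      refine ⟨insert (i, j) M, rest, ?_, ?_, ?_, ?_, hM3⟩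
      · intro x hx
        exact (hsub x (hrest hx)).1
      · rw [Finset.card_insert_of_notMem hnotin]
        omega
      · intro p hp
        rcases Finset.mem_insert.mp hp with rfl | hp
        · exact ⟨hi, hj, hd, hbk⟩
        · obtain ⟨h1, h2, h3, h4⟩ := hM1 p hp
          exact ⟨(hsub _ h1).1, (hsub _ h2).1, h3, h4⟩
      · intro p hp p' hp' hne
        rcases Finset.mem_insert.mp hp with rfl | hp
        · rcases Finset.mem_insert.mp hp' with rfl | hp'
          · exact absurd rfl hne
          · obtain ⟨h1, h2, -, -⟩ := hM1 p' hp'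
            exact ⟨(hsub _ h1).2.1.symm, (hsub _ h2).2.1.symm, (hsub _ h1).2.2.symm,
              (hsub _ h2).2.2.symm⟩
        · rcases Finset.mem_insert.mp hp' with rfl | hp'
          · obtain ⟨h1, h2, -, -⟩ := hM1 p hp
            exact ⟨(hsub _ h1).2.1, (hsub _ h1).2.2, (hsub _ h2).2.1, (hsub _ h2).2.2⟩
          · exact hM2 p hp p' hp' hne
    · push Not at h
      refine ⟨∅, I, le_rfl, by simp, by simp, by simp, ?_⟩
      intro i hi j hj hbk
      exact le_antisymm (h j hj i hi hbk.symm) (h i hi j hj hbk)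

theorem popular {a : ℕ → ℕ} {ι : Type*} [DecidableEq ι] {I : Finset ι} {S : ι → Finset ℕ}
    {β d : ι → ℕ} (hF : IsFam a I S β d) {J : Finset ι} (hJ : J ⊆ I) {v : ℕ}
    (hv : ∀ i ∈ J, d i = v) : HasAP a (J.biUnion S) (∑ i ∈ J, β i) v J.card := by
  intro j hj
  obtain ⟨J', hJ', hc⟩ := Finset.exists_subset_card_eq hj
  have h1 := hF.sum_mem J hJ J' hJ'
  have h2 : ∑ i ∈ J', d i = j * v := by
    rw [Finset.sum_congr rfl (fun i hi => hv i (hJ' hi)), Finset.sum_const, hc, smul_eq_mul]
  rwa [h2] at h1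

theorem base_lemma {a : ℕ → ℕ} {W : Finset ℕ} {K : ℕ} (hK : 2 ^ 24 ≤ K) (hsep : Sep a W K) :
    ∀ X : ℕ, ∀ (ι : Type) [DecidableEq ι] (I : Finset ι) (S : ι → Finset ℕ) (β d : ι → ℕ),
      IsFam a I S β d → (∀ i ∈ I, S i ⊆ W) → (∀ i ∈ I, 1 ≤ d i ∧ d i ≤ X) →
      X ≤ 1024 * I.card → 0 < I.card →
      ∃ U b h L, U ⊆ I.biUnion S ∧ 0 < h ∧ h ≤ X ∧ HasAP a U b h L ∧ I.card ≤ 64 * L := by
  intro X
  induction X using Nat.strong_induction_on with
  | _ X ih =>
    intro ι _ I S β d hF hSW hd hXI hIpos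
    have hK0 : 0 < K := lt_of_lt_of_le (by positivity) hK
    have hX0 : 0 < X := by
      obtain ⟨i, hi⟩ := Finset.card_pos.mp hIpos
      have := hd i hi
      omega
    by_cases hpop : ∃ v, I.card ≤ 64 * (I.filter (fun i => d i = v)).card
    · obtain ⟨v, hv⟩ := hpop
      have hJ : (I.filter (fun i => d i = v)) ⊆ I := Finset.filter_subset _ _
      have hJpos : 0 < (I.filter (fun i => d i = v)).card := by omega
      obtain ⟨i, hi⟩ := Finset.card_pos.mp hJpos
      rw [Finset.mem_filter] at hi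
      have hdi := hd i hi.1
      refine ⟨_, _, v, _, Finset.biUnion_subset_biUnion_of_subset_left S hJ, by omega, by omega,
        popular hF hJ (fun i hi => (Finset.mem_filter.mp hi).2), hv⟩
    · push Not at hpop
      -- split
      obtain ⟨I₂, hI₂, hI₂c⟩ := Finset.exists_subset_card_eq (Nat.div_le_self I.card 2)
      set I₁ := I \ I₂ with hI₁
      have hI₁c : I₁.card = I.card - I.card / 2 := by
        rw [hI₁, Finset.card_sdiff_of_subset hI₂, hI₂c]
      have hI₁I : I₁ ⊆ I := Finset.sdiff_subset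
      set w := X / 8 + 1 with hw
      obtain ⟨M, rest, hrest, hcard, hM1, hM2, hM3⟩ :=
        matching (fun i => (d i - 1) / w) d I₁.card I₁ rfl
      -- bound on rest
      have hrestc : 64 * rest.card ≤ 8 * I.card := by
        have hmaps : ∀ i ∈ rest, (d i - 1) / w ∈ Finset.range 8 := by
          intro i hi
          rw [Finset.mem_range]
          apply Nat.div_lt_of_lt_mul
          have := hd i (hI₁I (hrest hi))
          omega
        rw [Finset.card_eq_sum_card_fiberwise hmaps, Finset.mul_sum]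
        have : ∀ t ∈ Finset.range 8,
            64 * (rest.filter (fun i => (d i - 1) / w = t)).card ≤ I.card := by
          intro t _
          rcases (rest.filter (fun i => (d i - 1) / w = t)).eq_empty_or_nonempty with h0 | h0
          · rw [h0]; simp
          · obtain ⟨i0, hi0⟩ := h0
            rw [Finset.mem_filter] at hi0
            have hsub : rest.filter (fun i => (d i - 1) / w = t) ⊆ I.filter (fun i => d i = d i0) := by
              intro i hi
              rw [Finset.mem_filter] at hi ⊢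
              refine ⟨hI₁I (hrest hi.1), hM3 i hi.1 i0 hi0.1 ?_⟩
              rw [hi.2, hi0.2]
            have h1 := Finset.card_le_card hsub
            have h2 := hpop (d i0)
            omega
        calc ∑ t ∈ Finset.range 8, 64 * (rest.filter (fun i => (d i - 1) / w = t)).card
            ≤ ∑ t ∈ Finset.range 8, I.card := Finset.sum_le_sum this
          _ = 8 * I.card := by simp
      have hMc : I.card ≤ 8 * M.card := by omega
      have hMpos : 0 < M.card := by omega
      -- the new family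
      have hF' : IsFam a M (fun p => S p.1 ∪ S p.2) (fun p => β p.1 + β p.2 + d p.1)
          (fun p => d p.2 - d p.1) := by
        have hdisj : ∀ p ∈ M, Disjoint (S p.1) (S p.2) := by
          intro p hp
          obtain ⟨h1, h2, h3, h4⟩ := hM1 p hp
          apply hF.disj (by exact_mod_cast hI₁I h1) (by exact_mod_cast hI₁I h2)
          intro h5
          rw [h5] at h3
          exact lt_irrefl _ h3
        refine ⟨?_, ?_, ?_⟩
        · intro p hp
          obtain ⟨h1, h2, h3, h4⟩ := hM1 p hp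
          have h5 := SS_add (hdisj p hp) (hF.top _ (hI₁I h1)) (hF.base _ (hI₁I h2))
          convert h5 using 1
          ring
        · intro p hp
          obtain ⟨h1, h2, h3, h4⟩ := hM1 p hp
          have h5 := SS_add (hdisj p hp) (hF.base _ (hI₁I h1)) (hF.top _ (hI₁I h2))
          convert h5 using 1
          omega
        · intro p hp p' hp' hne
          have hp := Finset.mem_coe.mp hp
          have hp' := Finset.mem_coe.mp hp'
          obtain ⟨h1, h2, h3, h4⟩ := hM2 p hp p' hp' hne
          obtain ⟨m1, m2, -, -⟩ := hM1 p hp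
          obtain ⟨m3, m4, -, -⟩ := hM1 p' hp'
          have c1 := Finset.mem_coe.mpr (hI₁I m1)
          have c2 := Finset.mem_coe.mpr (hI₁I m2)
          have c3 := Finset.mem_coe.mpr (hI₁I m3)
          have c4 := Finset.mem_coe.mpr (hI₁I m4)
          simp only [Function.onFun]
          rw [Finset.disjoint_union_left, Finset.disjoint_union_right,
            Finset.disjoint_union_right]
          exact ⟨⟨hF.disj c1 c3 h1, hF.disj c1 c4 h2⟩, ⟨hF.disj c2 c3 h3, hF.disj c2 c4 h4⟩⟩
      have hdM : ∀ p ∈ M, 1 ≤ d p.2 - d p.1 ∧ d p.2 - d p.1 ≤ X / 8 := by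
        intro p hp
        obtain ⟨h1, h2, h3, h4⟩ := hM1 p hp
        refine ⟨by omega, ?_⟩
        have hw0 : 0 < w := by omega
        have e1 := Nat.div_add_mod (d p.1 - 1) w
        have e2 := Nat.div_add_mod (d p.2 - 1) w
        have e3 := Nat.mod_lt (d p.1 - 1) hw0
        have e4 := Nat.mod_lt (d p.2 - 1) hw0
        rw [h4] at e1
        have hd1 := (hd p.1 (hI₁I h1)).1
        obtain ⟨t, ht⟩ : ∃ t, w * ((d p.2 - 1) / w) = t := ⟨_, rfl⟩
        obtain ⟨r1, hr1⟩ : ∃ t, (d p.1 - 1) % w = t := ⟨_, rfl⟩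
        obtain ⟨r2, hr2⟩ : ∃ t, (d p.2 - 1) % w = t := ⟨_, rfl⟩
        rw [ht, hr1] at e1
        rw [ht, hr2] at e2
        rw [hr1] at e3
        rw [hr2] at e4
        omega
      obtain ⟨U₁, b₁, h₁, L₁, hU₁, hh₁, hh₁X, hAP₁, hL₁⟩ :=
        ih (X / 8) (Nat.div_lt_self hX0 (by norm_num)) (ι × ι) M _ _ _ hF'
          (by
            intro p hp
            obtain ⟨h1, h2, -, -⟩ := hM1 p hp
            exact Finset.union_subset (hSW _ (hI₁I h1)) (hSW _ (hI₁I h2)))
          hdM (by omega) hMpos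
      have hU₁I : U₁ ⊆ I₁.biUnion S := by
        refine hU₁.trans ?_
        rw [Finset.biUnion_subset]
        intro p hp
        obtain ⟨h1, h2, -, -⟩ := hM1 p hp
        exact Finset.union_subset (Finset.subset_biUnion_of_mem S h1)
          (Finset.subset_biUnion_of_mem S h2)
      have hUnW : I.biUnion S ⊆ W := by
        rw [Finset.biUnion_subset]; exact hSW
      have hU₁W : U₁ ⊆ W :=
        (hU₁I.trans (Finset.biUnion_subset_biUnion_of_subset_left S hI₁I)).trans hUnW
      have hL₁pos : 1 ≤ L₁ := by omega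
      have hKh₁ : K ≤ h₁ := by
        have m0 := SS_mono hU₁W (hAP₁ 0 (by omega))
        have m1 := SS_mono hU₁W (hAP₁ 1 hL₁pos)
        have := hsep _ m0 _ m1 (by omega)
        omega
      have hXL : X ≤ 2 ^ 19 * L₁ := by omega
      have hLK : 4 ≤ L₁ := by omega
      have hXh : X * (h₁ / K) * 32 ≤ h₁ * L₁ := by
        have e1 : (h₁ / K) * 2 ^ 24 ≤ h₁ :=
          (Nat.mul_le_mul_left _ hK).trans (Nat.div_mul_le_self h₁ K)
        calc X * (h₁ / K) * 32 ≤ (2 ^ 19 * L₁) * (h₁ / K) * 32 := by gcongr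
          _ = ((h₁ / K) * 2 ^ 24) * L₁ := by ring
          _ ≤ h₁ * L₁ := by gcongr
      have h4h : 4 * h₁ ≤ h₁ * L₁ := by rw [mul_comm]; gcongr
      have hF₂ : IsFam a I₂ S β d := hF.subset hI₂
      have hdisU₁ : ∀ i ∈ I₂, Disjoint (S i) U₁ := by
        intro i hi
        apply Finset.disjoint_of_subset_right hU₁I
        rw [Finset.disjoint_biUnion_right]
        intro j hj
        apply hF.disj (by exact_mod_cast hI₂ hi) (by exact_mod_cast hI₁I hj)
        rintro rfl
        exact (Finset.mem_sdiff.mp hj).2 hi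
      obtain ⟨J, hJI, h', b', L', hh', hh'd, hJK, hAP', hspan', hJd, -⟩ :=
        refine_lemma (X := X) hK0 hsep hU₁W hAP₁ hh₁ hF₂ hdisU₁ (fun i hi => hSW i (hI₂ hi))
          (fun i hi => (hd i (hI₂ hi)).2) (by omega)
      have hh'le : h' ≤ h₁ := Nat.le_of_dvd hh₁ hh'd
      have hJh : J.card ≤ h₁ / K := by
        have := (Nat.le_div_iff_mul_le hK0).2 hJK
        omega
      have hXJ : X * J.card ≤ X * (h₁ / K) := Nat.mul_le_mul_left _ hJh
      have hbig : X ≤ h' * L' := by
        have e1 : K * L₁ ≤ h₁ * L₁ := Nat.mul_le_mul_right _ hKh₁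
        have e2 : 2 ^ 24 * L₁ ≤ K * L₁ := Nat.mul_le_mul_right _ hK
        omega
      set I₃ := I₂ \ J with hI₃
      have hI₃I₂ : I₃ ⊆ I₂ := Finset.sdiff_subset
      have hF₃ : IsFam a I₃ S β d := hF₂.subset hI₃I₂
      have hdis₃ : ∀ i ∈ I₃, Disjoint (S i) (U₁ ∪ J.biUnion S) := by
        intro i hi
        rw [Finset.disjoint_union_right]
        refine ⟨hdisU₁ i (hI₃I₂ hi), ?_⟩
        rw [Finset.disjoint_biUnion_right]
        intro j hj
        apply hF.disj (by exact_mod_cast hI₂ (hI₃I₂ hi)) (by exact_mod_cast hI₂ (hJI hj))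
        rintro rfl
        exact (Finset.mem_sdiff.mp hi).2 hj
      have hAP₃ := hAP'.extend hh' hF₃ hdis₃ hJd (fun i hi => by
        have := (hd i (hI₂ (hI₃I₂ hi))).2
        calc d i ≤ X := this
          _ ≤ h' * L' := hbig
          _ ≤ h' * (L' + 1) := Nat.mul_le_mul_left _ (Nat.le_succ _)) I₃ le_rfl
      have hI₃c : I₃.card = I.card / 2 - J.card := by
        rw [hI₃, Finset.card_sdiff_of_subset hJI, hI₂c]
      have hsumge : I₃.card ≤ (∑ i ∈ I₃, d i) / h' := by
        rw [Nat.le_div_iff_mul_le hh', Finset.card_eq_sum_ones, Finset.sum_mul]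
        apply Finset.sum_le_sum
        intro i hi
        rw [one_mul]
        exact Nat.le_of_dvd (hd i (hI₂ (hI₃I₂ hi))).1 (hJd i hi)
      have hJsmall : 16 * J.card ≤ I.card := by
        have e1 : J.card * 2 ^ 24 ≤ h₁ := by
          have := (Nat.mul_le_mul_left J.card hK)
          have e2 : J.card * K ≤ (h₁ / K) * K := Nat.mul_le_mul_right _ hJh
          have e3 := Nat.div_mul_le_self h₁ K
          omega
        omega
      refine ⟨_, _, h', _, ?_, hh', by omega, hAP₃, by omega⟩
      apply Finset.union_subset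
      · apply Finset.union_subset
        · exact hU₁I.trans (Finset.biUnion_subset_biUnion_of_subset_left S hI₁I)
        · exact Finset.biUnion_subset_biUnion_of_subset_left S (hJI.trans hI₂)
      · exact Finset.biUnion_subset_biUnion_of_subset_left S (hI₃I₂.trans hI₂)

end Pool.Agent.Helper840.E48
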