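import Mathlib

/-!
Subset sums over index sets, arithmetic progressions of subset sums, families of disjoint shifts.
-/
set_option autoImplicit false

namespace Pool.Agent.Helper840.E48

open Finset

/-- subset sums of the weights `a` over the index set `U` -/
def SS (a : ℕ → ℕ) (U : Finset ℕ) : Set ℕ := {s | ∃ B : Finset ℕ, B ⊆ U ∧ ∑ i ∈ B, a i = s}

theorem SS_mono {a : ℕ → ℕ} {U V : Finset ℕ} (h : U ⊆ V) : SS a U ⊆ SS a V := by
  rintro s ⟨B, hB, rfl⟩
  exact ⟨B, hB.trans h, rfl⟩

theorem SS_zero (a : ℕ → ℕ) (U : Finset ℕ) : 0 ∈ SS a U := ⟨∅, by simp, by simp⟩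

theorem SS_single {a : ℕ → ℕ} {U : Finset ℕ} {i : ℕ} (hi : i ∈ U) : a i ∈ SS a U :=
  ⟨{i}, by simpa using hi, by simp⟩

theorem SS_add {a : ℕ → ℕ} {U V : Finset ℕ} (h : Disjoint U V) {x y : ℕ}
    (hx : x ∈ SS a U) (hy : y ∈ SS a V) : x + y ∈ SS a (U ∪ V) := by
  obtain ⟨B, hB, rfl⟩ := hx
  obtain ⟨C, hC, rfl⟩ := hy
  refine ⟨B ∪ C, Finset.union_subset_union hB hC, ?_⟩
  rw [Finset.sum_union]
  exact Finset.disjoint_of_subset_left hB (Finset.disjoint_of_subset_right hC h)

theorem SS_dvd {a : ℕ → ℕ} {U : Finset ℕ} {q x : ℕ} (h : ∀ i ∈ U, q ∣ a i) (hx : x ∈ SS a U) :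
    q ∣ x := by
  obtain ⟨B, hB, rfl⟩ := hx
  exact Finset.dvd_sum (fun i hi => h i (hB hi))

/-- `b + j h` is a subset sum for all `j ≤ L` -/
def HasAP (a : ℕ → ℕ) (U : Finset ℕ) (b h L : ℕ) : Prop := ∀ j ≤ L, b + j * h ∈ SS a U

theorem HasAP.mono {a : ℕ → ℕ} {U V : Finset ℕ} {b h L : ℕ} (hA : HasAP a U b h L) (hUV : U ⊆ V) :
    HasAP a V b h L := fun j hj => SS_mono hUV (hA j hj)

/-- `K`-separated subset sums -/
def Sep (a : ℕ → ℕ) (W : Finset ℕ) (K : ℕ) : Prop :=
  ∀ x ∈ SS a W, ∀ y ∈ SS a W, x < y → x + K ≤ y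

/-- a family of disjointly supported shifts -/
structure IsFam (a : ℕ → ℕ) {ι : Type*} (I : Finset ι) (S : ι → Finset ℕ) (β d : ι → ℕ) :
    Prop where
  base : ∀ i ∈ I, β i ∈ SS a (S i)
  top : ∀ i ∈ I, β i + d i ∈ SS a (S i)
  disj : (I : Set ι).PairwiseDisjoint S

theorem IsFam.subset {a : ℕ → ℕ} {ι : Type*} {I J : Finset ι} {S : ι → Finset ℕ} {β d : ι → ℕ}
    (h : IsFam a I S β d) (hJ : J ⊆ I) : IsFam a J S β d :=
  ⟨fun i hi => h.base i (hJ hi), fun i hi => h.top i (hJ hi),
    h.disj.subset (by exact_mod_cast hJ)⟩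

theorem IsFam.sum_mem {a : ℕ → ℕ} {ι : Type*} [DecidableEq ι] {I : Finset ι} {S : ι → Finset ℕ}
    {β d : ι → ℕ} (h : IsFam a I S β d) :
    ∀ J : Finset ι, J ⊆ I → ∀ J' : Finset ι, J' ⊆ J →
      (∑ i ∈ J, β i) + (∑ i ∈ J', d i) ∈ SS a (J.biUnion S) := by
  intro J
  induction J using Finset.induction_on with
  | empty =>
    intro _ J' hJ'
    have : J' = ∅ := Finset.subset_empty.mp hJ'
    subst this
    simpa using SS_zero a ∅
  | insert i J hi ih =>
    intro hJ J' hJ'
    have hJI : J ⊆ I := (Finset.subset_insert i J).trans hJ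
    have hiI : i ∈ I := hJ (Finset.mem_insert_self i J)
    have hd : Disjoint (S i) (J.biUnion S) := by
      rw [Finset.disjoint_biUnion_right]
      intro j hj
      exact h.disj (by exact_mod_cast hiI) (by exact_mod_cast hJI hj)
        (by rintro rfl; exact hi hj)
    rw [Finset.biUnion_insert, Finset.sum_insert hi]
    by_cases hiJ : i ∈ J'
    · have h1 : J'.erase i ⊆ J := by
        intro x hx
        have hx' := Finset.mem_erase.mp hx
        rcases Finset.mem_insert.mp (hJ' hx'.2) with h2 | h2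
        · exact absurd h2 hx'.1
        · exact h2
      have h2 := ih hJI _ h1
      have h3 := SS_add hd (h.top i hiI) h2
      have h4 : ∑ j ∈ J', d j = d i + ∑ j ∈ J'.erase i, d j := by
        rw [Finset.add_sum_erase _ _ hiJ]
      rw [h4]
      convert h3 using 1
      ring
    · have h1 : J' ⊆ J := by
        intro x hx
        rcases Finset.mem_insert.mp (hJ' hx) with h2 | h2
        · subst h2; exact absurd hx hiJ
        · exact h2
      have h2 := ih hJI _ h1
      have h3 := SS_add hd (h.base i hiI) h2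
      convert h3 using 1
      ring

/-- Lemma 2: shifts that are multiples of the difference and at most the span extend the AP. -/
theorem HasAP.extend {a : ℕ → ℕ} {ι : Type*} [DecidableEq ι] {U : Finset ℕ} {b h L : ℕ}
    (hA : HasAP a U b h L) (hh : 0 < h) {I : Finset ι} {S : ι → Finset ℕ} {β d : ι → ℕ}
    (hF : IsFam a I S β d) (hU : ∀ i ∈ I, Disjoint (S i) U) (hdvd : ∀ i ∈ I, h ∣ d i)
    (hd : ∀ i ∈ I, d i ≤ h * (L + 1)) :
    ∀ J : Finset ι, J ⊆ I →
      HasAP a (U ∪ J.biUnion S) (b + ∑ i ∈ J, β i) h (L + (∑ i ∈ J, d i) / h) := by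
  intro J
  induction J using Finset.induction_on with
  | empty => intro _; simpa using hA
  | insert i J hi ih =>
    intro hJ
    have hJI : J ⊆ I := (Finset.subset_insert i J).trans hJ
    have hiI : i ∈ I := hJ (Finset.mem_insert_self i J)
    have ihJ := ih hJI
    have hd1 : Disjoint (U ∪ J.biUnion S) (S i) := by
      rw [Finset.disjoint_union_left]
      refine ⟨(hU i hiI).symm, ?_⟩
      rw [Finset.disjoint_biUnion_left]
      intro j hj
      have hij : j ≠ i := by rintro rfl; exact hi hj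
      exact hF.disj (by exact_mod_cast hJI hj) (by exact_mod_cast hiI) hij
    obtain ⟨e, he⟩ := hdvd i hiI
    have hsum : h ∣ ∑ j ∈ J, d j := Finset.dvd_sum (fun j hj => hdvd j (hJI hj))
    have hq : (∑ j ∈ insert i J, d j) / h = e + (∑ j ∈ J, d j) / h := by
      rw [Finset.sum_insert hi, he, Nat.mul_add_div hh]
    have he1 : e ≤ L + 1 := by
      have := hd i hiI
      rw [he] at this
      exact Nat.le_of_mul_le_mul_left this hh
    rw [hq, Finset.sum_insert hi, Finset.biUnion_insert]
    have hset : U ∪ (S i ∪ J.biUnion S) = (U ∪ J.biUnion S) ∪ S i := by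
      rw [Finset.union_assoc, Finset.union_comm (S i)]
    rw [hset]
    obtain ⟨s, hs⟩ : ∃ s, (∑ j ∈ J, d j) / h = s := ⟨_, rfl⟩
    rw [hs] at ihJ ⊢
    intro j hj
    by_cases hjL : j ≤ L + s
    · have h1 := SS_add hd1 (ihJ j hjL) (hF.base i hiI)
      convert h1 using 1
      ring
    · have hje : e ≤ j := by omega
      have h1 := SS_add hd1 (ihJ (j - e) (by omega)) (hF.top i hiI)
      convert h1 using 1
      rw [he]
      obtain ⟨k, rfl⟩ := Nat.exists_eq_add_of_le hje
      simp only [Nat.add_sub_cancel_left]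
      ring

/-- Packing: if a whole set of residues mod `n` is realised on an interval of length `2n`, then
there are at most `n / K` residues. -/
theorem packing {a : ℕ → ℕ} {W : Finset ℕ} {K n : ℕ} (hK : 0 < K) (hn : 0 < n)
    (hsep : Sep a W K) (T : Finset (ZMod n)) (c Z : ℕ)
    (h : ∀ z, Z ≤ z → z < Z + 2 * n → ((z : ZMod n)) ∈ T → c + z ∈ SS a W) :
    T.card * K ≤ n := by
  classical
  have : NeZero n := ⟨hn.ne'⟩
  rcases T.eq_empty_or_nonempty with rfl | hT
  · simp
  set F : Finset ℕ := (Finset.Ico Z (Z + n)).filter (fun z => ((z : ZMod n)) ∈ T) with hF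
  have hcard : T.card ≤ F.card := by
    have himg : T ⊆ F.image (fun z : ℕ => (z : ZMod n)) := by
      intro τ hτ
      rw [Finset.mem_image]
      refine ⟨Z + (τ - (Z : ZMod n)).val, ?_, ?_⟩
      · rw [hF, Finset.mem_filter, Finset.mem_Ico]
        refine ⟨⟨by omega, by have := ZMod.val_lt (τ - (Z : ZMod n)); omega⟩, ?_⟩
        push_cast
        rw [ZMod.natCast_zmod_val]
        simpa using hτ
      · push_cast
        rw [ZMod.natCast_zmod_val]
        ring
    exact (Finset.card_le_card himg).trans Finset.card_image_le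
  have hFne : F.Nonempty := by
    rw [← Finset.card_pos]
    exact lt_of_lt_of_le (Finset.card_pos.mpr hT) hcard
  set z0 := F.min' hFne with hz0
  have hz0F : z0 ∈ F := Finset.min'_mem F hFne
  have hz0' := hz0F
  rw [hF, Finset.mem_filter, Finset.mem_Ico] at hz0'
  have hup : c + (z0 + n) ∈ SS a W := by
    apply h _ (by omega) (by omega)
    push_cast
    simpa using hz0'.2
  have hmem : ∀ z ∈ F, c + z ∈ SS a W ∧ z0 ≤ z ∧ z + K ≤ z0 + n := by
    intro z hz
    have hz' := hz
    rw [hF, Finset.mem_filter, Finset.mem_Ico] at hz'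
    have h1 : c + z ∈ SS a W := h z hz'.1.1 (by omega) hz'.2
    have h2 : z0 ≤ z := Finset.min'_le F z hz
    refine ⟨h1, h2, ?_⟩
    have h3 := hsep _ h1 _ hup (by omega)
    omega
  have hKn : K ≤ n := by
    have := (hmem z0 hz0F).2.2
    omega
  have hcF : F.card ≤ n / K := by
    have : F.card ≤ (Finset.range (n / K)).card := by
      apply Finset.card_le_card_of_injOn (fun z => (z - z0) / K)
      · intro z hz
        have hz' := hmem z hz
        simp only [Finset.coe_range, Set.mem_Iio]
        have h1 : (z - z0) ≤ n - K := by omega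
        have h2 : (z - z0) / K ≤ (n - K) / K := Nat.div_le_div_right h1
        have h3 : (n - K) / K + 1 = n / K := by
          rw [← Nat.add_div_right _ hK, Nat.sub_add_cancel hKn]
        omega
      · intro x hx y hy hxy
        have hx' := hmem x hx
        have hy' := hmem y hy
        simp only at hxy
        by_contra hne
        rcases lt_or_gt_of_ne hne with hlt | hlt
        · have h1 := hsep _ hx'.1 _ hy'.1 (by omega)
          have h2 : (x - z0) / K + 1 ≤ (y - z0) / K := by
            rw [← Nat.add_div_right _ hK]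
            exact Nat.div_le_div_right (by omega)
          omega
        · have h1 := hsep _ hy'.1 _ hx'.1 (by omega)
          have h2 : (y - z0) / K + 1 ≤ (x - z0) / K := by
            rw [← Nat.add_div_right _ hK]
            exact Nat.div_le_div_right (by omega)
          omega
    simpa using this
  calc T.card * K ≤ F.card * K := Nat.mul_le_mul_right _ hcard
    _ ≤ (n / K) * K := Nat.mul_le_mul_right _ hcF
    _ ≤ n := Nat.div_mul_le_self n K

end Pool.Agent.Helper840.E48
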