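import Pool.Agent.Helper840.E48Seq

set_option autoImplicit false

namespace Pool.Agent.Helper840.E48

open Finset

theorem pigeon {S : Set ℕ} (hS : S.Infinite) {N : ℕ} (Q : ℕ → ℕ → Prop)
    (h : ∀ k ∈ S, ∃ c < N, Q k c) : ∃ c < N, {k | k ∈ S ∧ Q k c}.Infinite := by
  by_contra hcon
  push Not at hcon
  apply hS
  have hfin : (⋃ c ∈ Finset.range N, {k | k ∈ S ∧ Q k c}).Finite := by
    apply Set.Finite.biUnion (Finset.finite_toSet _)
    intro c hc
    exact hcon c (by simpa using hc)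
  apply hfin.subset
  intro k hk
  obtain ⟨c, hc, hQ⟩ := h k hk
  simp only [Set.mem_iUnion]
  exact ⟨c, by simpa using hc, hk, hQ⟩

theorem win_disj {Θ : ℕ} (hΘ : 2 ≤ Θ) {j j' i : ℕ} (h : i ∈ Finset.Ico (Θ ^ j) (Θ ^ (j + 1)))
    (h' : i ∈ Finset.Ico (Θ ^ j') (Θ ^ (j' + 1))) : j = j' := by
  rw [Finset.mem_Ico] at h h'
  have h1 : Θ ^ j < Θ ^ (j' + 1) := by omega
  have h2 : Θ ^ j' < Θ ^ (j + 1) := by omega
  rw [Nat.pow_lt_pow_iff_right (by omega)] at h1 h2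
  omega

theorem case_one {a : ℕ → ℕ} (hs : SSFree a) {n₀ : ℕ} (hgap : ∀ n ≥ n₀, a (n + 1) ≤ a n + (n + 1))
    {Θ K : ℕ} (hΘ : 2 ≤ Θ)
    (hinf : {j | ¬ Sep a (Finset.Ico (Θ ^ j) (Θ ^ (j + 1))) K}.Infinite) : False := by
  classical
  set win : ℕ → Finset ℕ := fun j => Finset.Ico (Θ ^ j) (Θ ^ (j + 1)) with hwin
  -- choose the difference
  obtain ⟨δ, hδK, hinf1⟩ := pigeon hinf (N := K)
    (fun j δ => 0 < δ ∧ ∃ x, x ∈ SS a (win j) ∧ x + δ ∈ SS a (win j)) (by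
      intro j hj
      have hj' : ¬ Sep a (win j) K := hj
      unfold Sep at hj'
      push Not at hj'
      obtain ⟨x, hx, y, hy, hxy, hyK⟩ := hj'
      refine ⟨y - x, by omega, by omega, x, hx, ?_⟩
      have : x + (y - x) = y := by omega
      rwa [this])
  have hδ0 : 0 < δ := by
    obtain ⟨j, hj⟩ := hinf1.nonempty
    exact hj.2.1
  obtain ⟨ρ, hρ, hinf2⟩ := pigeon hinf1 (N := δ)
    (fun j ρ => ∃ x, x ∈ SS a (win j) ∧ x + δ ∈ SS a (win j) ∧ x % δ = ρ) (by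
      rintro j ⟨_, _, x, hx, hx'⟩
      exact ⟨x % δ, Nat.mod_lt _ hδ0, x, hx, hx', rfl⟩)
  obtain ⟨π, hπ, hinf3⟩ := pigeon hinf2 (N := 2) (fun j π => j % 2 = π) (by
      intro j _
      exact ⟨j % 2, Nat.mod_lt _ (by norm_num), rfl⟩)
  -- residue class
  obtain ⟨c, hc, hinfc⟩ := pigeon Set.infinite_univ (N := δ) (fun k c => a k % δ = c) (by
      intro k _
      exact ⟨a k % δ, Nat.mod_lt _ hδ0, rfl⟩)
  obtain ⟨i', hi'⟩ := hinfc.nonempty
  have hi'c : a i' % δ = c := hi'.2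
  obtain ⟨n₁, hn₁⟩ := hs.superlinear (3 * δ * Θ ^ 6)
  obtain ⟨n₂, hn₂⟩ := sq_bound hgap
  set j₀ := i' + n₁ + n₂ + 1 with hj₀
  have hΘj₀ : j₀ < Θ ^ j₀ := Nat.lt_pow_self (by omega)
  set L := δ * (3 * a (Θ ^ (j₀ + 2))) with hL
  set J : Set ℕ := {j | j₀ ≤ j ∧ j % 2 = π ∧ ∃ x, x ∈ SS a (win j) ∧ x + δ ∈ SS a (win j) ∧
    x % δ = ρ} with hJ
  have hJinf : J.Infinite := by
    have h1 := hinf3.sdiff (Finset.finite_toSet (Finset.range j₀))
    apply h1.mono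
    intro j hj
    have hj1 := hj.1
    have hj2 := hj.2
    rw [Finset.coe_range, Set.mem_Iio, not_lt] at hj2
    exact ⟨hj2, hj1.2, hj1.1.2⟩
  obtain ⟨𝒥, h𝒥J, h𝒥c⟩ := hJinf.exists_subset_card_eq L
  have h𝒥 : ∀ j ∈ 𝒥, j₀ ≤ j ∧ j % 2 = π ∧ ∃ x, x ∈ SS a (win j) ∧ x + δ ∈ SS a (win j) ∧
    x % δ = ρ := fun j hj => h𝒥J hj
  have h𝒥x : ∀ j, ∃ x, j ∈ 𝒥 → x ∈ SS a (win j) ∧ x + δ ∈ SS a (win j) ∧ x % δ = ρ := by
    intro j
    by_cases hj : j ∈ 𝒥
    · obtain ⟨-, -, x, hx⟩ := h𝒥 j hj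
      exact ⟨x, fun _ => hx⟩
    · exact ⟨0, fun h => absurd h hj⟩
  choose x hx using h𝒥x
  have hfam : IsFam a 𝒥 win x (fun _ => δ) := by
    refine ⟨fun j hj => (hx j hj).1, fun j hj => (hx j hj).2.1, ?_⟩
    intro j _ j' _ hne
    simp only [Function.onFun]
    rw [Finset.disjoint_left]
    intro i hi hi'
    exact hne (win_disj hΘ hi hi')
  have hAP := popular hfam (J := 𝒥) le_rfl (v := δ) (fun _ _ => rfl)
  rw [h𝒥c] at hAP
  have hdvd : δ ∣ ∑ j ∈ 𝒥, x j := by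
    have h1 : ∑ j ∈ 𝒥, x j = ∑ j ∈ 𝒥, (δ * (x j / δ) + ρ) := by
      apply Finset.sum_congr rfl
      intro j hj
      have := Nat.div_add_mod (x j) δ
      rw [(hx j hj).2.2] at this
      exact this.symm
    rw [h1, Finset.sum_add_distrib, Finset.sum_const, h𝒥c, smul_eq_mul, ← Finset.mul_sum, hL]
    exact dvd_add (dvd_mul_right _ _) ((dvd_mul_right _ _).mul_right _)
  set V : Set ℕ := {k | Θ ^ j₀ ≤ k ∧ k ∉ 𝒥.biUnion win} with hV
  refine final_lemma hs (U := 𝒥.biUnion win) (V := V) (i' := i') hδ0 hdvd hAP ?_ ?_ ?_ ?_ ?_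
  · intro i hi hiV
    exact hiV.2 hi
  · intro hi
    have := hi.1
    omega
  · intro hi
    rw [Finset.mem_biUnion] at hi
    obtain ⟨j, hj, hij⟩ := hi
    simp only [hwin, Finset.mem_Ico] at hij
    have h1 := (h𝒥 j hj).1
    have h2 : Θ ^ j₀ ≤ Θ ^ j := Nat.pow_le_pow_right (by omega) h1
    omega
  · intro k hk
    have hk1 : Θ ^ j₀ ≤ k := hk.1
    have hk0 : k ≠ 0 := by omega
    set j := Nat.log Θ k with hj
    have hjk : Θ ^ j ≤ k := Nat.pow_log_le_self Θ hk0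
    have hkj : k < Θ ^ (j + 1) := Nat.lt_pow_succ_log_self (by omega) k
    have hj₀j : j₀ ≤ j := Nat.le_log_of_pow_le (by omega) hk1
    rcases Nat.lt_or_ge j (j₀ + 2) with hlt | hge
    · have h1 : k ≤ Θ ^ (j₀ + 2) := by
        have : Θ ^ (j + 1) ≤ Θ ^ (j₀ + 2) := Nat.pow_le_pow_right (by omega) (by omega)
        omega
      have h2 : a k ≤ a (Θ ^ (j₀ + 2)) := hs.mono.monotone h1
      have h3 : 3 * δ * a k ≤ δ * L := by
        calc 3 * δ * a k ≤ 3 * δ * a (Θ ^ (j₀ + 2)) := Nat.mul_le_mul_left _ h2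
          _ = 1 * (δ * (3 * a (Θ ^ (j₀ + 2)))) := by ring
          _ ≤ δ * (δ * (3 * a (Θ ^ (j₀ + 2)))) := Nat.mul_le_mul_right _ hδ0
      omega
    · obtain ⟨j', hj'1, hj'2, hj'3⟩ : ∃ j', j' + 1 ≤ j ∧ j ≤ j' + 2 ∧ j' ∉ 𝒥 := by
        by_cases h1 : j - 1 ∈ 𝒥
        · refine ⟨j - 2, by omega, by omega, ?_⟩
          intro h2
          have e1 := (h𝒥 _ h1).2.1
          have e2 := (h𝒥 _ h2).2.1
          omega
        · exact ⟨j - 1, by omega, by omega, h1⟩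
      have hsub : win j' ⊆ (Finset.range k).filter (· ∈ V) := by
        intro i hi
        have hi' := hi
        simp only [hwin, Finset.mem_Ico] at hi'
        rw [Finset.mem_filter, Finset.mem_range]
        have e1 : Θ ^ (j' + 1) ≤ Θ ^ j := Nat.pow_le_pow_right (by omega) hj'1
        have e2 : Θ ^ j₀ ≤ Θ ^ j' := Nat.pow_le_pow_right (by omega) (by omega)
        refine ⟨by omega, by omega, ?_⟩
        intro hmem
        rw [Finset.mem_biUnion] at hmem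
        obtain ⟨j'', hj'', hij''⟩ := hmem
        have := win_disj hΘ hi hij''
        rw [this] at hj'3
        exact hj'3 hj''
      have hsum : Θ ^ j' * (3 * δ * Θ ^ 6 * Θ ^ j') ≤
          ∑ i ∈ (Finset.range k).filter (· ∈ V), a i := by
        refine le_trans ?_ (Finset.sum_le_sum_of_subset hsub)
        have e0 : Θ ^ j₀ ≤ Θ ^ j' := Nat.pow_le_pow_right (by omega) (by omega)
        have e1 : 3 * δ * Θ ^ 6 * Θ ^ j' ≤ a (Θ ^ j') := hn₁ _ (by omega)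
        have e2 : Θ ^ j' ≤ (win j').card := by
          simp only [hwin, Nat.card_Ico]
          have : Θ ^ (j' + 1) = Θ ^ j' * Θ := pow_succ _ _
          rw [this]
          have : Θ ^ j' * 2 ≤ Θ ^ j' * Θ := Nat.mul_le_mul_left _ hΘ
          omega
        calc Θ ^ j' * (3 * δ * Θ ^ 6 * Θ ^ j') ≤ (win j').card * a (Θ ^ j') :=
              Nat.mul_le_mul e2 e1
          _ = ∑ i ∈ win j', a (Θ ^ j') := by rw [Finset.sum_const, smul_eq_mul]
          _ ≤ ∑ i ∈ win j', a i := by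
              apply Finset.sum_le_sum
              intro i hi
              simp only [hwin, Finset.mem_Ico] at hi
              exact hs.mono.monotone hi.1
      have hak : a k ≤ Θ ^ 6 * (Θ ^ j' * Θ ^ j') := by
        calc a k ≤ k ^ 2 := hn₂ k (by omega)
          _ ≤ (Θ ^ (j' + 3)) ^ 2 := by
              apply Nat.pow_le_pow_left
              have : Θ ^ (j + 1) ≤ Θ ^ (j' + 3) := Nat.pow_le_pow_right (by omega) (by omega)
              omega
          _ = Θ ^ 6 * (Θ ^ j' * Θ ^ j') := by ring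
      calc 3 * δ * a k ≤ 3 * δ * (Θ ^ 6 * (Θ ^ j' * Θ ^ j')) := Nat.mul_le_mul_left _ hak
        _ = Θ ^ j' * (3 * δ * Θ ^ 6 * Θ ^ j') := by ring
        _ ≤ _ := hsum.trans (Nat.le_add_left _ _)
  · have h1 := hinfc.sdiff (Finset.finite_toSet (Finset.range (Θ ^ j₀) ∪ 𝒥.biUnion win))
    apply h1.mono
    intro k hk
    have hk1 := hk.1.2
    have hk2 := hk.2
    rw [Finset.mem_coe, Finset.notMem_union, Finset.mem_range, not_lt] at hk2
    refine ⟨⟨hk2.1, hk2.2⟩, ?_⟩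
    rw [Nat.ModEq, hk1, hi'c]

end Pool.Agent.Helper840.E48
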