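import Pool.Agent.Helper840.E48Skel

set_option autoImplicit false

namespace Pool.Agent.Helper840.E48

open Finset

theorem pairs_batch {a : ℕ → ℕ} {Λ x₀ h b L : ℕ} {Av U : Finset ℕ} {z : ℕ → ℕ}
    (hz : ∀ c ∈ Av, x₀ + Λ * c ≤ a (z c) ∧ a (z c) < x₀ + Λ * (c + 1)) (hh : 0 < h)
    (hA : HasAP a U b h L) (hU : ∀ c ∈ Av, z c ∉ U) {t π : ℕ} (ht : 0 < t) {I : Finset ℕ}
    (hI : ∀ c ∈ I, c ∈ Av ∧ c + t ∈ Av ∧ (c / t) % 2 = π) (hIbad : ∀ c ∈ I, c ∉ Bad a z Av h t)
    (hfit : Λ * (t + 1) ≤ h * (L + 1)) :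
    ∃ b' L', HasAP a (U ∪ I.biUnion (fun c => {z c, z (c + t)})) b' h L' ∧
      h * L + I.card * (Λ * (t - 1)) ≤ h * L' := by
  have hfam := pairFam hz ht hI
  have hdvd : ∀ c ∈ I, h ∣ a (z (c + t)) - a (z c) := by
    intro c hc
    obtain ⟨m1, m2, m3⟩ := hI c hc
    rw [dvd_sub_iff_cast (cell_lt hz m1 m2 (by omega)).le]
    have := hIbad c hc
    rw [mem_Bad] at this
    by_contra hne
    exact this ⟨m1, m2, hne⟩
  have hAP := hA.extend hh hfam ?_ hdvd ?_ I le_rfl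
  · refine ⟨_, _, hAP, ?_⟩
    have h1 : h * ((∑ i ∈ I, (a (z (i + t)) - a (z i))) / h) = ∑ i ∈ I, (a (z (i + t)) - a (z i)) :=
      Nat.mul_div_cancel' (Finset.dvd_sum hdvd)
    rw [Nat.mul_add, h1]
    gcongr
    rw [← smul_eq_mul, ← Finset.sum_const]
    apply Finset.sum_le_sum
    intro c hc
    obtain ⟨m1, m2, m3⟩ := hI c hc
    have b1 := (cell_bounds hz m1 m2).1
    have e1 : Λ * (t - 1) + Λ = Λ * t := by
      obtain ⟨s, rfl⟩ := Nat.exists_eq_add_of_le ht
      rw [Nat.add_sub_cancel_left]; ring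
    omega
  · intro c hc
    obtain ⟨m1, m2, m3⟩ := hI c hc
    rw [Finset.disjoint_left]
    intro x hx
    simp only [Finset.mem_insert, Finset.mem_singleton] at hx
    rcases hx with rfl | rfl
    · exact hU _ m1
    · exact hU _ m2
  · intro c hc
    obtain ⟨m1, m2, m3⟩ := hI c hc
    have b1 := (cell_bounds hz m1 m2).2
    omega

theorem skeleton {a : ℕ → ℕ} {W U₁ G : Finset ℕ} {K b₁ h₁ L₁ Λ x₀ M' Eg : ℕ} {z : ℕ → ℕ}
    (hK : 0 < K) (hsep : Sep a W K) (hU₁ : U₁ ⊆ W) (hA : HasAP a U₁ b₁ h₁ L₁) (hh₁ : K ≤ h₁)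
    (hG : G ⊆ Finset.range M') (hGc : M' ≤ G.card + Eg)
    (hzW : ∀ c ∈ G, z c ∈ W) (hzU : ∀ c ∈ G, z c ∉ U₁)
    (hz : ∀ c ∈ G, x₀ + Λ * c ≤ a (z c) ∧ a (z c) < x₀ + Λ * (c + 1))
    (hL₁ : 8 * Λ + 4 * K ≤ K * L₁)
    (hE : 1024 * (Eg * K + 10 * h₁) ≤ M' * K) (hM : 1024 ≤ M') :
    ∃ U₃ b h L, U₃ ⊆ U₁ ∪ G.image z ∧ 0 < h ∧ h ≤ h₁ ∧ HasAP a U₃ b h L ∧
      Λ * M' ^ 2 ≤ 1024 * (h * L) := by
  classical
  have hh₁0 : 0 < h₁ := by omega
  have hZW : G.image z ⊆ W := by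
    intro x hx
    obtain ⟨c, hc, rfl⟩ := Finset.mem_image.mp hx
    exact hzW c hc
  have hZU : Disjoint (G.image z) U₁ := by
    rw [Finset.disjoint_left]
    intro x hx
    obtain ⟨c, hc, rfl⟩ := Finset.mem_image.mp hx
    exact hzU c hc
  obtain ⟨Q, hQZ, h, b, L, hh, hhle, hQc, hAP, hspan, hst⟩ :=
    stability (X := 2 * Λ) hK hsep hU₁ hZW hZU hA hh₁0 (by omega)
  -- available cells
  set Av := G.filter (fun c => z c ∉ Q) with hAvdef
  have hAvG : Av ⊆ G := Finset.filter_subset _ _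
  have hzAv : ∀ c ∈ Av, x₀ + Λ * c ≤ a (z c) ∧ a (z c) < x₀ + Λ * (c + 1) :=
    fun c hc => hz c (hAvG hc)
  have hAvZ : ∀ c ∈ Av, z c ∈ G.image z \ Q := by
    intro c hc
    rw [hAvdef, Finset.mem_filter] at hc
    exact Finset.mem_sdiff.mpr ⟨Finset.mem_image_of_mem z hc.1, hc.2⟩
  have hAvc : G.card ≤ Av.card + Q.card := by
    have h1 : Av.card + (G.filter (fun c => ¬ z c ∉ Q)).card = G.card :=
      Finset.card_filter_add_card_filter_not _
    have h2 : (G.filter (fun c => ¬ z c ∉ Q)).card ≤ Q.card := by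
      apply Finset.card_le_card_of_injOn z
      · intro c hc
        have hc := (Finset.mem_filter.mp (Finset.mem_coe.mp hc)).2
        push Not at hc
        exact hc
      · intro c hc c' hc' heq
        exact cell_inj hz (Finset.mem_filter.mp (Finset.mem_coe.mp hc)).1
          (Finset.mem_filter.mp (Finset.mem_coe.mp hc')).1 heq
    omega
  set N₀ := Eg + Q.card with hN₀
  set E := h / K with hEdef
  have hEK : E * K ≤ h₁ := (Nat.div_mul_le_self h K).trans hhle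
  have hnumK : 1024 * (N₀ + 2 * E) ≤ M' := by
    have : 1024 * (N₀ + 2 * E) * K ≤ M' * K := by
      refine le_trans ?_ hE
      have e : 1024 * (N₀ + 2 * E) * K = 1024 * (Eg * K + (Q.card * K + 2 * (E * K))) := by
        rw [hN₀]; ring
      rw [e]
      omega
    exact Nat.le_of_mul_le_mul_right this hK
  have hAvM : Av ⊆ Finset.range M' := hAvG.trans hG
  have hmissing : ((Finset.range M') \ Av).card ≤ N₀ := by
    rw [Finset.card_sdiff_of_subset hAvM, Finset.card_range]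
    omega
  have hnear := near_const hK hzAv hAvZ hst hAvM (N₀ := N₀) (by omega) (by omega)
  have hbad : ∀ t, 0 < t → 8 * t ≤ M' → (Bad a z Av h t).card ≤ 2 * E :=
    fun t ht h8 => bad_total (hnear t ht h8)
  -- count of usable pairs
  have hcount : ∀ t lo hi, 0 < t → 8 * t ≤ M' → hi ≤ M' →
      hi ≤ lo + 2 * ((Finset.Ico lo (hi - t)).filter (fun c => (c / t) % 2 = 0 ∧ c ∈ Av ∧
        c + t ∈ Av ∧ c ∉ Bad a z Av h t)).card + 4 * N₀ + 4 * E + 2 * t := by
    intro t lo hi ht h8 hhi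
    have h1 := class_count ht 0 lo (hi - t) (by norm_num)
    set C := (Finset.Ico lo (hi - t)).filter (fun c => (c / t) % 2 = 0) with hC
    set D := (Finset.Ico lo (hi - t)).filter (fun c => (c / t) % 2 = 0 ∧ c ∈ Av ∧
        c + t ∈ Av ∧ c ∉ Bad a z Av h t) with hD
    have hsub : C ⊆ D ∪ (((Finset.range M') \ Av) ∪
        ((((Finset.range M') \ Av).image (fun c => c - t)) ∪ (Bad a z Av h t))) := by
      intro c hc
      rw [hC, Finset.mem_filter, Finset.mem_Ico] at hc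
      simp only [Finset.mem_union, Finset.mem_image, Finset.mem_sdiff, Finset.mem_range]
      by_cases h1 : c ∈ Av
      · by_cases h2 : c + t ∈ Av
        · by_cases h3 : c ∈ Bad a z Av h t
          · tauto
          · left
            rw [hD, Finset.mem_filter, Finset.mem_Ico]
            exact ⟨hc.1, hc.2, h1, h2, h3⟩
        · right; right; left
          exact ⟨c + t, ⟨by omega, h2⟩, by omega⟩
      · right; left; exact ⟨by omega, h1⟩
    have e1 := Finset.card_le_card hsub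
    have e2 := Finset.card_union_le D (((Finset.range M') \ Av) ∪
        ((((Finset.range M') \ Av).image (fun c => c - t)) ∪ (Bad a z Av h t)))
    have e3 := Finset.card_union_le ((Finset.range M') \ Av)
        ((((Finset.range M') \ Av).image (fun c => c - t)) ∪ (Bad a z Av h t))
    have e4 := Finset.card_union_le (((Finset.range M') \ Av).image (fun c => c - t))
        (Bad a z Av h t)
    have f1 := Finset.card_image_le (s := (Finset.range M') \ Av) (f := fun c => c - t)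
    have f2 := hbad t ht h8
    omega
  -- first batch
  set I₁ := (Finset.Ico 0 (M' / 2 - 2)).filter (fun c => (c / 2) % 2 = 0 ∧ c ∈ Av ∧
        c + 2 ∈ Av ∧ c ∉ Bad a z Av h 2) with hI₁
  have hI₁c : M' ≤ 8 * I₁.card := by
    have := hcount 2 0 (M' / 2) (by norm_num) (by omega) (by omega)
    rw [← hI₁] at this
    omega
  have hI₁m : ∀ c ∈ I₁, c < M' / 2 - 2 ∧ (c / 2) % 2 = 0 ∧ c ∈ Av ∧
        c + 2 ∈ Av ∧ c ∉ Bad a z Av h 2 := by
    intro c hc
    rw [hI₁, Finset.mem_filter, Finset.mem_Ico] at hc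
    exact ⟨hc.1.2, hc.2⟩
  have hUav : ∀ c ∈ Av, z c ∉ U₁ ∪ Q := by
    intro c hc
    rw [Finset.notMem_union]
    rw [hAvdef, Finset.mem_filter] at hc
    exact ⟨hzU c hc.1, hc.2⟩
  have hfit1 : 3 * Λ ≤ h * L := by
    have e1 : h₁ * (8 * Λ + 4 * K) ≤ h₁ * (K * L₁) := Nat.mul_le_mul_left _ hL₁
    have e2 : K * (3 * Λ) ≤ K * (h * L) := by
      have e3 : K * (h₁ * L₁) = h₁ * (K * L₁) := by ring
      rw [e3] at hspan
      have e4 : h₁ * (8 * Λ + 4 * K) = 8 * (h₁ * Λ) + 4 * (h₁ * K) := by ring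
      have e5 : (2 * (2 * Λ) + K) * h₁ = 4 * (h₁ * Λ) + h₁ * K := by ring
      have e6 : K * (3 * Λ) = 3 * (K * Λ) := by ring
      have e7 : K * Λ ≤ h₁ * Λ := Nat.mul_le_mul_right _ hh₁
      rw [e4] at e1
      rw [e5] at hspan
      rw [e6]
      omega
    exact Nat.le_of_mul_le_mul_left e2 hK
  obtain ⟨b₂, L₂, hAP₂, hL₂⟩ := pairs_batch (Av := Av) hzAv hh hAP hUav (t := 2) (π := 0)
    (by norm_num) (I := I₁) (fun c hc => ⟨(hI₁m c hc).2.2.1, (hI₁m c hc).2.2.2.1, (hI₁m c hc).2.1⟩)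
    (fun c hc => (hI₁m c hc).2.2.2.2) (by
      have : h * (L + 1) = h * L + h := by ring
      omega)
  set U₂ := U₁ ∪ Q ∪ I₁.biUnion (fun c => {z c, z (c + 2)}) with hU₂
  have hspan₂ : Λ * M' ≤ 8 * (h * L₂) := by
    have e1 : I₁.card * (Λ * (2 - 1)) = Λ * I₁.card := by
      simp [mul_comm]
    have e2 : Λ * M' ≤ Λ * (8 * I₁.card) := Nat.mul_le_mul_left _ hI₁c
    have e3 : Λ * (8 * I₁.card) = 8 * (Λ * I₁.card) := by ring
    omega
  -- second batch
  set t := M' / 32 with ht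
  set I₂ := (Finset.Ico (M' / 2) (M' - t)).filter (fun c => (c / t) % 2 = 0 ∧ c ∈ Av ∧
        c + t ∈ Av ∧ c ∉ Bad a z Av h t) with hI₂
  have hI₂c : M' ≤ 8 * I₂.card := by
    have := hcount t (M' / 2) M' (by omega) (by omega) le_rfl
    rw [← hI₂] at this
    omega
  have hI₂m : ∀ c ∈ I₂, M' / 2 ≤ c ∧ (c / t) % 2 = 0 ∧ c ∈ Av ∧
        c + t ∈ Av ∧ c ∉ Bad a z Av h t := by
    intro c hc
    rw [hI₂, Finset.mem_filter, Finset.mem_Ico] at hc
    exact ⟨hc.1.1, hc.2⟩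
  set Av₂ := Av.filter (fun c => M' / 2 ≤ c) with hAv₂
  have hAv₂Av : Av₂ ⊆ Av := Finset.filter_subset _ _
  have hUav₂ : ∀ c ∈ Av₂, z c ∉ U₂ := by
    intro c hc
    rw [hAv₂, Finset.mem_filter] at hc
    rw [hU₂, Finset.notMem_union]
    refine ⟨hUav c hc.1, ?_⟩
    intro hmem
    rw [Finset.mem_biUnion] at hmem
    obtain ⟨c', hc', hx⟩ := hmem
    obtain ⟨m0, m1, m2, m3, m4⟩ := hI₁m c' hc'
    simp only [Finset.mem_insert, Finset.mem_singleton] at hx
    rcases hx with hx | hx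
    · have := cell_inj hzAv hc.1 m2 hx
      omega
    · have := cell_inj hzAv hc.1 m3 hx
      omega
  obtain ⟨b₃, L₃, hAP₃, hL₃⟩ := pairs_batch (Av := Av₂) (fun c hc => hzAv c (hAv₂Av hc)) hh hAP₂
    hUav₂ (t := t) (π := 0) (by omega) (I := I₂)
    (fun c hc => ⟨by
        rw [hAv₂, Finset.mem_filter]; exact ⟨(hI₂m c hc).2.2.1, (hI₂m c hc).1⟩, by
        rw [hAv₂, Finset.mem_filter]
        exact ⟨(hI₂m c hc).2.2.2.1, by have := (hI₂m c hc).1; omega⟩, (hI₂m c hc).2.1⟩)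
    (fun c hc => by
      intro hcon
      apply (hI₂m c hc).2.2.2.2
      rw [mem_Bad] at hcon ⊢
      exact ⟨hAv₂Av hcon.1, hAv₂Av hcon.2.1, hcon.2.2⟩)
    (by
      have e1 : Λ * (t + 1) * 8 ≤ Λ * M' := by
        rw [mul_assoc]
        exact Nat.mul_le_mul_left _ (by omega)
      have e2 : h * (L₂ + 1) = h * L₂ + h := by ring
      omega)
  refine ⟨_, b₃, h, L₃, ?_, hh, hhle, hAP₃, ?_⟩
  · rw [hU₂]
    apply Finset.union_subset
    · apply Finset.union_subset
      · exact Finset.union_subset_union_right hQZ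
      · rw [Finset.biUnion_subset]
        intro c hc
        obtain ⟨m0, m1, m2, m3, m4⟩ := hI₁m c hc
        intro x hx
        simp only [Finset.mem_insert, Finset.mem_singleton] at hx
        rw [Finset.mem_union]
        right
        rcases hx with rfl | rfl
        · exact Finset.mem_image_of_mem z (hAvG m2)
        · exact Finset.mem_image_of_mem z (hAvG m3)
    · rw [Finset.biUnion_subset]
      intro c hc
      obtain ⟨m0, m1, m2, m3, m4⟩ := hI₂m c hc
      intro x hx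
      simp only [Finset.mem_insert, Finset.mem_singleton] at hx
      rw [Finset.mem_union]
      right
      rcases hx with rfl | rfl
      · exact Finset.mem_image_of_mem z (hAvG m2)
      · exact Finset.mem_image_of_mem z (hAvG m3)
  · have e1 : M' ≤ 64 * (t - 1) := by omega
    calc Λ * M' ^ 2 = Λ * (M' * M') := by ring
      _ ≤ Λ * ((8 * I₂.card) * (64 * (t - 1))) := by gcongr
      _ = 512 * (I₂.card * (Λ * (t - 1))) := by ring
      _ ≤ 1024 * (h * L₃) := by omega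

end Pool.Agent.Helper840.E48
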