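import Pool.Agent.Helper840.E48Misc
import Pool.Agent.Helper840.E48Span

set_option autoImplicit false

namespace Pool.Agent.Helper840.E48

open Finset

/-- the two gap positions and the skeleton position in a group, given the reserved position -/
def g1 (p : Fin 4) : ℕ := if p = 0 then 1 else 0
def g2 (p : Fin 4) : ℕ := if p = 0 ∨ p = 1 then 2 else 1
def sk (p : Fin 4) : ℕ := if p = 3 then 2 else 3

theorem roles (p : Fin 4) : g1 p < g2 p ∧ g2 p < 4 ∧ sk p < 4 ∧ sk p ≠ g1 p ∧ sk p ≠ g2 p ∧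
    (p : ℕ) ≠ g1 p ∧ (p : ℕ) ≠ g2 p ∧ (p : ℕ) ≠ sk p ∧ (p : ℕ) < 4 := by
  revert p; decide

theorem log_cond : ∀ ℓ, 85 ≤ ℓ → 6 * 2 ^ 64 * (ℓ + 1) * ℓ ≤ 2 ^ ℓ := by
  intro ℓ hℓ
  induction ℓ, hℓ using Nat.le_induction with
  | base => norm_num
  | succ ℓ hℓ ih =>
    have h1 : (ℓ + 2) * (ℓ + 1) ≤ 2 * ((ℓ + 1) * ℓ) := by nlinarith
    calc 6 * 2 ^ 64 * (ℓ + 1 + 1) * (ℓ + 1) = 6 * 2 ^ 64 * ((ℓ + 2) * (ℓ + 1)) := by ring
      _ ≤ 6 * 2 ^ 64 * (2 * ((ℓ + 1) * ℓ)) := Nat.mul_le_mul_left _ h1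
      _ = 2 * (6 * 2 ^ 64 * (ℓ + 1) * ℓ) := by ring
      _ ≤ 2 * 2 ^ ℓ := Nat.mul_le_mul_left _ ih
      _ = 2 ^ (ℓ + 1) := by ring

/-- final numerical case analysis -/
theorem numeric {R m A q S k₀ : ℕ} (h1 : R * m ≤ A) (h2 : A < (R + 1) * m) (h3 : 2 ^ 100 ≤ R)
    (h4 : R ≤ m) (h5 : m = 2 ^ 52 * k₀) (h6 : q ≤ 64 * (R + 1)) (h7 : R * A ≤ 2 ^ 19 * S)
    (h8 : q * m ^ 2 ≤ 256 * S) (h9 : q ≤ 171 * k₀) :
    8 * q * A ≤ S ∧ 128 * q ^ 2 ≤ A ∧ 128 * q ^ 2 * m ≤ S := by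
  have hR1 : 1 ≤ R := le_trans (by norm_num) h3
  have hq : q ≤ 128 * R := by omega
  have hA2 : A ≤ 2 * (R * m) := by
    have : (R + 1) * m ≤ 2 * (R * m) := by
      have : 1 * m ≤ R * m := Nat.mul_le_mul_right _ hR1
      have e : (R + 1) * m = R * m + m := by ring
      omega
    omega
  rcases Nat.le_total (2 ^ 22 * R) m with hc | hc
  · refine ⟨?_, ?_, ?_⟩
    · have e1 : 256 * (8 * q * A) ≤ 256 * S := by
        refine le_trans ?_ h8
        calc 256 * (8 * q * A) ≤ 256 * (8 * q * (2 * (R * m))) := by gcongr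
          _ = q * (2 ^ 12 * R) * m := by ring
          _ ≤ q * m * m := by
              gcongr
              exact le_trans (Nat.mul_le_mul_right _ (by norm_num)) hc
          _ = q * m ^ 2 := by ring
      omega
    · calc 128 * q ^ 2 ≤ 128 * (128 * R) ^ 2 := by gcongr
        _ = R * (2 ^ 21 * R) := by ring
        _ ≤ R * m := by
            gcongr
            exact le_trans (Nat.mul_le_mul_right _ (by norm_num)) hc
        _ ≤ A := h1
    · have e1 : 256 * (128 * q ^ 2 * m) ≤ 256 * S := by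
        refine le_trans ?_ h8
        calc 256 * (128 * q ^ 2 * m) = q * (2 ^ 15 * q) * m := by ring
          _ ≤ q * m * m := by
              gcongr
              calc 2 ^ 15 * q ≤ 2 ^ 15 * (128 * R) := by gcongr
                _ = 2 ^ 22 * R := by ring
                _ ≤ m := hc
          _ = q * m ^ 2 := by ring
      omega
  · have hqR : 2 ^ 22 * q ≤ R := by
      have e1 : 2 ^ 22 * (2 ^ 22 * q) ≤ 2 ^ 22 * R := by
        refine le_trans ?_ hc
        rw [h5]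
        calc 2 ^ 22 * (2 ^ 22 * q) = 2 ^ 44 * q := by ring
          _ ≤ 2 ^ 44 * (171 * k₀) := by gcongr
          _ = (2 ^ 44 * 171) * k₀ := by ring
          _ ≤ 2 ^ 52 * k₀ := Nat.mul_le_mul_right _ (by norm_num)
      exact Nat.le_of_mul_le_mul_left e1 (by norm_num)
    refine ⟨?_, ?_, ?_⟩
    · have e1 : 2 ^ 19 * (8 * q * A) ≤ 2 ^ 19 * S := by
        calc 2 ^ 19 * (8 * q * A) = (2 ^ 22 * q) * A := by ring
          _ ≤ R * A := by gcongr
          _ ≤ _ := h7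
      exact Nat.le_of_mul_le_mul_left e1 (by norm_num)
    · calc 128 * q ^ 2 ≤ (2 ^ 22 * q) * (2 ^ 22 * q) := by
            have : (2 ^ 22 * q) * (2 ^ 22 * q) = 2 ^ 44 * q ^ 2 := by ring
            rw [this]
            exact Nat.mul_le_mul_right _ (by norm_num)
        _ ≤ R * R := Nat.mul_le_mul hqR hqR
        _ ≤ R * m := by gcongr
        _ ≤ A := h1
    · have e1 : 2 ^ 19 * (128 * q ^ 2 * m) ≤ 2 ^ 19 * S := by
        calc 2 ^ 19 * (128 * q ^ 2 * m) = 2 ^ 26 * q ^ 2 * m := by ring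
          _ ≤ 2 ^ 44 * q ^ 2 * m := by gcongr <;> norm_num
          _ = (2 ^ 22 * q) * (2 ^ 22 * q) * m := by ring
          _ ≤ R * R * m := by gcongr
          _ = R * (R * m) := by ring
          _ ≤ R * A := by gcongr
          _ ≤ _ := h7
      exact Nat.le_of_mul_le_mul_left e1 (by norm_num)

def iu (γ : ℕ → Fin 4) (k : ℕ) : ℕ := 4 * k + g1 (γ k)
def iv (γ : ℕ → Fin 4) (k : ℕ) : ℕ := 4 * k + g2 (γ k)
def iw (γ : ℕ → Fin 4) (k : ℕ) : ℕ := 4 * k + sk (γ k)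
def ic (γ : ℕ → Fin 4) (k : ℕ) : ℕ := 4 * k + (γ k : ℕ)

theorem idx (γ : ℕ → Fin 4) (k : ℕ) :
    iu γ k / 4 = k ∧ iv γ k / 4 = k ∧ iw γ k / 4 = k ∧ ic γ k / 4 = k ∧ iu γ k < iv γ k ∧
    iw γ k ≠ iu γ k ∧ iw γ k ≠ iv γ k ∧ ic γ k ≠ iu γ k ∧ ic γ k ≠ iv γ k ∧ ic γ k ≠ iw γ k := by
  have := roles (γ k)
  unfold iu iv iw ic
  omega

theorem idx_mem (γ : ℕ → Fin 4) (k : ℕ) :
    (4 * k ≤ iu γ k ∧ iu γ k ≤ 4 * k + 3) ∧ (4 * k ≤ iv γ k ∧ iv γ k ≤ 4 * k + 3) ∧
    (4 * k ≤ iw γ k ∧ iw γ k ≤ 4 * k + 3) ∧ (4 * k ≤ ic γ k ∧ ic γ k ≤ 4 * k + 3) := by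
  have := roles (γ k)
  unfold iu iv iw ic
  omega

theorem good_dvd {a : ℕ → ℕ} {k₀ k₁ q k i : ℕ} (hk : k ∈ Good a k₀ k₁ q) (h1 : 4 * k ≤ i)
    (h2 : i ≤ 4 * k + 3) : q ∣ a i := by
  rw [Good, Finset.mem_filter] at hk
  have := hk.2 ⟨i - 4 * k, by omega⟩
  simp only at this
  rwa [Nat.add_sub_cancel' h1] at this

theorem gap_fam {a : ℕ → ℕ} (hmono : StrictMono a) (γ : ℕ → Fin 4) (I : Finset ℕ) :
    IsFam a I (fun k => {iu γ k, iv γ k}) (fun k => a (iu γ k))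
      (fun k => a (iv γ k) - a (iu γ k)) := by
  refine ⟨fun k _ => SS_single (by simp), ?_, ?_⟩
  · intro k _
    have h1 := (idx γ k).2.2.2.2.1
    have h2 : a (iu γ k) < a (iv γ k) := hmono h1
    have h3 : a (iu γ k) + (a (iv γ k) - a (iu γ k)) = a (iv γ k) := by omega
    rw [h3]
    exact SS_single (by simp)
  · intro k _ k' _ hne
    simp only [Function.onFun]
    rw [Finset.disjoint_left]
    intro x hx hx'
    simp only [Finset.mem_insert, Finset.mem_singleton] at hx hx'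
    have h1 := idx γ k
    have h2 := idx γ k'
    apply hne
    rcases hx with rfl | rfl
    · rcases hx' with h | h
      · rw [← h1.1, h, h2.1]
      · rw [← h1.1, h, h2.2.1]
    · rcases hx' with h | h
      · rw [← h1.2.1, h, h2.1]
      · rw [← h1.2.1, h, h2.2.1]

theorem gap_count {a : ℕ → ℕ} (hmono : StrictMono a) (γ : ℕ → Fin 4) {k₀ k₁ : ℕ} (hk : k₀ ≤ k₁)
    {G : Finset ℕ} (hG : G ⊆ Finset.Ico k₀ k₁) (X : ℕ) :
    (G.filter (fun k => ¬ a (iv γ k) - a (iu γ k) ≤ X)).card * X ≤ a (4 * k₁) := by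
  have h1 : (G.filter (fun k => ¬ a (iv γ k) - a (iu γ k) ≤ X)).card * X ≤
      ∑ k ∈ Finset.Ico k₀ k₁, (a (4 * k + 4) - a (4 * k)) := by
    rw [← smul_eq_mul, ← Finset.sum_const]
    refine (Finset.sum_le_sum ?_).trans
      (Finset.sum_le_sum_of_subset ((Finset.filter_subset _ _).trans hG))
    intro k hk
    rw [Finset.mem_filter] at hk
    have h2 := hk.2
    have h3 := idx_mem γ k
    have h4 : a (iv γ k) ≤ a (4 * k + 4) := hmono.monotone (by omega)
    have h5 : a (4 * k) ≤ a (iu γ k) := hmono.monotone (by omega)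
    omega
  obtain ⟨e, rfl⟩ := Nat.exists_eq_add_of_le hk
  rw [telescope hmono] at h1
  omega

theorem good_range {a : ℕ → ℕ} {k₀ k₁ q x y : ℕ} (hx : k₀ ≤ x) (hy : y ≤ k₁) :
    y ≤ x + ((Good a k₀ k₁ q).filter (fun k => x ≤ k ∧ k < y)).card + (BadG a k₀ k₁ q).card := by
  have h1 : Finset.Ico x y ⊆ (Good a k₀ k₁ q).filter (fun k => x ≤ k ∧ k < y) ∪
      BadG a k₀ k₁ q := by
    intro k hk
    rw [Finset.mem_Ico] at hk
    rw [Finset.mem_union, Finset.mem_filter, Good, BadG, Finset.mem_filter, Finset.mem_filter,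
      Finset.mem_Ico]
    by_cases h : ∀ p : Fin 4, q ∣ a (4 * k + p)
    · left; exact ⟨⟨⟨by omega, by omega⟩, h⟩, hk⟩
    · right; exact ⟨⟨by omega, by omega⟩, h⟩
  have h2 := (Finset.card_le_card h1).trans (Finset.card_union_le _ _)
  rw [Nat.card_Ico] at h2
  omega

theorem core {a : ℕ → ℕ} (hs : SSFree a) {n₀ : ℕ} (hgap : ∀ n ≥ n₀, a (n + 1) ≤ a n + (n + 1))
    {k₀ k₁ m : ℕ} (hk₀ : n₀ ≤ 4 * k₀) (hk₀' : 0 < k₀) (hk₁ : k₁ = 2 ^ 50 * k₀) (hm : m = 4 * k₁)
    (hsep : Sep a (Finset.Ico (4 * k₀) m) (2 ^ 64)) (hdouble : 2 * a (4 * k₀) ≤ a m)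
    (hsq : ∀ n ≥ 4 * k₀, a n ≤ n ^ 2) (hR : 2 ^ 100 * m ≤ a m) :
    ∃ U ⊆ Finset.Ico (4 * k₀) m, ∃ b q L, 0 < q ∧ q ∣ b ∧ HasAP a U b q L ∧
      8 * q * a m ≤ q * L ∧ 128 * q ^ 2 ≤ a m ∧ 128 * q ^ 2 * m ≤ q * L := by
  classical
  have hmono := hs.mono
  have hm0 : 0 < m := by omega
  set A := a m with hA
  set R := A / m with hRdef
  have hR1 : R * m ≤ A := Nat.div_mul_le_self A m
  have hR2 : A < (R + 1) * m := by
    have := Nat.lt_div_mul_add (a := A) hm0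
    rw [← hRdef] at this
    have e : (R + 1) * m = R * m + m := by ring
    omega
  have hR3 : 2 ^ 100 ≤ R := by
    rw [hRdef, Nat.le_div_iff_mul_le hm0]; exact hR
  have hR4 : R ≤ m := by
    have h1 : A ≤ m ^ 2 := hsq m (by omega)
    rw [hRdef]
    calc A / m ≤ m ^ 2 / m := Nat.div_le_div_right h1
      _ = m := by rw [pow_two, Nat.mul_div_cancel _ hm0]
  -- selection
  set X₀ := 64 * (R + 1) with hX₀
  have hlog : 6 * 2 ^ 64 * (Nat.log 2 X₀ + 1) * Nat.log 2 X₀ ≤ X₀ := by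
    have h1 : 85 ≤ Nat.log 2 X₀ := by
      apply Nat.le_log_of_pow_le (by norm_num)
      omega
    exact (log_cond _ h1).trans (Nat.pow_log_le_self 2 (by omega))
  obtain ⟨q, hq0, hqX, hbadK, γ, hγ⟩ := select a k₀ k₁ (2 ^ 64) X₀ (by norm_num) (by omega) hlog
  set 𝒢 := Good a k₀ k₁ q with h𝒢
  have h𝒢sub : 𝒢 ⊆ Finset.Ico k₀ k₁ := Finset.filter_subset _ _
  have hgb := good_add_bad a k₀ k₁ q
  rw [← h𝒢] at hgb
  set e := (BadG a k₀ k₁ q).card with he
  have hek : e < k₀ := by omega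
  have hk01 : k₀ ≤ k₁ := by omega
  -- gap shifts
  set I₀ := 𝒢.filter (fun k => a (iv γ k) - a (iu γ k) ≤ X₀) with hI₀
  have hI₀𝒢 : I₀ ⊆ 𝒢 := Finset.filter_subset _ _
  have hI₀c : I₀.card + (𝒢.filter (fun k => ¬ a (iv γ k) - a (iu γ k) ≤ X₀)).card = 𝒢.card :=
    Finset.card_filter_add_card_filter_not _
  have hlarge := gap_count hmono γ hk01 h𝒢sub X₀
  set cnt := (𝒢.filter (fun k => ¬ a (iv γ k) - a (iu γ k) ≤ X₀)).card with hcnt
  have hcnt16 : 16 * cnt ≤ k₁ := by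
    by_contra hcon
    push Not at hcon
    have e1 : m * (R + 1) ≤ (64 * cnt) * (R + 1) := Nat.mul_le_mul_right _ (by omega)
    have e2 : (64 * cnt) * (R + 1) = cnt * X₀ := by rw [hX₀]; ring
    have e3 : (R + 1) * m = m * (R + 1) := by ring
    rw [← hm] at hlarge
    omega
  have hWmem : ∀ k ∈ 𝒢, ∀ i, 4 * k ≤ i → i ≤ 4 * k + 3 → i ∈ Finset.Ico (4 * k₀) m := by
    intro k hk i h1 h2
    have := Finset.mem_Ico.mp (h𝒢sub hk)
    rw [Finset.mem_Ico]
    omega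
  obtain ⟨U₁, b₁, h₁, L₁, hU₁, hh₁0, hh₁X, hAP₁, hL₁⟩ := base_lemma (by norm_num) hsep X₀ ℕ I₀ _ _ _
    (gap_fam hmono γ I₀) (by
      intro k hk
      have h1 := idx_mem γ k
      intro x hx
      simp only [Finset.mem_insert, Finset.mem_singleton] at hx
      rcases hx with rfl | rfl
      · exact hWmem k (hI₀𝒢 hk) _ h1.1.1 h1.1.2
      · exact hWmem k (hI₀𝒢 hk) _ h1.2.1.1 h1.2.1.2) (by
      intro k hk
      rw [hI₀, Finset.mem_filter] at hk
      refine ⟨?_, hk.2⟩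
      have : a (iu γ k) < a (iv γ k) := hmono (idx γ k).2.2.2.2.1
      omega) (by omega) (by omega)
  have hU₁' : ∀ i ∈ U₁, ∃ k ∈ 𝒢, i = iu γ k ∨ i = iv γ k := by
    intro i hi
    have := hU₁ hi
    rw [Finset.mem_biUnion] at this
    obtain ⟨k, hk, hik⟩ := this
    simp only [Finset.mem_insert, Finset.mem_singleton] at hik
    exact ⟨k, hI₀𝒢 hk, hik⟩
  have hU₁W : U₁ ⊆ Finset.Ico (4 * k₀) m := by
    intro i hi
    obtain ⟨k, hk, h⟩ := hU₁' i hi
    have h1 := idx_mem γ k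
    rcases h with rfl | rfl
    · exact hWmem k hk _ h1.1.1 h1.1.2
    · exact hWmem k hk _ h1.2.1.1 h1.2.1.2
  have hL₁1 : 1 ≤ L₁ := by omega
  have hKh₁ : 2 ^ 64 ≤ h₁ := by
    have m0 := SS_mono hU₁W (hAP₁ 0 (by omega))
    have m1 := SS_mono hU₁W (hAP₁ 1 hL₁1)
    have := hsep _ m0 _ m1 (by omega)
    omega
  -- cells
  set x₀ := a (4 * k₀) with hx₀
  set M' := (A - x₀) / (8 * m) with hM'
  have h8m : 0 < 8 * m := by omega
  have hM'1 : 8 * m * M' ≤ A - x₀ := Nat.mul_div_le _ _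
  have hM'2 : A - x₀ < 8 * m * (M' + 1) := Nat.lt_mul_div_succ _ h8m
  have hRM : R ≤ 16 * M' + 16 := by
    have e1 : m * R ≤ m * (16 * M' + 16) := by
      have e2 : m * (16 * M' + 16) = 2 * (8 * m * (M' + 1)) := by ring
      have e3 : m * R = R * m := mul_comm _ _
      omega
    exact Nat.le_of_mul_le_mul_left e1 hm0
  have hRM32 : R ≤ 32 * M' := by omega
  have hcell : ∀ c, ∃ k, c < M' → (k₀ ≤ k ∧ k < k₁ ∧ x₀ + 8 * m * c ≤ a (4 * k) ∧
      a (4 * k + 3) < x₀ + 8 * m * (c + 1)) := by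
    intro c
    by_cases hc : c < M'
    · have e1 : 8 * m * (c + 1) ≤ 8 * m * M' := Nat.mul_le_mul_left _ hc
      have e2 : 8 * m * (c + 1) = 8 * m * c + 8 * m := by ring
      obtain ⟨k, hk1, hk2, hk3, hk4⟩ := cell_group hmono hgap (k₁ := k₁) hk₀ (by omega)
        (y := x₀ + 8 * m * c) (by omega) (by
          rw [← hm]
          change _ ≤ A
          omega)
      refine ⟨k, fun _ => ⟨hk1, hk2, hk3, ?_⟩⟩
      rw [← hm] at hk4
      omega
    · exact ⟨0, fun h => absurd h hc⟩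
  choose κ hκ using hcell
  have hκinj : ∀ c < M', ∀ c' < M', c < c' → κ c ≠ κ c' := by
    intro c hc c' hc' hlt heq
    have h1 := (hκ c hc).2.2.2
    have h2 := (hκ c' hc').2.2.1
    have h3 : 8 * m * (c + 1) ≤ 8 * m * c' := Nat.mul_le_mul_left _ hlt
    rw [heq] at h1
    have h4 : a (4 * κ c') ≤ a (4 * κ c' + 3) := hmono.monotone (by omega)
    omega
  set G := (Finset.range M').filter (fun c => κ c ∈ 𝒢) with hG
  have hGsub : G ⊆ Finset.range M' := Finset.filter_subset _ _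
  have hGm : ∀ c ∈ G, c < M' ∧ κ c ∈ 𝒢 := by
    intro c hc
    rw [hG, Finset.mem_filter, Finset.mem_range] at hc
    exact hc
  have hGc : M' ≤ G.card + e := by
    have h1 : G.card + ((Finset.range M').filter (fun c => ¬ κ c ∈ 𝒢)).card = M' := by
      rw [hG, Finset.card_filter_add_card_filter_not, Finset.card_range]
    have h2 : ((Finset.range M').filter (fun c => ¬ κ c ∈ 𝒢)).card ≤ e := by
      apply Finset.card_le_card_of_injOn κ
      · intro c hc
        have hc := Finset.mem_filter.mp (Finset.mem_coe.mp hc)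
        rw [Finset.mem_range] at hc
        rw [Finset.mem_coe, BadG, Finset.mem_filter]
        have h3 := hκ c hc.1
        refine ⟨Finset.mem_Ico.mpr ⟨h3.1, h3.2.1⟩, ?_⟩
        intro h4
        apply hc.2
        rw [h𝒢, Good, Finset.mem_filter]
        exact ⟨Finset.mem_Ico.mpr ⟨h3.1, h3.2.1⟩, h4⟩
      · intro c hc c' hc' heq
        have hc := Finset.mem_filter.mp (Finset.mem_coe.mp hc)
        have hc' := Finset.mem_filter.mp (Finset.mem_coe.mp hc')
        rw [Finset.mem_range] at hc hc'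
        rcases lt_trichotomy c c' with h | h | h
        · exact absurd heq (hκinj c hc.1 c' hc'.1 h)
        · exact h
        · exact absurd heq.symm (hκinj c' hc'.1 c hc.1 h)
    omega
  set z : ℕ → ℕ := fun c => iw γ (κ c) with hz
  have hzcell : ∀ c ∈ G, x₀ + 8 * m * c ≤ a (z c) ∧ a (z c) < x₀ + 8 * m * (c + 1) := by
    intro c hc
    have h1 := hκ c (hGm c hc).1
    have h2 := (idx_mem γ (κ c)).2.2.1
    have h3 : a (4 * κ c) ≤ a (iw γ (κ c)) := hmono.monotone h2.1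
    have h4 : a (iw γ (κ c)) ≤ a (4 * κ c + 3) := hmono.monotone h2.2
    simp only [hz]
    omega
  obtain ⟨U₃, b₃, h, L₃, hU₃, hh0, hhh₁, hAP₃, hspan₃⟩ := skeleton (W := Finset.Ico (4 * k₀) m)
    (by norm_num) hsep hU₁W hAP₁ hKh₁ hGsub hGc
    (by
      intro c hc
      have h2 := (idx_mem γ (κ c)).2.2.1
      exact hWmem _ (hGm c hc).2 _ h2.1 h2.2)
    (by
      intro c hc hmem
      obtain ⟨k, hk, h⟩ := hU₁' _ hmem
      have h1 := idx γ k
      have h2 := idx γ (κ c)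
      have h3 : κ c = k := by
        rcases h with h | h
        · rw [← h2.2.2.1, ← h1.1]; simp only [hz] at h; rw [h]
        · rw [← h2.2.2.1, ← h1.2.1]; simp only [hz] at h; rw [h]
      simp only [hz] at h
      rw [h3] at h
      rcases h with h | h
      · exact h1.2.2.2.2.2.1 h
      · exact h1.2.2.2.2.2.2.1 h)
    hzcell (by omega) (by omega) (by omega)
  have hU₃' : ∀ i ∈ U₃, ∃ k ∈ 𝒢, i = iu γ k ∨ i = iv γ k ∨ i = iw γ k := by
    intro i hi
    rcases Finset.mem_union.mp (hU₃ hi) with h | h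
    · obtain ⟨k, hk, h⟩ := hU₁' i h
      exact ⟨k, hk, by tauto⟩
    · obtain ⟨c, hc, rfl⟩ := Finset.mem_image.mp h
      exact ⟨κ c, (hGm c hc).2, Or.inr (Or.inr rfl)⟩
  have hU₃W : U₃ ⊆ Finset.Ico (4 * k₀) m := by
    intro i hi
    obtain ⟨k, hk, h⟩ := hU₃' i hi
    have h1 := idx_mem γ k
    rcases h with rfl | rfl | rfl
    · exact hWmem k hk _ h1.1.1 h1.1.2
    · exact hWmem k hk _ h1.2.1.1 h1.2.1.2
    · exact hWmem k hk _ h1.2.2.1.1 h1.2.2.1.2
  -- span of the skeleton AP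
  have hR0 : 0 < R := by omega
  have hspanA : R * A ≤ 2 ^ 18 * (h * L₃) := by
    have e1 : R * A ≤ R * ((R + 1) * m) := Nat.mul_le_mul_left _ hR2.le
    have e2 : R * ((R + 1) * m) ≤ 2 * (R * R * m) := by
      have : R * ((R + 1) * m) = R * R * m + R * m := by ring
      have : R * m ≤ R * R * m := by
        rw [mul_assoc]
        exact Nat.le_mul_of_pos_left _ hR0
      omega
    have e3 : R * R * m ≤ (32 * M') * (32 * M') * m := by gcongr
    have e4 : (32 * M') * (32 * M') * m = 128 * (8 * m * M' ^ 2) := by ring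
    omega
  have hAR : R ≤ A := by
    have : R * 1 ≤ R * m := Nat.mul_le_mul_left _ hm0
    omega
  set t := h / 2 ^ 64 with ht
  have ht1 : 2 ^ 57 * t ≤ R := by
    have h1 : t * 2 ^ 64 ≤ h := Nat.div_mul_le_self _ _
    omega
  have hAt : 2 ^ 39 * (A * t) ≤ h * L₃ := by
    have e1 : A * (2 ^ 57 * t) ≤ A * R := Nat.mul_le_mul_left _ ht1
    have e2 : A * (2 ^ 57 * t) = 2 ^ 18 * (2 ^ 39 * (A * t)) := by ring
    have e3 : A * R = R * A := mul_comm _ _
    omega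
  have h4h : 4 * h ≤ h * L₃ := by
    have e1 : 2 ^ 100 * R ≤ R * R := Nat.mul_le_mul_right _ hR3
    have e2 : R * R ≤ R * A := Nat.mul_le_mul_left _ hAR
    omega
  -- refinement by the reserved elements
  have hfamc : IsFam a 𝒢 (fun k => {ic γ k}) (fun _ => 0) (fun k => a (ic γ k)) := by
    refine ⟨fun _ _ => SS_zero _ _, fun k _ => ?_, ?_⟩
    · rw [zero_add]; exact SS_single (by simp)
    · intro k _ k' _ hne
      simp only [Function.onFun]
      rw [Finset.disjoint_singleton_left, Finset.mem_singleton]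
      intro h
      apply hne
      rw [← (idx γ k).2.2.2.1, ← (idx γ k').2.2.2.1, h]
  have hcW : ∀ k ∈ 𝒢, ic γ k ∈ Finset.Ico (4 * k₀) m := by
    intro k hk
    have h1 := (idx_mem γ k).2.2.2
    exact hWmem k hk _ h1.1 h1.2
  have hcA : ∀ k ∈ 𝒢, a (ic γ k) ≤ A := by
    intro k hk
    have := Finset.mem_Ico.mp (hcW k hk)
    exact hmono.monotone this.2.le
  have hcU₃ : ∀ k ∈ 𝒢, ic γ k ∉ U₃ := by
    intro k hk hmem
    obtain ⟨k', hk', h⟩ := hU₃' _ hmem
    have h1 := idx γ k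
    have h2 := idx γ k'
    have h3 : k = k' := by
      rcases h with h | h | h
      · rw [← h1.2.2.2.1, h, h2.1]
      · rw [← h1.2.2.2.1, h, h2.2.1]
      · rw [← h1.2.2.2.1, h, h2.2.2.1]
    subst h3
    rcases h with h | h | h
    · exact h1.2.2.2.2.2.2.2.1 h
    · exact h1.2.2.2.2.2.2.2.2.1 h
    · exact h1.2.2.2.2.2.2.2.2.2 h
  obtain ⟨J, hJ𝒢, h', b', L', hh'0, hh'd, hJK, hAP', hspan', hJd, hexc⟩ :=
    refine_lemma (X := A) (by norm_num) hsep hU₃W hAP₃ hh0 hfamc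
      (fun k hk => by
        rw [Finset.disjoint_singleton_left]; exact hcU₃ k hk)
      (fun k hk => by
        rw [Finset.singleton_subset_iff]; exact hcW k hk)
      hcA (by
        have h39 : 2 * (A * t) ≤ h * L₃ :=
          le_trans (Nat.mul_le_mul_right _ (by norm_num)) hAt
        change A * t + 2 * h ≤ h * L₃
        clear hlarge hcnt16 hRM hRM32 hM'1 hM'2 hR1 hR2 hR3 hR4 hL₁ hGc hspan₃ hlog hbadK
        omega)
  have hh'le : h' ≤ h := Nat.le_of_dvd hh0 hh'd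
  have hJt : J.card ≤ t := by
    have := (Nat.le_div_iff_mul_le (by norm_num)).2 hJK
    omega
  have hAJ : A * J.card ≤ A * t := Nat.mul_le_mul_left _ hJt
  have hspan'' : h * L₃ ≤ 2 * (h' * L') := by omega
  have hL'1 : 1 ≤ L' := by
    by_contra hcon
    have : L' = 0 := by omega
    rw [this] at hspan''
    have : h * L₃ = 0 := by omega
    omega
  -- all elements used are divisible by `q`
  have hU'm : ∀ i ∈ U₃ ∪ J.biUnion (fun k => {ic γ k}), ∃ k ∈ 𝒢, 4 * k ≤ i ∧ i ≤ 4 * k + 3 := by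
    intro i hi
    rcases Finset.mem_union.mp hi with h | h
    · obtain ⟨k, hk, h⟩ := hU₃' i h
      have h1 := idx_mem γ k
      rcases h with rfl | rfl | rfl
      · exact ⟨k, hk, h1.1⟩
      · exact ⟨k, hk, h1.2.1⟩
      · exact ⟨k, hk, h1.2.2.1⟩
    · obtain ⟨k, hk, h⟩ := Finset.mem_biUnion.mp h
      rw [Finset.mem_singleton] at h
      subst h
      exact ⟨k, hJ𝒢 hk, (idx_mem γ k).2.2.2⟩
  have hU'q : ∀ i ∈ U₃ ∪ J.biUnion (fun k => {ic γ k}), q ∣ a i := by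
    intro i hi
    obtain ⟨k, hk, h1, h2⟩ := hU'm i hi
    exact good_dvd hk h1 h2
  have hqb : q ∣ b' := by
    have := SS_dvd hU'q (hAP' 0 (by omega))
    simpa using this
  have hqh' : q ∣ h' := by
    have h1 := SS_dvd hU'q (hAP' 1 hL'1)
    rw [one_mul] at h1
    exact (Nat.dvd_add_right hqb).1 h1
  have hh'q : h' = q := by
    by_contra hne
    have h1 := hγ h' hqh' hne hh'0 (by omega)
    have h2 : (h' / 2 ^ 64 + 1) * 2 ^ 64 ≤ h' := by
      refine le_trans (Nat.mul_le_mul_right _ ?_) hexc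
      have h3 : (Finset.filter (fun i => ¬ h' ∣ a (ic γ i)) 𝒢).card =
        (Finset.filter (fun k => ¬ h' ∣ a (4 * k + (γ k : ℕ))) 𝒢).card := rfl
      omega
    have h3 := Nat.lt_div_mul_add (a := h') (b := 2 ^ 64) (by norm_num)
    omega
  subst hh'q
  -- extend by the remaining reserved elements
  have hAle : A ≤ h' * (L' + 1) := by
    have e1 : A ≤ R * A := Nat.le_mul_of_pos_left _ hR0
    have e2 : 2 ^ 100 * A ≤ R * A := Nat.mul_le_mul_right _ hR3
    have e3 : h' * (L' + 1) = h' * L' + h' := by ring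
    rw [e3]
    clear hlarge hcnt16 hRM hRM32 hM'1 hM'2 hR1 hR2 hR3 hR4 hL₁ hGc hspan₃ hlog hbadK
    omega
  have hfamr : IsFam a (𝒢 \ J) (fun k => {ic γ k}) (fun _ => 0) (fun k => a (ic γ k)) :=
    hfamc.subset Finset.sdiff_subset
  have hAP₅ := hAP'.extend hh'0 hfamr (fun k hk => by
      have hk' := Finset.mem_sdiff.mp hk
      rw [Finset.disjoint_singleton_left, Finset.notMem_union]
      refine ⟨hcU₃ k hk'.1, ?_⟩
      intro hmem
      obtain ⟨k', hk'', h⟩ := Finset.mem_biUnion.mp hmem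
      rw [Finset.mem_singleton] at h
      have : k = k' := by
        rw [← (idx γ k).2.2.2.1, ← (idx γ k').2.2.2.1, h]
      subst this
      exact hk'.2 hk'') hJd (fun k hk => (hcA k (Finset.mem_sdiff.mp hk).1).trans hAle) _ le_rfl
  set L₅ := L' + (∑ k ∈ 𝒢 \ J, a (ic γ k)) / h' with hL₅
  have hqL₅ : h' * L₅ = h' * L' + ∑ k ∈ 𝒢 \ J, a (ic γ k) := by
    rw [hL₅, Nat.mul_add, Nat.mul_div_cancel' (Finset.dvd_sum hJd)]
  have hJk : J.card ≤ k₀ := by
    clear hlarge hcnt16 hRM hRM32 hM'1 hM'2 hR1 hR2 hL₁ hGc hspan₃ hlog hbadK hspanA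
    omega
  -- lower bound for the sum
  have hlow : ∀ k ∈ 𝒢, 2 ^ 49 * k₀ ≤ k → h' * (2 ^ 48 * k₀) ≤ a (ic γ k) := by
    intro k hk hk2
    have hkI := Finset.mem_Ico.mp (h𝒢sub hk)
    have h1 := good_range (a := a) (k₀ := k₀) (k₁ := k₁) (q := h') (x := k₀) (y := k) le_rfl hkI.2.le
    have h2 := count_multiples hmono hs.pos hh'0 (x := a (ic γ k))
      ((Good a k₀ k₁ h').filter (fun j => k₀ ≤ j ∧ j < k)) (fun j hj => by
        have := (Finset.mem_filter.mp hj).1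
        exact good_dvd this le_rfl (by omega)) (fun j hj => by
        have := (Finset.mem_filter.mp hj).2.2
        have h3 := (idx_mem γ k).2.2.2.1
        exact hmono.monotone (by omega))
    refine le_trans (Nat.mul_le_mul_left _ ?_) h2
    clear hlarge hcnt16 hRM hRM32 hM'1 hM'2 hR1 hR2 hL₁ hGc hspan₃ hlog hbadK hspanA
    omega
  have h8 : h' * m ^ 2 ≤ 256 * (h' * L₅) := by
    have h1 := good_range (a := a) (k₀ := k₀) (k₁ := k₁) (q := h') (x := 2 ^ 49 * k₀) (y := k₁)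
      (by omega) le_rfl
    set D := (Good a k₀ k₁ h').filter (fun j => 2 ^ 49 * k₀ ≤ j ∧ j < k₁) with hD
    have h2 : D.card ≤ (D \ J).card + J.card := by
      have := Finset.le_card_sdiff J D
      omega
    have h3 : 2 ^ 48 * k₀ ≤ (D \ J).card := by
      clear hlarge hcnt16 hRM hRM32 hM'1 hM'2 hR1 hR2 hL₁ hGc hspan₃ hlog hbadK hspanA
      omega
    have h4 : (D \ J).card * (h' * (2 ^ 48 * k₀)) ≤ ∑ k ∈ 𝒢 \ J, a (ic γ k) := by
      rw [← smul_eq_mul, ← Finset.sum_const]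
      have h5 : D \ J ⊆ 𝒢 \ J := by
        apply Finset.sdiff_subset_sdiff _ le_rfl
        exact Finset.filter_subset _ _
      refine (Finset.sum_le_sum ?_).trans (Finset.sum_le_sum_of_subset h5)
      intro k hk
      have hk' := Finset.mem_filter.mp (Finset.mem_sdiff.mp hk).1
      exact hlow k hk'.1 hk'.2.1
    have h5 : (2 ^ 48 * k₀) * (h' * (2 ^ 48 * k₀)) ≤ h' * L₅ := by
      rw [hqL₅]
      refine le_trans (Nat.mul_le_mul_right _ h3) (h4.trans (Nat.le_add_left _ _))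
    calc h' * m ^ 2 = 256 * ((2 ^ 48 * k₀) * (h' * (2 ^ 48 * k₀))) := by
          rw [hm, hk₁]; ring
      _ ≤ _ := Nat.mul_le_mul_left _ h5
  have h9 : h' ≤ 171 * k₀ := by
    have h1 := good_range (a := a) (k₀ := k₀) (k₁ := k₁) (q := h') (x := k₀) (y := 8 * k₀)
      le_rfl (by omega)
    have h2 := count_multiples hmono hs.pos hh'0 (x := a (4 * (8 * k₀)))
      ((Good a k₀ k₁ h').filter (fun j => k₀ ≤ j ∧ j < 8 * k₀)) (fun j hj => by
        have := (Finset.mem_filter.mp hj).1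
        exact good_dvd this le_rfl (by omega)) (fun j hj => by
        have := (Finset.mem_filter.mp hj).2.2
        exact hmono.monotone (by omega))
    have h3 := hsq (4 * (8 * k₀)) (by omega)
    have h4 : h' * (6 * k₀) ≤ 1024 * k₀ * k₀ := by
      calc h' * (6 * k₀) ≤ h' * ((Good a k₀ k₁ h').filter (fun j => k₀ ≤ j ∧ j < 8 * k₀)).card := by
            apply Nat.mul_le_mul_left
            clear hlarge hcnt16 hRM hRM32 hM'1 hM'2 hR1 hR2 hL₁ hGc hspan₃ hlog hbadK hspanA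
            omega
        _ ≤ a (4 * (8 * k₀)) := h2
        _ ≤ (4 * (8 * k₀)) ^ 2 := h3
        _ = 1024 * k₀ * k₀ := by ring
    have h5 : (6 * h') * k₀ ≤ (1024 * k₀) * k₀ := by
      calc (6 * h') * k₀ = h' * (6 * k₀) := by ring
        _ ≤ _ := h4
    have h6 := Nat.le_of_mul_le_mul_right h5 hk₀'
    omega
  obtain ⟨E1, E2, E3⟩ := numeric (S := h' * L₅) hR1 hR2 hR3 hR4 (by omega) hqX (by
      have : h' * L' ≤ h' * L₅ := by rw [hqL₅]; exact Nat.le_add_right _ _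
      calc R * A ≤ 2 ^ 18 * (h * L₃) := hspanA
        _ ≤ 2 ^ 18 * (2 * (h' * L')) := Nat.mul_le_mul_left _ hspan''
        _ = 2 ^ 19 * (h' * L') := by ring
        _ ≤ 2 ^ 19 * (h' * L₅) := Nat.mul_le_mul_left _ this) h8 h9
  refine ⟨_, ?_, _, h', L₅, hh'0, ?_, hAP₅, E1, E2, E3⟩
  · apply Finset.union_subset
    · intro i hi
      obtain ⟨k, hk, h1, h2⟩ := hU'm i hi
      exact hWmem k hk i h1 h2
    · intro i hi
      obtain ⟨k, hk, h⟩ := Finset.mem_biUnion.mp hi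
      rw [Finset.mem_singleton] at h
      subst h
      exact hcW k (Finset.mem_sdiff.mp hk).1
  · simpa using hqb

end Pool.Agent.Helper840.E48
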