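import Pool.Agent.Helper840.E48Core
import Pool.Agent.Helper840.E48CaseOne

set_option autoImplicit false

namespace Pool.Agent.Helper840.E48

open Finset

theorem no_seq {a : ℕ → ℕ} (hs : SSFree a) {n₀ : ℕ} (hgap : ∀ n ≥ n₀, a (n + 1) ≤ a n + (n + 1)) :
    False := by
  classical
  by_cases hinf : {j | ¬ Sep a (Finset.Ico ((2 ^ 50) ^ j) ((2 ^ 50) ^ (j + 1))) (2 ^ 64)}.Infinite
  · exact case_one hs hgap (by norm_num) hinf
  · rw [Set.not_infinite] at hinf
    obtain ⟨j₁, hj₁⟩ := hinf.bddAbove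
    obtain ⟨n₁, hn₁⟩ := hs.superlinear (2 ^ 100)
    obtain ⟨n₂, hn₂⟩ := sq_bound hgap
    obtain ⟨j, hj, hdouble⟩ := doubling_often hs (Θ := 2 ^ 50) (by norm_num)
      (j₁ + n₀ + n₁ + n₂ + 1)
    obtain ⟨e, rfl⟩ : ∃ e, j = e + 1 := ⟨j - 1, by omega⟩
    have hsep : Sep a (Finset.Ico ((2 ^ 50) ^ (e + 1)) ((2 ^ 50) ^ (e + 1 + 1))) (2 ^ 64) := by
      by_contra hcon
      have := hj₁ hcon
      omega
    have hΘlt : e + 1 < (2 ^ 50) ^ (e + 1) := Nat.lt_pow_self (by norm_num)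
    set k₀ := 2 ^ 48 * (2 ^ 50) ^ e with hk₀
    have hk₀pos : 0 < k₀ := by positivity
    have h4k₀ : 4 * k₀ = (2 ^ 50) ^ (e + 1) := by rw [hk₀, pow_succ]; ring
    set m := 4 * (2 ^ 50 * k₀) with hm
    have hmΘ : m = (2 ^ 50) ^ (e + 1 + 1) := by
      rw [hm, pow_succ _ (e + 1), ← h4k₀]; ring
    rw [← h4k₀, ← hmΘ] at hsep hdouble
    rw [← h4k₀] at hΘlt
    have hm4 : 4 * k₀ ≤ m := by omega
    obtain ⟨U, hU, b, q, L, hq, hqb, hAP, E1, E2, E3⟩ := core hs hgap (k₀ := k₀)
      (k₁ := 2 ^ 50 * k₀) (m := m) (by omega) hk₀pos rfl hm hsep hdouble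
      (fun n hn => hn₂ n (by omega)) (hn₁ m (by omega))
    have hstar := star hs.mono hgap (m := m) (by omega) (by omega) E1 E2 E3
    obtain ⟨c, hc, hinfc⟩ := pigeon (Set.Ici_infinite m) (N := q) (fun k c => a k % q = c) (by
      intro k _
      exact ⟨a k % q, Nat.mod_lt _ hq, rfl⟩)
    obtain ⟨i', hi'⟩ := hinfc.nonempty
    have hi'm : m ≤ i' := hi'.1
    have hi'c : a i' % q = c := hi'.2
    refine final_lemma hs (U := U) (V := {k | m ≤ k ∧ k ≠ i'}) (i' := i') hq hqb hAP ?_ ?_ ?_ ?_ ?_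
    · intro i hi hiV
      have := (Finset.mem_Ico.mp (hU hi)).2
      have h2 : m ≤ i := hiV.1
      omega
    · intro h
      exact h.2 rfl
    · intro h
      have := (Finset.mem_Ico.mp (hU h)).2
      omega
    · intro k hk
      have hkm : m ≤ k := hk.1
      have h1 := hstar k hkm
      have h2 : ∑ i ∈ Finset.Ico m k, a i ≤
          ∑ i ∈ (Finset.range k).filter (· ∈ {k | m ≤ k ∧ k ≠ i'}), a i + a k := by
        have hsub : (Finset.Ico m k).erase i' ⊆
            (Finset.range k).filter (· ∈ {k | m ≤ k ∧ k ≠ i'}) := by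
          intro i hi
          rw [Finset.mem_erase, Finset.mem_Ico] at hi
          rw [Finset.mem_filter, Finset.mem_range]
          exact ⟨hi.2.2, hi.2.1, hi.1⟩
        by_cases hi'k : i' ∈ Finset.Ico m k
        · rw [← Finset.add_sum_erase _ _ hi'k]
          have h3 := Finset.sum_le_sum_of_subset (f := a) hsub
          have h4 : a i' ≤ a k := hs.mono.monotone (Finset.mem_Ico.mp hi'k).2.le
          omega
        · rw [Finset.erase_eq_of_notMem hi'k] at hsub
          exact (Finset.sum_le_sum_of_subset (f := a) hsub).trans (Nat.le_add_right _ _)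
      have h3 : 3 * q * a k + a k ≤ 4 * q * a k := by
        have e1 : a k ≤ q * a k := Nat.le_mul_of_pos_left _ hq
        have e2 : 3 * q * a k = 3 * (q * a k) := by ring
        have e3 : 4 * q * a k = 4 * (q * a k) := by ring
        omega
      omega
    · have h1 := hinfc.sdiff (Set.finite_singleton i')
      apply h1.mono
      intro k hk
      refine ⟨⟨hk.1.1, hk.2⟩, ?_⟩
      rw [Nat.ModEq, hk.1.2, hi'c]

end Pool.Agent.Helper840.E48
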