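import Pool.Agent.Helper840.E48Pot

set_option autoImplicit false

namespace Pool.Agent.Helper840.E48

open Finset

/-- the groups `{4k, …, 4k+3}` in which all elements are divisible by `n` -/
def Good (a : ℕ → ℕ) (k₀ k₁ n : ℕ) : Finset ℕ :=
  (Finset.Ico k₀ k₁).filter (fun k => ∀ p : Fin 4, n ∣ a (4 * k + p))

/-- the other groups -/
def BadG (a : ℕ → ℕ) (k₀ k₁ n : ℕ) : Finset ℕ :=
  (Finset.Ico k₀ k₁).filter (fun k => ¬ ∀ p : Fin 4, n ∣ a (4 * k + p))

theorem good_add_bad (a : ℕ → ℕ) (k₀ k₁ n : ℕ) :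
    (Good a k₀ k₁ n).card + (BadG a k₀ k₁ n).card = k₁ - k₀ := by
  rw [Good, BadG, Finset.card_filter_add_card_filter_not, Nat.card_Ico]

theorem select (a : ℕ → ℕ) (k₀ k₁ K X₀ : ℕ) (hK : 0 < K) (hX₀ : 0 < X₀)
    (hX : 6 * K * (Nat.log 2 X₀ + 1) * Nat.log 2 X₀ ≤ X₀) :
    ∃ q, 0 < q ∧ q ≤ X₀ ∧ (BadG a k₀ k₁ q).card * K ≤ 13 * X₀ ∧
      ∃ γ : ℕ → Fin 4, ∀ n, q ∣ n → n ≠ q → 0 < n → n ≤ X₀ →
        n / K < ((Good a k₀ k₁ q).filter (fun k => ¬ n ∣ a (4 * k + γ k))).card := by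
  classical
  set ℓ := Nat.log 2 X₀ with hℓ
  set Q : Finset ℕ := (Finset.Icc 1 X₀).filter
    (fun n => (BadG a k₀ k₁ n).card * K ≤ 12 * n + 6 * K * (ℓ + 1) * Nat.log 2 n) with hQ
  have hQne : Q.Nonempty := by
    refine ⟨1, ?_⟩
    rw [hQ, Finset.mem_filter, Finset.mem_Icc]
    refine ⟨⟨le_rfl, hX₀⟩, ?_⟩
    have : BadG a k₀ k₁ 1 = ∅ := by
      rw [BadG, Finset.filter_eq_empty_iff]
      intro k _
      simp
    rw [this]
    simp
  set q := Q.max' hQne with hq
  have hqQ : q ∈ Q := Finset.max'_mem Q hQne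
  have hqQ' := hqQ
  rw [hQ, Finset.mem_filter, Finset.mem_Icc] at hqQ'
  obtain ⟨⟨hq1, hqX⟩, hqe⟩ := hqQ'
  have hqpos : 0 < q := hq1
  have hmax : ∀ n, q < n → n ≤ X₀ →
      12 * n + 6 * K * (ℓ + 1) * Nat.log 2 n < (BadG a k₀ k₁ n).card * K := by
    intro n hn hnX
    by_contra hcon
    push Not at hcon
    have : n ∈ Q := by
      rw [hQ, Finset.mem_filter, Finset.mem_Icc]
      exact ⟨⟨by omega, hnX⟩, hcon⟩
    have := Finset.le_max' Q n this
    omega
  refine ⟨q, hqpos, hqX, ?_, ?_⟩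
  · have h1 : Nat.log 2 q ≤ ℓ := Nat.log_mono_right hqX
    have h2 : 6 * K * (ℓ + 1) * Nat.log 2 q ≤ 6 * K * (ℓ + 1) * ℓ := Nat.mul_le_mul_left _ h1
    omega
  · set N : Finset ℕ := (Finset.Icc 1 X₀).filter (fun n => q ∣ n ∧ n ≠ q) with hN
    have hNc : N.card < 2 ^ (ℓ + 1) := by
      have h1 : N.card ≤ X₀ := by
        refine (Finset.card_le_card (Finset.filter_subset _ _)).trans ?_
        simp
      exact lt_of_le_of_lt h1 (Nat.lt_pow_succ_log_self (by norm_num) X₀)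
    have hmain : ∀ n ∈ N, 6 * (n / K + (ℓ + 1)) ≤ ((Good a k₀ k₁ q).filter (fun k =>
        ((Finset.univ : Finset (Fin 4)).filter (fun p : Fin 4 => ¬ n ∣ a (4 * k + p))).Nonempty)).card := by
      intro n hn
      rw [hN, Finset.mem_filter, Finset.mem_Icc] at hn
      obtain ⟨⟨hn1, hnX⟩, ⟨p, hp⟩, hnq⟩ := hn
      have hp2 : 2 ≤ p := by
        rcases p with _ | _ | p
        · omega
        · omega
        · omega
      have h2q : 2 * q ≤ n := by
        rw [hp, mul_comm 2 q]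
        exact Nat.mul_le_mul_left _ hp2
      have hlog : Nat.log 2 q + 1 ≤ Nat.log 2 n := by
        have h1 : Nat.log 2 (q * 2) ≤ Nat.log 2 n := Nat.log_mono_right (by omega)
        rwa [Nat.log_mul_base (by norm_num) (by omega)] at h1
      have h1 := hmax n (by omega) hnX
      have hcard : (BadG a k₀ k₁ n).card ≤ (BadG a k₀ k₁ q).card +
          ((Good a k₀ k₁ q).filter (fun k =>
          ((Finset.univ : Finset (Fin 4)).filter
            (fun p : Fin 4 => ¬ n ∣ a (4 * k + p))).Nonempty)).card := by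
        rw [← Nat.add_comm]
        refine le_trans (Finset.card_le_card ?_) (Finset.card_union_le _ _)
        intro k hk
        rw [BadG, Finset.mem_filter] at hk
        rw [Finset.mem_union, Finset.mem_filter]
        by_cases hkq : ∀ p : Fin 4, q ∣ a (4 * k + p)
        · left
          refine ⟨?_, ?_⟩
          · rw [Good, Finset.mem_filter]; exact ⟨hk.1, hkq⟩
          · have := hk.2
            push Not at this
            obtain ⟨p, hp⟩ := this
            exact ⟨p, by simpa using hp⟩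
        · right
          rw [BadG, Finset.mem_filter]
          exact ⟨hk.1, hkq⟩
      set c := ((Good a k₀ k₁ q).filter (fun k =>
          ((Finset.univ : Finset (Fin 4)).filter
            (fun p : Fin 4 => ¬ n ∣ a (4 * k + p))).Nonempty)).card with hc
      have h3 : (BadG a k₀ k₁ n).card * K ≤ (BadG a k₀ k₁ q).card * K + c * K := by
        rw [← Nat.add_mul]; exact Nat.mul_le_mul_right _ hcard
      have h4 : 6 * K * (ℓ + 1) * (Nat.log 2 q + 1) ≤ 6 * K * (ℓ + 1) * Nat.log 2 n :=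
        Nat.mul_le_mul_left _ hlog
      have h5 : 6 * K * (ℓ + 1) * (Nat.log 2 q + 1) =
          6 * K * (ℓ + 1) * Nat.log 2 q + 6 * K * (ℓ + 1) := by ring
      have h6 : n / K * K ≤ n := Nat.div_mul_le_self n K
      have h7 : 6 * (n / K + (ℓ + 1)) * K ≤ c * K := by
        have h8 : 6 * (n / K + (ℓ + 1)) * K = 6 * (n / K * K) + 6 * K * (ℓ + 1) := by ring
        rw [h8]
        omega
      exact Nat.le_of_mul_le_mul_right h7 hK
    obtain ⟨γ, hγ⟩ := gamma_exists N
      (fun k n => (Finset.univ : Finset (Fin 4)).filter (fun p : Fin 4 => ¬ n ∣ a (4 * k + p)))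
      (Good a k₀ k₁ q) (fun n => n / K) ℓ hNc hmain
    refine ⟨γ, ?_⟩
    intro n hqn hnq hn0 hnX
    have hnN : n ∈ N := by
      rw [hN, Finset.mem_filter, Finset.mem_Icc]
      exact ⟨⟨hn0, hnX⟩, hqn, hnq⟩
    have := hγ n hnN
    simpa using this

end Pool.Agent.Helper840.E48
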