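import Pool.Agent.Helper840.E48Seq
import Pool.Agent.Helper840.E48Select

set_option autoImplicit false

namespace Pool.Agent.Helper840.E48

open Finset

/-- numerical conditions under which all later elements can be absorbed. -/
theorem star {a : ℕ → ℕ} (hmono : StrictMono a) {n₀ : ℕ}
    (hgap : ∀ n ≥ n₀, a (n + 1) ≤ a n + (n + 1)) {m q S : ℕ} (hm : n₀ ≤ m) (hm1 : 1 ≤ m)
    (E1 : 8 * q * a m ≤ S) (E2 : 128 * q ^ 2 ≤ a m) (E3 : 128 * q ^ 2 * m ≤ S) :
    ∀ k, m ≤ k → 4 * q * a k ≤ S + ∑ i ∈ Finset.Ico m k, a i := by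
  intro k hk
  have hlow : ∀ i, m ≤ i → i ≤ k → a k ≤ a i + (k - i) * k := by
    intro i hi hik
    have := gap_sum hgap (show n₀ ≤ i by omega) (k - i)
    rwa [Nat.add_sub_cancel' hik] at this
  rcases Nat.lt_or_ge (a k) (16 * q * k) with hB | hA
  · have h1 : 4 * q * a k ≤ 64 * q ^ 2 * k := by
      calc 4 * q * a k ≤ 4 * q * (16 * q * k) := Nat.mul_le_mul_left _ hB.le
        _ = 64 * q ^ 2 * k := by ring
    rcases Nat.le_total k (2 * m) with h2 | h2
    · calc 4 * q * a k ≤ 64 * q ^ 2 * k := h1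
        _ ≤ 64 * q ^ 2 * (2 * m) := Nat.mul_le_mul_left _ h2
        _ = 128 * q ^ 2 * m := by ring
        _ ≤ S := E3
        _ ≤ _ := Nat.le_add_right _ _
    · calc 4 * q * a k ≤ 64 * q ^ 2 * k := h1
        _ ≤ 64 * q ^ 2 * (2 * (k - m)) := Nat.mul_le_mul_left _ (by omega)
        _ = (k - m) * (128 * q ^ 2) := by ring
        _ ≤ (k - m) * a m := Nat.mul_le_mul_left _ E2
        _ = ∑ i ∈ Finset.Ico m k, a m := by
            rw [Finset.sum_const, Nat.card_Ico, smul_eq_mul]
        _ ≤ ∑ i ∈ Finset.Ico m k, a i := by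
            apply Finset.sum_le_sum
            intro i hi
            exact hmono.monotone (Finset.mem_Ico.mp hi).1
        _ ≤ _ := Nat.le_add_left _ _
  · have hk0 : 0 < 2 * k := by omega
    set J := a k / (2 * k) with hJ
    have hJ1 : 8 * q ≤ J := by
      rw [hJ, Nat.le_div_iff_mul_le hk0]
      calc 8 * q * (2 * k) = 16 * q * k := by ring
        _ ≤ a k := hA
    have hJ2 : 2 * (J * k) ≤ a k := by
      have := Nat.div_mul_le_self (a k) (2 * k)
      rw [← hJ] at this
      calc 2 * (J * k) = J * (2 * k) := by ring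
        _ ≤ a k := this
    rcases Nat.le_total J (k - m) with h2 | h2
    · have h3 : ∀ i ∈ Finset.Ico (k - J) k, a k ≤ 2 * a i := by
        intro i hi
        rw [Finset.mem_Ico] at hi
        have h4 := hlow i (by omega) (by omega)
        have h5 : (k - i) * k ≤ J * k := Nat.mul_le_mul_right _ (by omega)
        omega
      have h4 : J * a k ≤ 2 * ∑ i ∈ Finset.Ico (k - J) k, a i := by
        rw [Finset.mul_sum]
        calc J * a k = ∑ i ∈ Finset.Ico (k - J) k, a k := by
              rw [Finset.sum_const, Nat.card_Ico, smul_eq_mul]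
              congr 1
              omega
          _ ≤ _ := Finset.sum_le_sum h3
      have h5 : ∑ i ∈ Finset.Ico (k - J) k, a i ≤ ∑ i ∈ Finset.Ico m k, a i := by
        apply Finset.sum_le_sum_of_subset
        intro i hi
        rw [Finset.mem_Ico] at hi ⊢
        omega
      have h6 : 8 * q * a k ≤ J * a k := Nat.mul_le_mul_right _ hJ1
      have h7 : 8 * q * a k = 2 * (4 * q * a k) := by ring
      omega
    · have h3 := hlow m le_rfl hk
      have h4 : (k - m) * k ≤ J * k := Nat.mul_le_mul_right _ h2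
      have h5 : a k ≤ 2 * a m := by omega
      calc 4 * q * a k ≤ 4 * q * (2 * a m) := Nat.mul_le_mul_left _ h5
        _ = 8 * q * a m := by ring
        _ ≤ S := E1
        _ ≤ _ := Nat.le_add_right _ _

/-- distinct positive multiples of `q` below `x` -/
theorem count_multiples {a : ℕ → ℕ} (hmono : StrictMono a) (hpos : ∀ n, 0 < a n) {q x : ℕ}
    (hq : 0 < q) (D : Finset ℕ) (hD : ∀ k ∈ D, q ∣ a (4 * k)) (hx : ∀ k ∈ D, a (4 * k) ≤ x) :
    q * D.card ≤ x := by
  have h1 : D.card ≤ (Finset.Icc 1 (x / q)).card := by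
    apply Finset.card_le_card_of_injOn (fun k => a (4 * k) / q)
    · intro k hk
      have hk := Finset.mem_coe.mp hk
      rw [Finset.coe_Icc, Set.mem_Icc]
      constructor
      · exact Nat.div_pos (Nat.le_of_dvd (hpos _) (hD k hk)) hq
      · exact Nat.div_le_div_right (hx k hk)
    · intro k hk k' hk' heq
      have hk := Finset.mem_coe.mp hk
      have hk' := Finset.mem_coe.mp hk'
      simp only at heq
      have e1 := Nat.div_mul_cancel (hD k hk)
      have e2 := Nat.div_mul_cancel (hD k' hk')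
      rw [heq, e2] at e1
      have := hmono.injective e1
      omega
  rw [Nat.card_Icc, Nat.add_sub_cancel] at h1
  calc q * D.card ≤ q * (x / q) := Nat.mul_le_mul_left _ h1
    _ ≤ x := Nat.mul_div_le x q

theorem telescope {a : ℕ → ℕ} (hmono : StrictMono a) (k₀ : ℕ) :
    ∀ e, ∑ k ∈ Finset.Ico k₀ (k₀ + e), (a (4 * k + 4) - a (4 * k)) = a (4 * (k₀ + e)) - a (4 * k₀) := by
  intro e
  induction e with
  | zero => simp
  | succ e ih =>
    rw [← add_assoc, Finset.sum_Ico_succ_top (by omega), ih]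
    have h1 : a (4 * k₀) ≤ a (4 * (k₀ + e)) := hmono.monotone (by omega)
    have h2 : a (4 * (k₀ + e)) ≤ a (4 * (k₀ + e) + 4) := hmono.monotone (by omega)
    have h3 : 4 * (k₀ + e + 1) = 4 * (k₀ + e) + 4 := by ring
    rw [h3]
    omega

/-- every cell contains a complete group -/
theorem cell_group {a : ℕ → ℕ} (hmono : StrictMono a) {n₀ : ℕ}
    (hgap : ∀ n ≥ n₀, a (n + 1) ≤ a n + (n + 1)) {k₀ k₁ : ℕ} (hk₀ : n₀ ≤ 4 * k₀) (hk₁ : 36 ≤ 4 * k₁)
    {y : ℕ} (hy0 : a (4 * k₀) ≤ y) (hy1 : y + 8 * (4 * k₁) ≤ a (4 * k₁)) :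
    ∃ k, k₀ ≤ k ∧ k < k₁ ∧ y ≤ a (4 * k) ∧ a (4 * k + 3) < y + 8 * (4 * k₁) := by
  have hex : ∃ i, y ≤ a i := ⟨4 * k₁, by omega⟩
  set i := Nat.find hex with hi
  have hi1 : y ≤ a i := Nat.find_spec hex
  have hi2 : ∀ i' < i, a i' < y := fun i' h => not_le.mp (Nat.find_min hex h)
  have hi3 : i < 4 * k₁ := by
    have h1 : i ≤ 4 * k₁ := Nat.find_min' hex (by omega)
    rcases Nat.lt_or_ge i (4 * k₁) with h | h
    · exact h
    · have h2 : i = 4 * k₁ := le_antisymm h1 h
      have h3 := hi2 (4 * k₁ - 1) (by omega)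
      have h4 : n₀ ≤ 4 * k₁ - 1 := by
        by_contra hcon
        push Not at hcon
        have : 4 * k₁ ≤ 4 * k₀ := by omega
        have := hmono.monotone this
        omega
      have h5 := hgap _ h4
      have h6 : 4 * k₁ - 1 + 1 = 4 * k₁ := by omega
      rw [h6] at h5
      omega
  have hi4 : 4 * k₀ ≤ i := by
    by_contra hcon
    push Not at hcon
    have : a i < a (4 * k₀) := hmono hcon
    omega
  have hi5 : a i ≤ y + 4 * k₁ := by
    rcases Nat.eq_or_lt_of_le hi4 with h | h
    · rw [← h]; omega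
    · have h3 := hi2 (i - 1) (by omega)
      have h5 := hgap (i - 1) (by omega)
      have h6 : i - 1 + 1 = i := by omega
      rw [h6] at h5
      omega
  have hbig : a (i + 6) < y + 8 * (4 * k₁) := by
    have h1 := gap_sum hgap (show n₀ ≤ i by omega) 6
    omega
  refine ⟨(i + 3) / 4, by omega, ?_, ?_, ?_⟩
  · by_contra hcon
    push Not at hcon
    have h1 : a (4 * k₁) ≤ a (i + 6) := hmono.monotone (by omega)
    omega
  · exact hi1.trans (hmono.monotone (by omega))
  · exact lt_of_le_of_lt (hmono.monotone (by omega)) hbig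

end Pool.Agent.Helper840.E48
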