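import Mathlib

set_option autoImplicit false

namespace Pool.Agent.Helper840.E48

open Finset

theorem potential {κ : Type*} [DecidableEq κ] (N : Finset ℕ) (Bd : κ → ℕ → Finset (Fin 4)) :
    ∀ (G : Finset κ) (w : ℕ → ℚ), (∀ n ∈ N, 0 ≤ w n) → ∃ γ : κ → Fin 4,
      ∑ n ∈ N, w n * (1 / 2) ^ ((G.filter (fun k => γ k ∈ Bd k n)).card) ≤
        ∑ n ∈ N, w n * (7 / 8) ^ ((G.filter (fun k => (Bd k n).Nonempty)).card) := by
  intro G
  induction G using Finset.induction_on with
  | empty => intro w _; exact ⟨fun _ => 0, by simp⟩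
  | insert k G hk ih =>
    intro w hw
    set c : ℕ → ℕ := fun n => (G.filter (fun k => (Bd k n).Nonempty)).card with hc
    have hstep : ∃ p : Fin 4, ∑ n ∈ N, (w n * (if p ∈ Bd k n then 1 / 2 else 1)) * (7 / 8) ^ (c n) ≤
        ∑ n ∈ N, w n * (7 / 8) ^ (((insert k G).filter (fun k => (Bd k n).Nonempty)).card) := by
      by_contra hcon
      push Not at hcon
      have h1 : ∑ p : Fin 4, ∑ n ∈ N, w n * (7 / 8) ^ (((insert k G).filter
          (fun k => (Bd k n).Nonempty)).card) < ∑ p : Fin 4, ∑ n ∈ N,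
          (w n * (if p ∈ Bd k n then 1 / 2 else 1)) * (7 / 8) ^ (c n) :=
        Finset.sum_lt_sum_of_nonempty Finset.univ_nonempty (fun p _ => hcon p)
      rw [Finset.sum_comm, Finset.sum_comm (s := Finset.univ) (t := N)] at h1
      apply absurd h1
      rw [not_lt]
      apply Finset.sum_le_sum
      intro n hn
      have h2 : ∑ p : Fin 4, (w n * (if p ∈ Bd k n then 1 / 2 else 1)) * (7 / 8) ^ (c n) =
          w n * (7 / 8) ^ (c n) * ∑ p : Fin 4, (if p ∈ Bd k n then (1 / 2 : ℚ) else 1) := by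
        rw [Finset.mul_sum]
        apply Finset.sum_congr rfl
        intro p _
        ring
      rw [h2, Finset.sum_const, Finset.card_univ, Fintype.card_fin, nsmul_eq_mul,
        Finset.filter_insert]
      have hw0 : 0 ≤ w n * (7 / 8) ^ (c n) := mul_nonneg (hw n hn) (by positivity)
      have h3 : ∑ p : Fin 4, (if p ∈ Bd k n then (1 / 2 : ℚ) else 1) ≤ 4 := by
        calc ∑ p : Fin 4, (if p ∈ Bd k n then (1 / 2 : ℚ) else 1) ≤ ∑ p : Fin 4, (1 : ℚ) := by
              apply Finset.sum_le_sum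
              intro p _
              split_ifs <;> norm_num
          _ = 4 := by simp
      by_cases hne : (Bd k n).Nonempty
      · rw [if_pos hne, Finset.card_insert_of_notMem (by simp [hk]), pow_succ]
        obtain ⟨p₀, hp₀⟩ := hne
        have h4 : ∑ p : Fin 4, (if p ∈ Bd k n then (1 / 2 : ℚ) else 1) ≤ 7 / 2 := by
          rw [← Finset.add_sum_erase _ _ (Finset.mem_univ p₀), if_pos hp₀]
          have : ∑ p ∈ Finset.univ.erase p₀, (if p ∈ Bd k n then (1 / 2 : ℚ) else 1) ≤
              ∑ p ∈ Finset.univ.erase p₀, (1 : ℚ) := by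
            apply Finset.sum_le_sum
            intro p _
            split_ifs <;> norm_num
          have h5 : ∑ p ∈ (Finset.univ : Finset (Fin 4)).erase p₀, (1 : ℚ) = 3 := by
            rw [Finset.sum_const, Finset.card_erase_of_mem (Finset.mem_univ _)]
            simp
          linarith
        have h6 := mul_le_mul_of_nonneg_left h4 hw0
        change _ ≤ (4 : ℚ) * (w n * ((7 / 8) ^ (c n) * (7 / 8)))
        linarith
      · rw [if_neg hne]
        have h6 := mul_le_mul_of_nonneg_left h3 hw0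
        change _ ≤ (4 : ℚ) * (w n * (7 / 8) ^ (c n))
        linarith
    obtain ⟨p, hp⟩ := hstep
    obtain ⟨γ, hγ⟩ := ih (fun n => w n * (if p ∈ Bd k n then 1 / 2 else 1)) (by
      intro n hn
      have := hw n hn
      split_ifs
      · positivity
      · simpa using this)
    refine ⟨Function.update γ k p, ?_⟩
    refine le_trans (le_of_eq ?_) (hγ.trans hp)
    apply Finset.sum_congr rfl
    intro n hn
    have hfe : G.filter (fun k' => Function.update γ k p k' ∈ Bd k' n) =
        G.filter (fun k' => γ k' ∈ Bd k' n) := by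
      apply Finset.filter_congr
      intro k' hk'
      have : k' ≠ k := by rintro rfl; exact hk hk'
      rw [Function.update_of_ne this]
    rw [Finset.filter_insert, hfe, Function.update_self]
    by_cases hpB : p ∈ Bd k n
    · rw [if_pos hpB, if_pos hpB, Finset.card_insert_of_notMem (by simp [hk]), pow_succ]
      ring
    · rw [if_neg hpB, if_neg hpB]
      ring

/-- The selection of one element of every group which detects non-divisibility. -/
theorem gamma_exists {κ : Type*} [DecidableEq κ] (N : Finset ℕ) (Bd : κ → ℕ → Finset (Fin 4))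
    (G : Finset κ) (T : ℕ → ℕ) (ℓ : ℕ) (hNc : N.card < 2 ^ (ℓ + 1))
    (hN : ∀ n ∈ N, 6 * (T n + (ℓ + 1)) ≤ (G.filter (fun k => (Bd k n).Nonempty)).card) :
    ∃ γ : κ → Fin 4, ∀ n ∈ N, T n < (G.filter (fun k => γ k ∈ Bd k n)).card := by
  obtain ⟨γ, hγ⟩ := potential N Bd G (fun n => 2 ^ T n) (fun n _ => by positivity)
  refine ⟨γ, ?_⟩
  intro n hn
  by_contra hcon
  push Not at hcon
  have h1 : ∑ n ∈ N, (2 : ℚ) ^ T n * (7 / 8) ^ ((G.filter (fun k => (Bd k n).Nonempty)).card) ≤
      ∑ n ∈ N, ((1 / 2 : ℚ)) ^ (ℓ + 1) := by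
    apply Finset.sum_le_sum
    intro n hn
    calc (2 : ℚ) ^ T n * (7 / 8) ^ ((G.filter (fun k => (Bd k n).Nonempty)).card)
        ≤ (2 : ℚ) ^ T n * (7 / 8) ^ (6 * (T n + (ℓ + 1))) := by
          gcongr ?_ * ?_
          exact pow_le_pow_of_le_one (by norm_num) (by norm_num) (hN n hn)
      _ = (2 : ℚ) ^ T n * ((7 / 8) ^ 6) ^ (T n + (ℓ + 1)) := by rw [pow_mul]
      _ ≤ (2 : ℚ) ^ T n * (1 / 2) ^ (T n + (ℓ + 1)) := by
          gcongr
          norm_num
      _ = ((1 / 2 : ℚ)) ^ (ℓ + 1) := by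
          rw [pow_add, ← mul_assoc, ← mul_pow]
          norm_num
  have h2 : ∑ n ∈ N, ((1 / 2 : ℚ)) ^ (ℓ + 1) < 1 := by
    rw [Finset.sum_const, nsmul_eq_mul]
    have : (N.card : ℚ) < 2 ^ (ℓ + 1) := by exact_mod_cast hNc
    rw [one_div, inv_pow, ← div_eq_mul_inv, div_lt_one (by positivity)]
    exact this
  have h3 : (1 : ℚ) ≤ ∑ n ∈ N, (2 : ℚ) ^ T n * (1 / 2) ^ ((G.filter (fun k => γ k ∈ Bd k n)).card) := by
    have h4 : (2 : ℚ) ^ T n * (1 / 2) ^ ((G.filter (fun k => γ k ∈ Bd k n)).card) ≤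
        ∑ n ∈ N, (2 : ℚ) ^ T n * (1 / 2) ^ ((G.filter (fun k => γ k ∈ Bd k n)).card) :=
      Finset.single_le_sum (f := fun n => (2 : ℚ) ^ T n *
        (1 / 2) ^ ((G.filter (fun k => γ k ∈ Bd k n)).card)) (fun _ _ => by positivity) hn
    refine le_trans ?_ h4
    calc (1 : ℚ) = (2 : ℚ) ^ T n * (1 / 2) ^ (T n) := by
          rw [← mul_pow]; norm_num
      _ ≤ _ := by
          gcongr ?_ * ?_
          exact pow_le_pow_of_le_one (by norm_num) (by norm_num) hcon
  linarith

end Pool.Agent.Helper840.E48
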