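import Pool.Agent.Helper840.E48Basic

set_option autoImplicit false

namespace Pool.Agent.Helper840.E48

open Finset

/-- residues mod `n` of the subset sums of the `d i`, `i ∈ J`. -/
def Res {ι : Type*} (d : ι → ℕ) (n : ℕ) (J : Finset ι) : Finset (ZMod n) :=
  J.powerset.image (fun J' => ((∑ i ∈ J', d i : ℕ) : ZMod n))

theorem mem_Res {ι : Type*} {d : ι → ℕ} {n : ℕ} {J : Finset ι} {x : ZMod n} :
    x ∈ Res d n J ↔ ∃ J' ⊆ J, ((∑ i ∈ J', d i : ℕ) : ZMod n) = x := by
  simp [Res]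

theorem Res_mono {ι : Type*} {d : ι → ℕ} {n : ℕ} {J J' : Finset ι} (h : J ⊆ J') :
    Res d n J ⊆ Res d n J' := by
  intro x hx
  rw [mem_Res] at hx ⊢
  obtain ⟨B, hB, hx⟩ := hx
  exact ⟨B, hB.trans h, hx⟩

theorem Res_zero_mem {ι : Type*} {d : ι → ℕ} {n : ℕ} {J : Finset ι} : (0 : ZMod n) ∈ Res d n J := by
  rw [mem_Res]; exact ⟨∅, by simp, by simp⟩

theorem Res_card_pos {ι : Type*} {d : ι → ℕ} {n : ℕ} {J : Finset ι} : 0 < (Res d n J).card :=
  Finset.card_pos.mpr ⟨0, Res_zero_mem⟩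

theorem Res_insert_shift {ι : Type*} [DecidableEq ι] {d : ι → ℕ} {n : ℕ} {J : Finset ι} {i : ι}
    (hi : i ∉ J) {x : ZMod n} (hx : x ∈ Res d n J) : x + (d i : ZMod n) ∈ Res d n (insert i J) := by
  rw [mem_Res] at hx ⊢
  obtain ⟨B, hB, hx⟩ := hx
  refine ⟨insert i B, Finset.insert_subset_insert i hB, ?_⟩
  rw [Finset.sum_insert (fun h => hi (hB h)), ← hx]
  push_cast
  ring

/-- integers whose residue stabilises a finite set of residues -/
def stab (n : ℕ) (R : Finset (ZMod n)) : AddSubgroup ℤ where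
  carrier := {x | ∀ τ ∈ R, τ + (x : ZMod n) ∈ R}
  zero_mem' := by intro τ hτ; simpa using hτ
  add_mem' := by
    intro x y hx hy τ hτ
    have := hy _ (hx τ hτ)
    push_cast
    rwa [add_assoc] at this
  neg_mem' := by
    intro x hx τ hτ
    have h1 : R.image (fun τ => τ + (x : ZMod n)) = R := by
      apply Finset.eq_of_subset_of_card_le
      · intro y hy
        obtain ⟨τ', hτ', rfl⟩ := Finset.mem_image.mp hy
        exact hx τ' hτ'
      · rw [Finset.card_image_of_injective]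
        intro u v huv
        exact add_right_cancel huv
    rw [← h1] at hτ
    obtain ⟨τ', hτ', rfl⟩ := Finset.mem_image.mp hτ
    push_cast
    simpa using hτ'

theorem mem_stab {n : ℕ} {R : Finset (ZMod n)} {x : ℤ} :
    x ∈ stab n R ↔ ∀ τ ∈ R, τ + (x : ZMod n) ∈ R := Iff.rfl

theorem cover {a : ℕ → ℕ} {ι : Type*} [DecidableEq ι] {U : Finset ℕ} {b h L X : ℕ}
    (hA : HasAP a U b h L) (hh : 0 < h) {I : Finset ι} {S : ι → Finset ℕ} {β d : ι → ℕ}
    (hF : IsFam a I S β d) (hU : ∀ i ∈ I, Disjoint (S i) U) (hd : ∀ i ∈ I, d i ≤ X)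
    {J : Finset ι} (hJ : J ⊆ I) {z : ℕ} (hz1 : X * J.card ≤ z) (hz2 : z ≤ h * L)
    (hz : (z : ZMod h) ∈ Res d h J) :
    (b + ∑ i ∈ J, β i) + z ∈ SS a (U ∪ J.biUnion S) := by
  rw [mem_Res] at hz
  obtain ⟨J', hJ', hz⟩ := hz
  have h1 : ∑ i ∈ J', d i ≤ z := by
    calc ∑ i ∈ J', d i ≤ ∑ i ∈ J', X := Finset.sum_le_sum (fun i hi => hd i (hJ (hJ' hi)))
      _ = X * J'.card := by rw [Finset.sum_const, smul_eq_mul, mul_comm]
      _ ≤ X * J.card := Nat.mul_le_mul_left _ (Finset.card_le_card hJ')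
      _ ≤ z := hz1
  rw [ZMod.natCast_eq_natCast_iff] at hz
  obtain ⟨j, hj⟩ := (Nat.modEq_iff_dvd' h1).1 hz
  have hjL : j ≤ L := by
    have : h * j ≤ h * L := by omega
    exact Nat.le_of_mul_le_mul_left this hh
  have hdis : Disjoint U (J.biUnion S) := by
    rw [Finset.disjoint_biUnion_right]
    intro i hi
    exact (hU i (hJ hi)).symm
  have h2 := SS_add hdis (hA j hjL) (hF.sum_mem J hJ J' hJ')
  convert h2 using 1
  have : z = ∑ i ∈ J', d i + h * j := by omega
  rw [this]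
  ring

theorem refine_lemma {a : ℕ → ℕ} {ι : Type*} [DecidableEq ι] {U W : Finset ℕ} {b h L X K : ℕ}
    (hK : 0 < K) (hsep : Sep a W K) (hUW : U ⊆ W)
    (hA : HasAP a U b h L) (hh : 0 < h) {I : Finset ι} {S : ι → Finset ℕ} {β d : ι → ℕ}
    (hF : IsFam a I S β d) (hU : ∀ i ∈ I, Disjoint (S i) U) (hSW : ∀ i ∈ I, S i ⊆ W)
    (hd : ∀ i ∈ I, d i ≤ X) (hspan : X * (h / K) + 2 * h ≤ h * L) :
    ∃ J ⊆ I, ∃ h' b' L' : ℕ, 0 < h' ∧ h' ∣ h ∧ (J.card + 1) * K ≤ h ∧
      HasAP a (U ∪ J.biUnion S) b' h' L' ∧ h * L ≤ h' * L' + X * J.card + h' ∧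
      (∀ i ∈ I \ J, h' ∣ d i) ∧ ((I.filter (fun i => ¬ h' ∣ d i)).card + 1) * K ≤ h' := by
  classical
  have hJW : ∀ J ⊆ I, U ∪ J.biUnion S ⊆ W := by
    intro J hJ
    apply Finset.union_subset hUW
    rw [Finset.biUnion_subset]
    intro i hi
    exact hSW i (hJ hi)
  -- choose `J` maximal
  set 𝒥 : Finset (Finset ι) := I.powerset.filter
    (fun J => J.card ≤ h / K ∧ J.card + 1 ≤ (Res d h J).card) with h𝒥
  have h𝒥ne : 𝒥.Nonempty := by
    refine ⟨∅, ?_⟩
    rw [h𝒥, Finset.mem_filter]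
    refine ⟨by simp, by simp, ?_⟩
    simpa using (Res_card_pos (d := d) (n := h) (J := (∅ : Finset ι)))
  obtain ⟨J, hJ𝒥, hJmax⟩ := Finset.exists_max_image 𝒥 Finset.card h𝒥ne
  rw [h𝒥, Finset.mem_filter, Finset.mem_powerset] at hJ𝒥
  obtain ⟨hJI, hJc, hJr⟩ := hJ𝒥
  have hXJ : X * J.card ≤ X * (h / K) := Nat.mul_le_mul_left _ hJc
  set R := Res d h J with hR
  have hRK : R.card * K ≤ h := by
    apply packing hK hh hsep R (b + ∑ i ∈ J, β i) (X * J.card)
    intro z hz1 hz2 hz3
    exact SS_mono (hJW J hJI) (cover hA hh hF hU hd hJI hz1 (by omega) hz3)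
  have hJK : (J.card + 1) * K ≤ h := (Nat.mul_le_mul_right K hJr).trans hRK
  have hJc' : J.card + 1 ≤ h / K := (Nat.le_div_iff_mul_le hK).2 hJK
  -- elements outside `J` stabilise `R`
  have hst : ∀ i ∈ I \ J, (d i : ℤ) ∈ stab h R := by
    intro i hi
    rw [Finset.mem_sdiff] at hi
    have hins : insert i J ⊆ I := Finset.insert_subset hi.1 hJI
    have hcard : (insert i J).card = J.card + 1 := Finset.card_insert_of_notMem hi.2
    have h1 : ¬ ((insert i J).card + 1 ≤ (Res d h (insert i J)).card) := by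
      intro hcon
      have hmem : insert i J ∈ 𝒥 := by
        rw [h𝒥, Finset.mem_filter, Finset.mem_powerset]
        exact ⟨hins, by omega, hcon⟩
      have := hJmax _ hmem
      omega
    have h2 : R = Res d h (insert i J) := by
      apply Finset.eq_of_subset_of_card_le (Res_mono (Finset.subset_insert i J))
      change (Res d h (insert i J)).card ≤ R.card
      omega
    rw [mem_stab]
    intro τ hτ
    have h3 := Res_insert_shift (d := d) hi.2 hτ
    rw [← h2] at h3
    simpa using h3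
  -- the generator of the stabiliser
  obtain ⟨g, hg⟩ := Int.subgroup_cyclic (stab h R)
  have hmemg : ∀ x : ℤ, x ∈ stab h R ↔ g ∣ x := by
    intro x
    rw [hg, AddSubgroup.mem_closure_singleton]
    constructor
    · rintro ⟨n, hn⟩
      exact ⟨n, by rw [← hn, smul_eq_mul, mul_comm]⟩
    · rintro ⟨n, hn⟩
      exact ⟨n, by rw [hn, smul_eq_mul, mul_comm]⟩
  set h' := g.natAbs with hh'
  have hmem' : ∀ x : ℤ, x ∈ stab h R ↔ (h' : ℤ) ∣ x := by
    intro x
    rw [hmemg x, hh', Int.natAbs_dvd]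
  have hstabh : ((h : ℕ) : ℤ) ∈ stab h R := by
    rw [mem_stab]
    intro τ hτ
    simpa using hτ
  have hdvdh : h' ∣ h := by
    have := (hmem' _).1 hstabh
    exact_mod_cast this
  have hh'pos : 0 < h' := Nat.pos_of_dvd_of_pos hdvdh hh
  have hh'le : h' ≤ h := Nat.le_of_dvd hh hdvdh
  -- lifting residues
  have hlift : ∀ z : ℤ, ((z : ZMod h')) ∈ Res d h' J → ((z : ZMod h)) ∈ R := by
    intro z hz
    rw [mem_Res] at hz
    obtain ⟨J', hJ', hz⟩ := hz
    have h1 : ((h' : ℕ) : ℤ) ∣ z - ((∑ i ∈ J', d i : ℕ) : ℤ) := by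
      rw [← ZMod.intCast_zmod_eq_zero_iff_dvd]
      push_cast at hz ⊢
      rw [← hz]
      ring
    have h2 : z - ((∑ i ∈ J', d i : ℕ) : ℤ) ∈ stab h R := (hmem' _).2 h1
    rw [mem_stab] at h2
    have h3 : (((∑ i ∈ J', d i : ℕ) : ZMod h)) ∈ R := by
      rw [hR, mem_Res]; exact ⟨J', hJ', rfl⟩
    have h4 := h2 _ h3
    convert h4 using 1
    push_cast
    ring
  have hcov : ∀ z : ℕ, X * J.card ≤ z → z ≤ h * L → ((z : ZMod h')) ∈ Res d h' J →
      (b + ∑ i ∈ J, β i) + z ∈ SS a (U ∪ J.biUnion S) := by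
    intro z hz1 hz2 hz3
    apply cover hA hh hF hU hd hJI hz1 hz2
    have := hlift (z : ℤ) (by simpa using hz3)
    simpa using this
  have hR'K : (Res d h' J).card * K ≤ h' := by
    apply packing hK hh'pos hsep _ (b + ∑ i ∈ J, β i) (X * J.card)
    intro z hz1 hz2 hz3
    exact SS_mono (hJW J hJI) (hcov z hz1 (by omega) hz3)
  -- trivial stabiliser of `Res d h' J`
  have htriv : ∀ x : ℤ, (∀ τ ∈ Res d h' J, τ + (x : ZMod h') ∈ Res d h' J) → (h' : ℤ) ∣ x := by
    intro x hx
    rw [← hmem', mem_stab]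
    intro τ hτ
    rw [hR, mem_Res] at hτ
    obtain ⟨J', hJ', rfl⟩ := hτ
    have h1 : (((∑ i ∈ J', d i : ℕ) : ZMod h')) ∈ Res d h' J := by
      rw [mem_Res]; exact ⟨J', hJ', rfl⟩
    have h2 := hx _ h1
    have h3 := hlift (((∑ i ∈ J', d i : ℕ) : ℤ) + x) (by push_cast at h2 ⊢; exact h2)
    push_cast at h3 ⊢
    exact h3
  -- step growth
  have hgrow : ∀ J₂ : Finset ι, J₂ ⊆ J →
      (J₂.filter (fun i => ¬ h' ∣ d i)).card + 1 ≤ (Res d h' J₂).card := by
    intro J₂
    induction J₂ using Finset.induction_on with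
    | empty =>
      intro _
      simpa using (Res_card_pos (d := d) (n := h') (J := (∅ : Finset ι)))
    | insert i J₂ hi ih =>
      intro hJ₂
      have hJ₂J : J₂ ⊆ J := (Finset.subset_insert i J₂).trans hJ₂
      have hiJ : i ∈ J := hJ₂ (Finset.mem_insert_self i J₂)
      have ih' := ih hJ₂J
      have hmono : (Res d h' J₂) ⊆ (Res d h' (insert i J₂)) :=
        Res_mono (Finset.subset_insert i J₂)
      have hmc := Finset.card_le_card hmono
      by_cases hdi : h' ∣ d i
      · rw [Finset.filter_insert, if_neg (by simpa using hdi)]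
        omega
      · rw [Finset.filter_insert, if_pos hdi, Finset.card_insert_of_notMem (by simp [hi])]
        rcases Nat.lt_or_ge (Res d h' J₂).card (Res d h' (insert i J₂)).card with hlt | hge
        · omega
        · exfalso
          have heq : Res d h' J₂ = Res d h' (insert i J₂) :=
            Finset.eq_of_subset_of_card_le hmono hge
          apply hdi
          have : (h' : ℤ) ∣ (d i : ℤ) := by
            apply htriv
            intro τ hτ
            rw [mem_Res] at hτ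
            obtain ⟨J', hJ', rfl⟩ := hτ
            have h1 : (((∑ j ∈ J' ∩ J₂, d j : ℕ) : ZMod h')) ∈ Res d h' J₂ := by
              rw [mem_Res]; exact ⟨_, Finset.inter_subset_right, rfl⟩
            have h2 := Res_insert_shift (d := d) hi h1
            rw [← heq, mem_Res] at h2
            obtain ⟨J₃, hJ₃, h3⟩ := h2
            rw [mem_Res]
            refine ⟨J₃ ∪ (J' \ J₂), ?_, ?_⟩
            · apply Finset.union_subset (hJ₃.trans hJ₂J)
              exact (Finset.sdiff_subset).trans hJ'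
            · rw [Finset.sum_union]
              · have h4 : ∑ j ∈ J', d j = ∑ j ∈ J' ∩ J₂, d j + ∑ j ∈ J' \ J₂, d j :=
                  (Finset.sum_inter_add_sum_sdiff J' J₂ d).symm
                rw [h4]
                push_cast at h3 ⊢
                rw [h3]
                ring
              · rw [Finset.disjoint_left]
                intro x hx hx'
                exact (Finset.mem_sdiff.mp hx').2 (hJ₃ hx)
          exact_mod_cast this
  have hexc : (I.filter (fun i => ¬ h' ∣ d i)).card ≤ (J.filter (fun i => ¬ h' ∣ d i)).card := by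
    apply Finset.card_le_card
    intro i hi
    rw [Finset.mem_filter] at hi ⊢
    refine ⟨?_, hi.2⟩
    by_contra hiJ
    apply hi.2
    have := (hmem' _).1 (hst i (Finset.mem_sdiff.mpr ⟨hi.1, hiJ⟩))
    exact_mod_cast this
  have hexc2 : ((I.filter (fun i => ¬ h' ∣ d i)).card + 1) * K ≤ h' := by
    refine (Nat.mul_le_mul_right K ?_).trans hR'K
    have := hgrow J le_rfl
    omega
  -- the new AP
  obtain ⟨m, hm⟩ := hdvdh
  set j0 := (X * J.card + (h' - 1)) / h' with hj0
  have hj01 : X * J.card ≤ h' * j0 := by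
    have h1 := Nat.lt_mul_div_succ (X * J.card + (h' - 1)) hh'pos
    rw [← hj0] at h1
    rw [Nat.mul_add] at h1
    omega
  have hj02 : h' * j0 ≤ X * J.card + (h' - 1) := Nat.mul_div_le _ _
  have hj0L : j0 ≤ m * L := by
    have : h' * j0 ≤ h' * (m * L) := by
      rw [← mul_assoc, ← hm]
      omega
    exact Nat.le_of_mul_le_mul_left this hh'pos
  refine ⟨J, hJI, h', b + ∑ i ∈ J, β i + h' * j0, m * L - j0, hh'pos, ⟨m, hm⟩, hJK, ?_, ?_, ?_,
    hexc2⟩
  · intro j hj
    have h1 := hcov (h' * (j0 + j)) ?_ ?_ ?_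
    · convert h1 using 1
      ring
    · exact hj01.trans (Nat.mul_le_mul_left _ (by omega))
    · rw [hm, mul_assoc]
      exact Nat.mul_le_mul_left _ (by omega)
    · have : ((h' * (j0 + j) : ℕ) : ZMod h') = 0 := by
        rw [ZMod.natCast_eq_zero_iff]
        exact dvd_mul_right _ _
      rw [this]
      exact Res_zero_mem
  · have h1 : h' * (m * L - j0) + h' * j0 = h * L := by
      rw [← Nat.mul_add, Nat.sub_add_cancel hj0L, hm, mul_assoc]
    omega
  · intro i hi
    have := (hmem' _).1 (hst i hi)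
    exact_mod_cast this

end Pool.Agent.Helper840.E48
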