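import Pool.Agent.Helper840.E48Base

set_option autoImplicit false

namespace Pool.Agent.Helper840.E48

open Finset

/-- the increasing enumeration of an infinite subset-sum-free set of positive integers -/
structure SSFree (a : ℕ → ℕ) : Prop where
  mono : StrictMono a
  pos : ∀ n, 0 < a n
  free : ∀ n, ∀ B : Finset ℕ, B ⊆ Finset.range n → ∑ i ∈ B, a i ≠ a n

theorem SSFree.le_self {a : ℕ → ℕ} (hs : SSFree a) (n : ℕ) : n ≤ a n := hs.mono.le_apply

theorem SSFree.superlinear {a : ℕ → ℕ} (hs : SSFree a) (C : ℕ) :
    ∃ n₁, ∀ n ≥ n₁, C * n ≤ a n := by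
  classical
  set k := 2 * C with hk
  set s : ℕ → ℕ := fun j => ∑ i ∈ Finset.range j, a i with hsdef
  have hkey : ∀ n, k ≤ n → k * (n - k) ≤ a n + s k := by
    intro n hn
    have h1 : ((Finset.range k) ×ˢ (Finset.Ico k n)).card ≤ (Finset.range (a n + s k)).card := by
      apply Finset.card_le_card_of_injOn (fun p => a p.2 + s p.1)
      · rintro ⟨j, i⟩ hp
        have hp := Finset.mem_product.mp (Finset.mem_coe.mp hp)
        simp only [Finset.mem_range, Finset.mem_Ico] at hp
        simp only [Finset.coe_range, Set.mem_Iio]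
        have e1 : a i < a n := hs.mono hp.2.2
        have e2 : s j ≤ s k := by
          apply Finset.sum_le_sum_of_subset
          intro x hx
          rw [Finset.mem_range] at hx ⊢
          omega
        omega
      · have hmain : ∀ j i j' i', j < k → k ≤ i → j' < k → k ≤ i' → j < j' →
            a i + s j = a i' + s j' → False := by
          intro j i j' i' hj hi hj' hi' hlt heq
          have e1 : s j' = s j + ∑ l ∈ Finset.Ico j j', a l := by
            simp only [hsdef]
            rw [Finset.range_eq_Ico, Finset.range_eq_Ico,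
              Finset.sum_Ico_consecutive _ (Nat.zero_le _) hlt.le]
          have e2 : a i = a i' + ∑ l ∈ Finset.Ico j j', a l := by omega
          have e3 : 0 < ∑ l ∈ Finset.Ico j j', a l :=
            Finset.sum_pos (fun l _ => hs.pos l) (Finset.nonempty_Ico.mpr hlt)
          have e4 : i' < i := by
            rw [← hs.mono.lt_iff_lt]; omega
          have e5 : i' ∉ Finset.Ico j j' := by
            rw [Finset.mem_Ico]; omega
          apply hs.free i (insert i' (Finset.Ico j j'))
          · intro x hx
            rw [Finset.mem_insert, Finset.mem_Ico] at hx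
            rw [Finset.mem_range]
            omega
          · rw [Finset.sum_insert e5]
            exact e2.symm
        rintro ⟨j, i⟩ hp ⟨j', i'⟩ hp' heq
        have hp := Finset.mem_product.mp (Finset.mem_coe.mp hp)
        have hp' := Finset.mem_product.mp (Finset.mem_coe.mp hp')
        simp only [Finset.mem_range, Finset.mem_Ico] at hp hp' heq
        rcases lt_trichotomy j j' with h | h | h
        · exact (hmain j i j' i' hp.1 hp.2.1 hp'.1 hp'.2.1 h heq).elim
        · subst h
          have : a i = a i' := by omega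
          rw [hs.mono.injective this]
        · exact (hmain j' i' j i hp'.1 hp'.2.1 hp.1 hp.2.1 h heq.symm).elim
    rw [Finset.card_product, Finset.card_range, Finset.card_range, Nat.card_Ico] at h1
    exact h1
  refine ⟨k + k * k + s k, ?_⟩
  intro n hn
  rcases Nat.eq_zero_or_pos C with rfl | hC
  · simp
  · have h1 := hkey n (by omega)
    obtain ⟨m, rfl⟩ := Nat.exists_eq_add_of_le (show k ≤ n by omega)
    rw [Nat.add_sub_cancel_left] at h1
    have h2 : k * m = 2 * (C * m) := by rw [hk]; ring
    have h3 : C * (k + m) = C * k + C * m := by ring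
    have h4 : C * k ≤ k * k := Nat.mul_le_mul_right _ (by omega)
    have h5 : m ≤ C * m := Nat.le_mul_of_pos_left _ hC
    omega

theorem gap_sum {a : ℕ → ℕ} {n₀ : ℕ} (hgap : ∀ n ≥ n₀, a (n + 1) ≤ a n + (n + 1)) {i : ℕ}
    (hi : n₀ ≤ i) (e : ℕ) : a (i + e) ≤ a i + e * (i + e) := by
  induction e with
  | zero => simp
  | succ e ih =>
    have h1 := hgap (i + e) (by omega)
    have h2 : (e + 1) * (i + (e + 1)) = e * (i + e) + e + (i + e) + 1 := by ring
    rw [h2]
    have h3 : i + (e + 1) = i + e + 1 := by ring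
    rw [h3]
    omega

theorem sq_bound {a : ℕ → ℕ} {n₀ : ℕ} (hgap : ∀ n ≥ n₀, a (n + 1) ≤ a n + (n + 1)) :
    ∃ n₁, ∀ n ≥ n₁, a n ≤ n ^ 2 := by
  have h1 : ∀ e, 2 * a (n₀ + e) ≤ 2 * a n₀ + (n₀ + e) * (n₀ + e + 1) := by
    intro e
    induction e with
    | zero => simp only [Nat.add_zero]; omega
    | succ e ih =>
      have h1 := hgap (n₀ + e) (by omega)
      have h2 : (n₀ + (e + 1)) * (n₀ + (e + 1) + 1) =
          (n₀ + e) * (n₀ + e + 1) + 2 * (n₀ + e) + 2 := by ring
      rw [h2]
      have h3 : n₀ + (e + 1) = n₀ + e + 1 := by ring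
      rw [h3]
      omega
  refine ⟨n₀ + 2 * a n₀ + 3, ?_⟩
  intro n hn
  obtain ⟨e, rfl⟩ := Nat.exists_eq_add_of_le (show n₀ ≤ n by omega)
  have h2 := h1 e
  have h3 : 2 * a n₀ + (n₀ + e) ≤ (n₀ + e) * (n₀ + e) := by
    calc 2 * a n₀ + (n₀ + e) ≤ 2 * (n₀ + e) := by omega
      _ ≤ (n₀ + e) * (n₀ + e) := Nat.mul_le_mul_right _ (by omega)
  have h4 : (n₀ + e) * (n₀ + e + 1) = (n₀ + e) * (n₀ + e) + (n₀ + e) := by ring
  rw [pow_two]
  omega

theorem doubling_often {a : ℕ → ℕ} (hs : SSFree a) {Θ : ℕ} (hΘ : 4 ≤ Θ) (j₀ : ℕ) :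
    ∃ j ≥ j₀, 2 * a (Θ ^ j) ≤ a (Θ ^ (j + 1)) := by
  by_contra hcon
  push Not at hcon
  have h1 : ∀ e, a (Θ ^ (j₀ + e)) ≤ 2 ^ e * a (Θ ^ j₀) := by
    intro e
    induction e with
    | zero => simp
    | succ e ih =>
      have h2 := hcon (j₀ + e) (by omega)
      calc a (Θ ^ (j₀ + (e + 1))) = a (Θ ^ (j₀ + e + 1)) := by rw [add_assoc]
        _ ≤ 2 * a (Θ ^ (j₀ + e)) := h2.le
        _ ≤ 2 * (2 ^ e * a (Θ ^ j₀)) := Nat.mul_le_mul_left _ ih
        _ = 2 ^ (e + 1) * a (Θ ^ j₀) := by ring
  set e := a (Θ ^ j₀) with he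
  have h2 := h1 e
  have h3 := hs.le_self (Θ ^ (j₀ + e))
  have h4 : 2 ^ e * 2 ^ e ≤ Θ ^ (j₀ + e) := by
    calc 2 ^ e * 2 ^ e = 4 ^ e := by rw [← mul_pow]; norm_num
      _ ≤ Θ ^ e := Nat.pow_le_pow_left hΘ e
      _ ≤ Θ ^ (j₀ + e) := Nat.pow_le_pow_right (by omega) (by omega)
  have h5 : 2 ^ e * 2 ^ e ≤ 2 ^ e * e := by
    refine h4.trans (h3.trans (h2.trans_eq ?_))
    rfl
  have h6 : 2 ^ e ≤ e := Nat.le_of_mul_le_mul_left h5 (by positivity)
  exact absurd h6 (not_le.mpr Nat.lt_two_pow_self)

theorem HasAP.add_block {a : ℕ → ℕ} {U F : Finset ℕ} {b h L : ℕ} (hA : HasAP a U b h L)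
    (hh : 0 < h) (hUF : Disjoint F U) (hdvd : h ∣ ∑ i ∈ F, a i)
    (hle : ∑ i ∈ F, a i ≤ h * (L + 1)) :
    HasAP a (U ∪ F) b h (L + (∑ i ∈ F, a i) / h) := by
  have hfam : IsFam a ({()} : Finset Unit) (fun _ => F) (fun _ => 0) (fun _ => ∑ i ∈ F, a i) := by
    refine ⟨fun _ _ => SS_zero a F, fun _ _ => ⟨F, le_rfl, by simp⟩, ?_⟩
    intro x _ y _ hxy
    exact absurd (Subsingleton.elim x y) hxy
  have := hA.extend hh hfam (fun _ _ => hUF) (fun _ _ => hdvd) (fun _ _ => hle) {()} le_rfl
  simpa using this

theorem final_lemma {a : ℕ → ℕ} (hs : SSFree a) {U : Finset ℕ} {V : Set ℕ} [DecidablePred (· ∈ V)]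
    {b q L i' : ℕ} (hq : 0 < q) (hqb : q ∣ b) (hA : HasAP a U b q L) (hUV : ∀ i ∈ U, i ∉ V)
    (hi'V : i' ∉ V) (hi'U : i' ∉ U)
    (hcond : ∀ k ∈ V, 3 * q * a k ≤ q * L + ∑ i ∈ (Finset.range k).filter (· ∈ V), a i)
    (hinf : {k | k ∈ V ∧ a k ≡ a i' [MOD q]}.Infinite) : False := by
  classical
  set Vn : ℕ → Finset ℕ := fun n => (Finset.range n).filter (· ∈ V) with hVn
  have hsmall : ∀ n, ∀ i ∈ Vn n, a i ≤ a n := by
    intro n i hi
    rw [hVn] at hi
    simp only [Finset.mem_filter, Finset.mem_range] at hi
    exact (hs.mono hi.1).le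
  have hFsum : ∀ n, ∀ F ⊆ Vn n, F.card < 2 * q - 1 → ∑ i ∈ F, a i + 2 * a n ≤ 2 * q * a n := by
    intro n F hF hFc
    have h1 : ∑ i ∈ F, a i ≤ F.card * a n := by
      rw [← smul_eq_mul, ← Finset.sum_const]
      exact Finset.sum_le_sum (fun i hi => hsmall n i (hF hi))
    have h2 : F.card * a n + 2 * a n ≤ 2 * q * a n := by
      rw [← Nat.add_mul]
      exact Nat.mul_le_mul_right _ (by omega)
    omega
  have hinv : ∀ n, ∃ F ⊆ Vn n, F.card < 2 * q - 1 ∧ ∃ L', HasAP a (U ∪ (Vn n \ F)) b q L' ∧
      q * L' = q * L + ∑ i ∈ Vn n \ F, a i := by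
    intro n
    induction n with
    | zero =>
      refine ⟨∅, by simp, by simp only [Finset.card_empty]; omega, L, ?_, ?_⟩
      · simpa [hVn] using hA
      · simp [hVn]
    | succ n ih =>
      obtain ⟨F, hF, hFc, L', hAP, hL'⟩ := ih
      by_cases hn : n ∈ V
      · have hVs : Vn (n + 1) = insert n (Vn n) := by
          simp only [hVn]
          rw [Finset.range_add_one, Finset.filter_insert, if_pos hn]
        have hnV : n ∉ Vn n := by simp [hVn]
        have hnF : n ∉ F := fun h => hnV (hF h)
        have hFi : (insert n F).card = F.card + 1 := Finset.card_insert_of_notMem hnF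
        have hFV : insert n F ⊆ Vn (n + 1) := by
          rw [hVs]; exact Finset.insert_subset_insert n hF
        by_cases hc : F.card + 1 < 2 * q - 1
        · refine ⟨insert n F, hFV, by omega, L', ?_⟩
          have : Vn (n + 1) \ insert n F = Vn n \ F := by
            rw [hVs]
            ext x
            simp only [Finset.mem_sdiff, Finset.mem_insert]
            constructor
            · rintro ⟨h1 | h1, h2⟩
              · exact absurd (Or.inl h1) h2
              · exact ⟨h1, fun h3 => h2 (Or.inr h3)⟩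
            · rintro ⟨h1, h2⟩
              refine ⟨Or.inr h1, ?_⟩
              rintro (h3 | h3)
              · subst h3; exact hnV h1
              · exact h2 h3
          rw [this]
          exact ⟨hAP, hL'⟩
        · obtain ⟨F₁, hF₁, hF₁c, hF₁d⟩ := Int.erdos_ginzburg_ziv (n := q) (s := insert n F)
            (fun i => (a i : ℤ)) (by omega)
          have hF₁d' : q ∣ ∑ i ∈ F₁, a i := by
            have : (q : ℤ) ∣ ((∑ i ∈ F₁, a i : ℕ) : ℤ) := by push_cast; exact hF₁d
            exact_mod_cast this
          have hD : ∑ i ∈ F₁, a i ≤ q * a n := by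
            calc ∑ i ∈ F₁, a i ≤ ∑ i ∈ F₁, a n := by
                  apply Finset.sum_le_sum
                  intro i hi
                  rcases Finset.mem_insert.mp (hF₁ hi) with rfl | h
                  · exact le_rfl
                  · exact hsmall n i (hF h)
              _ = q * a n := by rw [Finset.sum_const, hF₁c, smul_eq_mul]
          have hsplit : ∑ i ∈ Vn n \ F, a i + ∑ i ∈ F, a i = ∑ i ∈ Vn n, a i :=
            Finset.sum_sdiff hF
          have h3 := hcond n hn
          have h4 := hFsum n F hF hFc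
          have h5 : 3 * q * a n = 3 * (q * a n) := by ring
          have h6 : 2 * q * a n = 2 * (q * a n) := by ring
          rw [h5] at h3
          rw [h6] at h4
          change 3 * (q * a n) ≤ q * L + ∑ i ∈ Vn n, a i at h3
          have hdisj : Disjoint F₁ (U ∪ (Vn n \ F)) := by
            rw [Finset.disjoint_left]
            intro x hx hx'
            have hxin := hF₁ hx
            rw [Finset.mem_union, Finset.mem_sdiff] at hx'
            rcases hx' with h7 | h7
            · apply hUV x h7
              have := hFV hxin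
              simp only [hVn, Finset.mem_filter] at this
              exact this.2
            · rcases Finset.mem_insert.mp hxin with rfl | h8
              · exact hnV h7.1
              · exact h7.2 h8
          have hAP' := hAP.add_block hq hdisj hF₁d' (by
            have : q * (L' + 1) = q * L' + q := by ring
            change _ ≤ q * (L' + 1)
            rw [this]
            omega)
          have hset : Vn (n + 1) \ (insert n F \ F₁) = (Vn n \ F) ∪ F₁ := by
            rw [hVs]
            ext x
            simp only [Finset.mem_sdiff, Finset.mem_insert, Finset.mem_union]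
            constructor
            · rintro ⟨h1, h2⟩
              by_cases hx : x ∈ F₁
              · exact Or.inr hx
              · left
                rcases h1 with h1 | h1
                · exfalso; exact h2 ⟨Or.inl h1, hx⟩
                · refine ⟨h1, fun h3 => h2 ⟨Or.inr h3, hx⟩⟩
            · rintro (h1 | h1)
              · refine ⟨Or.inr h1.1, ?_⟩
                rintro ⟨h2 | h2, -⟩
                · subst h2; exact hnV h1.1
                · exact h1.2 h2
              · refine ⟨?_, fun h2 => h2.2 h1⟩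
                rcases Finset.mem_insert.mp (hF₁ h1) with h2 | h2
                · exact Or.inl h2
                · exact Or.inr (hF h2)
          refine ⟨insert n F \ F₁, Finset.sdiff_subset.trans hFV, ?_,
            L' + (∑ i ∈ F₁, a i) / q, ?_, ?_⟩
          · rw [Finset.card_sdiff_of_subset hF₁, hF₁c, hFi]
            omega
          · rw [hset, ← Finset.union_assoc]
            exact hAP'
          · rw [hset, Nat.mul_add, Nat.mul_div_cancel' hF₁d', hL', Finset.sum_union]
            · ring
            · rw [Finset.disjoint_left]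
              intro x hx hx'
              rw [Finset.disjoint_left] at hdisj
              exact hdisj hx' (Finset.mem_union_right _ hx)
      · have hVs : Vn (n + 1) = Vn n := by
          simp only [hVn]
          rw [Finset.range_add_one, Finset.filter_insert, if_neg hn]
        rw [hVs]
        exact ⟨F, hF, hFc, L', hAP, hL'⟩
  -- the contradiction
  obtain ⟨T, hT, hTbig⟩ := hinf.exists_gt (i' + (U.sup id) + b + a i' + b)
  obtain ⟨F, hF, hFc, L', hAP, hL'⟩ := hinv T
  have hTle := hs.le_self T
  have hmod : q ∣ a T - a i' := (Nat.modEq_iff_dvd' (by omega)).1 hT.2.symm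
  have hmod2 : q ∣ a T - a i' - b := Nat.dvd_sub hmod hqb
  obtain ⟨j, hj⟩ := hmod2
  have hsplit : ∑ i ∈ Vn T \ F, a i + ∑ i ∈ F, a i = ∑ i ∈ Vn T, a i := Finset.sum_sdiff hF
  have h3 := hcond T hT.1
  have h4 := hFsum T F hF hFc
  have h5 : 3 * q * a T = 3 * (q * a T) := by ring
  have h6 : 2 * q * a T = 2 * (q * a T) := by ring
  have h7 : a T ≤ q * a T := Nat.le_mul_of_pos_left _ hq
  rw [h5] at h3
  rw [h6] at h4
  have hjL : j ≤ L' := by
    have : q * j ≤ q * L' := by
      change 3 * (q * a T) ≤ q * L + ∑ i ∈ Vn T, a i at h3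
      omega
    exact Nat.le_of_mul_le_mul_left this hq
  obtain ⟨B, hB, hBs⟩ := hAP j hjL
  have hBT : B ⊆ Finset.range T := by
    intro x hx
    rw [Finset.mem_range]
    rcases Finset.mem_union.mp (hB hx) with h | h
    · have : x ≤ U.sup id := Finset.le_sup (f := id) h
      omega
    · have := (Finset.mem_sdiff.mp h).1
      simp only [hVn, Finset.mem_filter, Finset.mem_range] at this
      exact this.1
  have hi'B : i' ∉ B := by
    intro h
    rcases Finset.mem_union.mp (hB h) with h | h
    · exact hi'U h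
    · have := (Finset.mem_sdiff.mp h).1
      simp only [hVn, Finset.mem_filter, Finset.mem_range] at this
      exact hi'V this.2
  apply hs.free T (insert i' B)
  · intro x hx
    rcases Finset.mem_insert.mp hx with rfl | hx
    · rw [Finset.mem_range]; omega
    · exact hBT hx
  · rw [Finset.sum_insert hi'B, hBs]
    have : j * q = q * j := mul_comm _ _
    omega

end Pool.Agent.Helper840.E48
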