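import Pool.Agent.Helper840.E48Stable

set_option autoImplicit false

namespace Pool.Agent.Helper840.E48

open Finset

theorem dvd_sub_iff_cast {h u v : ℕ} (hvu : v ≤ u) : h ∣ u - v ↔ (u : ZMod h) = (v : ZMod h) := by
  rw [← ZMod.natCast_eq_zero_iff, Nat.cast_sub hvu, sub_eq_zero]

theorem class_count {t : ℕ} (ht : 0 < t) (π lo hi : ℕ) (hπ : π < 2) :
    hi ≤ lo + 2 * ((Finset.Ico lo hi).filter (fun c => (c / t) % 2 = π)).card + t := by
  classical
  set P := (Finset.Ico lo hi).filter (fun c => (c / t) % 2 = π) with hP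
  set O := (Finset.Ico lo hi).filter (fun c => ¬ (c / t) % 2 = π) with hO
  have h1 : P.card + O.card = (Finset.Ico lo hi).card := Finset.card_filter_add_card_filter_not _
  rw [Nat.card_Ico] at h1
  have h2 : O ⊆ (Finset.Ico lo (lo + t)) ∪ P.image (fun c => c + t) := by
    intro c hc
    rw [hO, Finset.mem_filter, Finset.mem_Ico] at hc
    rw [Finset.mem_union, Finset.mem_Ico]
    by_cases hlt : c < lo + t
    · left; exact ⟨hc.1.1, hlt⟩
    · right
      rw [Finset.mem_image]
      refine ⟨c - t, ?_, by omega⟩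
      rw [hP, Finset.mem_filter, Finset.mem_Ico]
      refine ⟨by omega, ?_⟩
      have h3 : c / t = (c - t) / t + 1 := by
        rw [← Nat.add_div_right _ ht, Nat.sub_add_cancel (by omega)]
      have h4 := hc.2
      rw [h3] at h4
      omega
  have h3 : O.card ≤ t + P.card := by
    refine (Finset.card_le_card h2).trans ((Finset.card_union_le _ _).trans ?_)
    rw [Nat.card_Ico]
    have := Finset.card_image_le (s := P) (f := fun c => c + t)
    omega
  omega

section
variable {a : ℕ → ℕ} {Λ x₀ : ℕ} {G : Finset ℕ} {z : ℕ → ℕ}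

theorem cell_lt (hz : ∀ c ∈ G, x₀ + Λ * c ≤ a (z c) ∧ a (z c) < x₀ + Λ * (c + 1))
    {c c' : ℕ} (hc : c ∈ G) (hc' : c' ∈ G) (hlt : c < c') : a (z c) < a (z c') := by
  have h1 := (hz c hc).2
  have h2 := (hz c' hc').1
  have h3 : Λ * (c + 1) ≤ Λ * c' := Nat.mul_le_mul_left _ hlt
  omega

theorem cell_inj (hz : ∀ c ∈ G, x₀ + Λ * c ≤ a (z c) ∧ a (z c) < x₀ + Λ * (c + 1))
    {c c' : ℕ} (hc : c ∈ G) (hc' : c' ∈ G) (h : z c = z c') : c = c' := by
  rcases lt_trichotomy c c' with hlt | heq | hgt
  · have := cell_lt hz hc hc' hlt; rw [h] at this; exact absurd this (lt_irrefl _)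
  · exact heq
  · have := cell_lt hz hc' hc hgt; rw [h] at this; exact absurd this (lt_irrefl _)

theorem cell_bounds (hz : ∀ c ∈ G, x₀ + Λ * c ≤ a (z c) ∧ a (z c) < x₀ + Λ * (c + 1))
    {c t : ℕ} (hc : c ∈ G) (hc' : c + t ∈ G) :
    a (z c) + Λ * t < a (z (c + t)) + Λ ∧ a (z (c + t)) < a (z c) + Λ * (t + 1) := by
  have h1 := hz c hc
  have h2 := hz _ hc'
  have e1 : Λ * (c + 1) = Λ * c + Λ := by ring
  have e2 : Λ * (c + t) = Λ * c + Λ * t := by ring
  have e3 : Λ * (c + t + 1) = Λ * c + Λ * t + Λ := by ring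
  have e4 : Λ * (t + 1) = Λ * t + Λ := by ring
  rw [e1] at h1
  rw [e2, e3] at h2
  rw [e4]
  omega

/-- elements of one class: the pairs `{c, c+t}` are disjoint -/
theorem class_ne {t : ℕ} (ht : 0 < t) {π c c' : ℕ} (hc : (c / t) % 2 = π)
    (hc' : (c' / t) % 2 = π) : c + t ≠ c' := by
  rintro rfl
  rw [Nat.add_div_right _ ht] at hc'
  omega

theorem pairFam (hz : ∀ c ∈ G, x₀ + Λ * c ≤ a (z c) ∧ a (z c) < x₀ + Λ * (c + 1))
    {t π : ℕ} (ht : 0 < t) {I : Finset ℕ} (hI : ∀ c ∈ I, c ∈ G ∧ c + t ∈ G ∧ (c / t) % 2 = π) :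
    IsFam a I (fun c => {z c, z (c + t)}) (fun c => a (z c))
      (fun c => a (z (c + t)) - a (z c)) := by
  refine ⟨?_, ?_, ?_⟩
  · intro c hc
    exact SS_single (by simp)
  · intro c hc
    obtain ⟨h1, h2, h3⟩ := hI c hc
    have h4 := cell_lt hz h1 h2 (by omega)
    have : a (z c) + (a (z (c + t)) - a (z c)) = a (z (c + t)) := by omega
    rw [this]
    exact SS_single (by simp)
  · intro c hc c' hc' hne
    obtain ⟨h1, h2, h3⟩ := hI c (by exact_mod_cast hc)
    obtain ⟨h1', h2', h3'⟩ := hI c' (by exact_mod_cast hc')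
    simp only [Function.onFun]
    rw [Finset.disjoint_left]
    intro x hx hx'
    rw [Finset.mem_insert, Finset.mem_singleton] at hx hx'
    rcases hx with rfl | rfl
    · rcases hx' with hx' | hx'
      · exact hne (cell_inj hz h1 h1' hx')
      · exact class_ne ht h3' h3 (cell_inj hz h1 h2' hx').symm
    · rcases hx' with hx' | hx'
      · exact class_ne ht h3 h3' (cell_inj hz h2 h1' hx')
      · have := cell_inj hz h2 h2' hx'
        omega

theorem quadFam (hz : ∀ c ∈ G, x₀ + Λ * c ≤ a (z c) ∧ a (z c) < x₀ + Λ * (c + 1))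
    {t π : ℕ} (ht : 0 < t) {I : Finset ℕ} (hI : ∀ c ∈ I, c ∈ G ∧ c + t ∈ G ∧ (c / t) % 2 = π)
    {φ : ℕ → ℕ} (hφ : ∀ c ∈ I, φ c ∈ G ∧ φ c + t ∈ G ∧ (φ c / t) % 2 = π)
    (hφI : ∀ c ∈ I, φ c ∉ I) (hφinj : ∀ c ∈ I, ∀ c' ∈ I, φ c = φ c' → c = c') :
    IsFam a I (fun c => {z c, z (c + t), z (φ c), z (φ c + t)})
      (fun c => min (a (z (c + t)) + a (z (φ c))) (a (z c) + a (z (φ c + t))))
      (fun c => max (a (z (c + t)) + a (z (φ c))) (a (z c) + a (z (φ c + t))) -
        min (a (z (c + t)) + a (z (φ c))) (a (z c) + a (z (φ c + t)))) := by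
  have hu : ∀ c ∈ I, a (z (c + t)) + a (z (φ c)) ∈
      SS a ({z c, z (c + t), z (φ c), z (φ c + t)} : Finset ℕ) := by
    intro c hc
    refine ⟨{z (c + t), z (φ c)}, ?_, ?_⟩
    · intro x hx
      simp only [Finset.mem_insert, Finset.mem_singleton] at hx ⊢
      tauto
    · rw [Finset.sum_pair]
      intro h
      have := cell_inj hz (hI c hc).2.1 (hφ c hc).1 h
      exact class_ne ht (hI c hc).2.2 (hφ c hc).2.2 this
  have hv : ∀ c ∈ I, a (z c) + a (z (φ c + t)) ∈
      SS a ({z c, z (c + t), z (φ c), z (φ c + t)} : Finset ℕ) := by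
    intro c hc
    refine ⟨{z c, z (φ c + t)}, ?_, ?_⟩
    · intro x hx
      simp only [Finset.mem_insert, Finset.mem_singleton] at hx ⊢
      tauto
    · rw [Finset.sum_pair]
      intro h
      have := cell_inj hz (hI c hc).1 (hφ c hc).2.1 h
      exact class_ne ht (hφ c hc).2.2 (hI c hc).2.2 this.symm
  refine ⟨?_, ?_, ?_⟩
  · intro c hc
    rcases min_choice (a (z (c + t)) + a (z (φ c))) (a (z c) + a (z (φ c + t))) with h | h
    · rw [h]; exact hu c hc
    · rw [h]; exact hv c hc
  · intro c hc
    have h0 : min (a (z (c + t)) + a (z (φ c))) (a (z c) + a (z (φ c + t))) +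
        (max (a (z (c + t)) + a (z (φ c))) (a (z c) + a (z (φ c + t))) -
        min (a (z (c + t)) + a (z (φ c))) (a (z c) + a (z (φ c + t)))) =
        max (a (z (c + t)) + a (z (φ c))) (a (z c) + a (z (φ c + t))) := by
      have := min_le_max (a := a (z (c + t)) + a (z (φ c))) (b := a (z c) + a (z (φ c + t)))
      omega
    rw [h0]
    rcases max_choice (a (z (c + t)) + a (z (φ c))) (a (z c) + a (z (φ c + t))) with h | h
    · rw [h]; exact hu c hc
    · rw [h]; exact hv c hc
  · intro c hc c' hc' hne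
    have hc := Finset.mem_coe.mp hc
    have hc' := Finset.mem_coe.mp hc'
    obtain ⟨h1, h2, h3⟩ := hI c hc
    obtain ⟨h1', h2', h3'⟩ := hI c' hc'
    obtain ⟨g1, g2, g3⟩ := hφ c hc
    obtain ⟨g1', g2', g3'⟩ := hφ c' hc'
    have k1 : φ c ≠ c' := by rintro h; exact hφI c hc (h ▸ hc')
    have k2 : φ c' ≠ c := by rintro h; exact hφI c' hc' (h ▸ hc)
    have k3 : φ c ≠ φ c' := fun h => hne (hφinj c hc c' hc' h)
    simp only [Function.onFun]
    rw [Finset.disjoint_left]
    intro x hx hx'
    simp only [Finset.mem_insert, Finset.mem_singleton] at hx hx'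
    rcases hx with rfl | rfl | rfl | rfl
    · rcases hx' with hx' | hx' | hx' | hx'
      · exact hne (cell_inj hz h1 h1' hx')
      · exact class_ne ht h3' h3 (cell_inj hz h1 h2' hx').symm
      · exact k2 (cell_inj hz h1 g1' hx').symm
      · exact class_ne ht g3' h3 (cell_inj hz h1 g2' hx').symm
    · rcases hx' with hx' | hx' | hx' | hx'
      · exact class_ne ht h3 h3' (cell_inj hz h2 h1' hx')
      · have := cell_inj hz h2 h2' hx'; omega
      · exact class_ne ht h3 g3' (cell_inj hz h2 g1' hx')
      · have := cell_inj hz h2 g2' hx'; omega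
    · rcases hx' with hx' | hx' | hx' | hx'
      · exact k1 (cell_inj hz g1 h1' hx')
      · exact class_ne ht h3' g3 (cell_inj hz g1 h2' hx').symm
      · exact k3 (cell_inj hz g1 g1' hx')
      · exact class_ne ht g3' g3 (cell_inj hz g1 g2' hx').symm
    · rcases hx' with hx' | hx' | hx' | hx'
      · exact class_ne ht g3 h3' (cell_inj hz g2 h1' hx')
      · have := cell_inj hz g2 h2' hx'; omega
      · exact class_ne ht g3 g3' (cell_inj hz g2 g1' hx')
      · have := cell_inj hz g2 g2' hx'; omega

end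

/-- the cells `c` for which the pair `(c, c+t)` is available but has a difference not divisible
by `h` -/
def Bad (a : ℕ → ℕ) (z : ℕ → ℕ) (Av : Finset ℕ) (h t : ℕ) : Finset ℕ :=
  Av.filter (fun c => c + t ∈ Av ∧ (a (z (c + t)) : ZMod h) ≠ (a (z c) : ZMod h))

theorem mem_Bad {a : ℕ → ℕ} {z : ℕ → ℕ} {Av : Finset ℕ} {h t c : ℕ} :
    c ∈ Bad a z Av h t ↔ c ∈ Av ∧ c + t ∈ Av ∧
      (a (z (c + t)) : ZMod h) ≠ (a (z c) : ZMod h) := by
  simp [Bad]

theorem stable_bound {h K n : ℕ} (hK : 0 < K) (h1 : (n + 1) * K ≤ h) : n + 1 ≤ h / K :=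
  (Nat.le_div_iff_mul_le hK).2 h1

theorem bad_total {a : ℕ → ℕ} {z : ℕ → ℕ} {Av : Finset ℕ} {h t E : ℕ}
    (hE : ∀ π < 2, ((Bad a z Av h t).filter (fun c => (c / t) % 2 = π)).card ≤ E) :
    (Bad a z Av h t).card ≤ 2 * E := by
  have h0 := hE 0 (by norm_num)
  have h1 := hE 1 (by norm_num)
  have h2 : Bad a z Av h t ⊆ (Bad a z Av h t).filter (fun c => (c / t) % 2 = 0) ∪
      (Bad a z Av h t).filter (fun c => (c / t) % 2 = 1) := by
    intro c hc
    rw [Finset.mem_union, Finset.mem_filter, Finset.mem_filter]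
    rcases Nat.mod_two_eq_zero_or_one (c / t) with h | h
    · left; exact ⟨hc, h⟩
    · right; exact ⟨hc, h⟩
  have := (Finset.card_le_card h2).trans (Finset.card_union_le _ _)
  omega

theorem near_one {a : ℕ → ℕ} {Λ x₀ K h : ℕ} {Av : Finset ℕ} {z : ℕ → ℕ} (hK : 0 < K)
    (hz : ∀ c ∈ Av, x₀ + Λ * c ≤ a (z c) ∧ a (z c) < x₀ + Λ * (c + 1))
    {Z : Finset ℕ} (hZ : ∀ c ∈ Av, z c ∈ Z) (hst : Stable a Z K (2 * Λ) h) (π : ℕ) :
    ((Bad a z Av h 1).filter (fun c => (c / 1) % 2 = π)).card ≤ h / K := by
  set I := (Bad a z Av h 1).filter (fun c => (c / 1) % 2 = π) with hI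
  have hI' : ∀ c ∈ I, c ∈ Av ∧ c + 1 ∈ Av ∧ (c / 1) % 2 = π := by
    intro c hc
    rw [hI, Finset.mem_filter, mem_Bad] at hc
    exact ⟨hc.1.1, hc.1.2.1, hc.2⟩
  have hfam := pairFam hz (by omega : 0 < 1) hI'
  have h1 := hst I _ _ _ hfam ?_ ?_ ?_
  · have h2 : I.filter (fun c => ¬ h ∣ a (z (c + 1)) - a (z c)) = I := by
      rw [Finset.filter_eq_self]
      intro c hc
      obtain ⟨m1, m2, m3⟩ := hI' c hc
      rw [dvd_sub_iff_cast (cell_lt hz m1 m2 (by omega)).le]
      rw [hI, Finset.mem_filter, mem_Bad] at hc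
      exact hc.1.2.2
    rw [h2] at h1
    have := stable_bound hK h1
    omega
  · intro c hc
    obtain ⟨m1, m2, m3⟩ := hI' c hc
    intro x hx
    simp only [Finset.mem_insert, Finset.mem_singleton] at hx
    rcases hx with rfl | rfl
    · exact hZ _ m1
    · exact hZ _ m2
  · intro c hc
    exact (Finset.card_le_two).trans (by norm_num)
  · intro c hc
    obtain ⟨m1, m2, m3⟩ := hI' c hc
    have := (cell_bounds hz m1 m2).2
    omega

theorem near_const {a : ℕ → ℕ} {Λ x₀ K h M' N₀ : ℕ} {Av : Finset ℕ} {z : ℕ → ℕ} (hK : 0 < K)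
    (hz : ∀ c ∈ Av, x₀ + Λ * c ≤ a (z c) ∧ a (z c) < x₀ + Λ * (c + 1))
    {Z : Finset ℕ} (hZ : ∀ c ∈ Av, z c ∈ Z) (hst : Stable a Z K (2 * Λ) h)
    (hAv : Av ⊆ Finset.range M') (hAvc : M' ≤ Av.card + N₀)
    (hnum : 64 * (N₀ + h / K + 1) ≤ M') :
    ∀ t : ℕ, 0 < t → 8 * t ≤ M' → ∀ π < 2,
      ((Bad a z Av h t).filter (fun c => (c / t) % 2 = π)).card ≤ h / K := by
  have hmissing : ((Finset.range M') \ Av).card ≤ N₀ := by
    rw [Finset.card_sdiff_of_subset hAv, Finset.card_range]
    omega
  intro t
  induction t with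
  | zero => intro h0; exact absurd h0 (lt_irrefl _)
  | succ t ih =>
    intro _ h8 π hπ
    rcases Nat.eq_zero_or_pos t with rfl | htpos
    · exact near_one hK hz hZ hst π
    · -- quadruples
      by_contra hcon
      push Not at hcon
      have hBadt : (Bad a z Av h t).card ≤ 2 * (h / K) := bad_total (ih htpos (by omega))
      have hBad1 : (Bad a z Av h 1).card ≤ 2 * (h / K) :=
        bad_total (fun π _ => near_one hK hz hZ hst π)
      set T := t + 1 with hT
      have hTpos : 0 < T := by omega
      -- good cells of the class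
      set C := (Finset.Ico 0 (M' - T)).filter (fun c => (c / T) % 2 = π) with hC
      have hCc := class_count hTpos π 0 (M' - T) hπ
      rw [← hC] at hCc
      set Gd := C.filter (fun c => c ∈ Av ∧ c + 1 ∈ Av ∧ c + T ∈ Av ∧ c ∉ Bad a z Av h 1 ∧
        c + 1 ∉ Bad a z Av h t) with hGd
      have hGdc : C.card ≤ Gd.card + 3 * N₀ + 4 * (h / K) := by
        have hsub : C ⊆ Gd ∪ (((Finset.range M') \ Av) ∪
            ((((Finset.range M') \ Av).image (fun c => c - 1)) ∪
            ((((Finset.range M') \ Av).image (fun c => c - T)) ∪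
            ((Bad a z Av h 1) ∪ ((Bad a z Av h t).image (fun c => c - 1)))))) := by
          intro c hc
          have hc' := hc
          rw [hC, Finset.mem_filter, Finset.mem_Ico] at hc'
          simp only [Finset.mem_union, Finset.mem_image, Finset.mem_sdiff, Finset.mem_range]
          by_cases h1 : c ∈ Av
          · by_cases h2 : c + 1 ∈ Av
            · by_cases h3 : c + T ∈ Av
              · by_cases h4 : c ∈ Bad a z Av h 1
                · tauto
                · by_cases h5 : c + 1 ∈ Bad a z Av h t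
                  · right; right; right; right; right
                    exact ⟨c + 1, h5, by omega⟩
                  · left
                    rw [hGd, Finset.mem_filter]
                    exact ⟨hc, h1, h2, h3, h4, h5⟩
              · right; right; right; left
                exact ⟨c + T, ⟨by omega, h3⟩, by omega⟩
            · right; right; left
              exact ⟨c + 1, ⟨by omega, h2⟩, by omega⟩
          · right; left; exact ⟨by omega, h1⟩
        have e1 := Finset.card_le_card hsub
        have e2 := Finset.card_union_le Gd (((Finset.range M') \ Av) ∪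
            ((((Finset.range M') \ Av).image (fun c => c - 1)) ∪
            ((((Finset.range M') \ Av).image (fun c => c - T)) ∪
            ((Bad a z Av h 1) ∪ ((Bad a z Av h t).image (fun c => c - 1))))))
        have e3 := Finset.card_union_le ((Finset.range M') \ Av)
            ((((Finset.range M') \ Av).image (fun c => c - 1)) ∪
            ((((Finset.range M') \ Av).image (fun c => c - T)) ∪
            ((Bad a z Av h 1) ∪ ((Bad a z Av h t).image (fun c => c - 1)))))
        have e4 := Finset.card_union_le (((Finset.range M') \ Av).image (fun c => c - 1))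
            ((((Finset.range M') \ Av).image (fun c => c - T)) ∪
            ((Bad a z Av h 1) ∪ ((Bad a z Av h t).image (fun c => c - 1))))
        have e5 := Finset.card_union_le (((Finset.range M') \ Av).image (fun c => c - T))
            ((Bad a z Av h 1) ∪ ((Bad a z Av h t).image (fun c => c - 1)))
        have e6 := Finset.card_union_le (Bad a z Av h 1)
          ((Bad a z Av h t).image (fun c => c - 1))
        have f1 := Finset.card_image_le (s := (Finset.range M') \ Av) (f := fun c => c - 1)
        have f2 := Finset.card_image_le (s := (Finset.range M') \ Av) (f := fun c => c - T)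
        have f3 := Finset.card_image_le (s := Bad a z Av h t) (f := fun c => c - 1)
        omega
      have hGdbig : h / K + 1 ≤ Gd.card := by omega
      -- choose `E + 1` bad cells and an injection into the good cells
      obtain ⟨I, hIsub, hIc⟩ := Finset.exists_subset_card_eq
        (show h / K + 1 ≤ ((Bad a z Av h T).filter (fun c => (c / T) % 2 = π)).card by omega)
      obtain ⟨φ, hφmaps, hφinj⟩ : ∃ φ : ℕ → ℕ, (∀ c ∈ I, φ c ∈ Gd) ∧
          (∀ c ∈ I, ∀ c' ∈ I, φ c = φ c' → c = c') := by
        have hle : I.card ≤ Gd.card := by omega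
        obtain ⟨Gd', hGd'sub, hGd'c⟩ := Finset.exists_subset_card_eq hle
        let e := Finset.equivOfCardEq hGd'c.symm
        refine ⟨fun c => if h : c ∈ I then (e ⟨c, h⟩ : ℕ) else 0, ?_, ?_⟩
        · intro c hc
          simp only [hc, dif_pos]
          exact hGd'sub (e ⟨c, hc⟩).2
        · intro c hc c' hc' heq
          simp only [hc, hc', dif_pos] at heq
          have := e.injective (Subtype.ext heq)
          exact congrArg Subtype.val this
      have hIm : ∀ c ∈ I, c ∈ Av ∧ c + T ∈ Av ∧ (c / T) % 2 = π := by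
        intro c hc
        have := hIsub hc
        rw [Finset.mem_filter, mem_Bad] at this
        exact ⟨this.1.1, this.1.2.1, this.2⟩
      have hIbad : ∀ c ∈ I, (a (z (c + T)) : ZMod h) ≠ (a (z c) : ZMod h) := by
        intro c hc
        have := hIsub hc
        rw [Finset.mem_filter, mem_Bad] at this
        exact this.1.2.2
      have hGm : ∀ c ∈ Gd, c ∈ Av ∧ c + T ∈ Av ∧ (c / T) % 2 = π := by
        intro c hc
        rw [hGd, Finset.mem_filter, hC, Finset.mem_filter] at hc
        exact ⟨hc.2.1, hc.2.2.2.1, hc.1.2⟩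
      have hGgood : ∀ c ∈ Gd, (a (z (c + T)) : ZMod h) = (a (z c) : ZMod h) := by
        intro c hc
        rw [hGd, Finset.mem_filter] at hc
        obtain ⟨-, m1, m2, m3, m4, m5⟩ := hc
        rw [mem_Bad] at m4 m5
        have e : c + 1 + t = c + T := by omega
        rw [e] at m5
        have h1 : (a (z (c + 1)) : ZMod h) = (a (z c) : ZMod h) := by
          by_contra hne; exact m4 ⟨m1, m2, hne⟩
        have h2 : (a (z (c + T)) : ZMod h) = (a (z (c + 1)) : ZMod h) := by
          by_contra hne; exact m5 ⟨m2, m3, hne⟩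
        rw [h2, h1]
      have hfam := quadFam hz hTpos hIm (fun c hc => hGm _ (hφmaps c hc))
        (fun c hc hcon => hIbad _ hcon (hGgood _ (hφmaps c hc))) hφinj
      have h1 := hst I _ _ _ hfam ?_ ?_ ?_
      · have h2 : I.filter (fun c => ¬ h ∣
            max (a (z (c + T)) + a (z (φ c))) (a (z c) + a (z (φ c + T))) -
            min (a (z (c + T)) + a (z (φ c))) (a (z c) + a (z (φ c + T)))) = I := by
          rw [Finset.filter_eq_self]
          intro c hc
          rw [dvd_sub_iff_cast min_le_max]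
          have g1 := hIbad c hc
          have g2 := hGgood _ (hφmaps c hc)
          intro hcon
          apply g1
          rcases le_total (a (z (c + T)) + a (z (φ c))) (a (z c) + a (z (φ c + T))) with hle | hle
          · rw [max_eq_right hle, min_eq_left hle] at hcon
            push_cast at hcon
            rw [g2] at hcon
            exact (add_right_cancel hcon).symm
          · rw [max_eq_left hle, min_eq_right hle] at hcon
            push_cast at hcon
            rw [g2] at hcon
            exact (add_right_cancel hcon)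
        rw [h2] at h1
        have := stable_bound hK h1
        omega
      · intro c hc
        obtain ⟨m1, m2, m3⟩ := hIm c hc
        obtain ⟨n1, n2, n3⟩ := hGm _ (hφmaps c hc)
        intro x hx
        simp only [Finset.mem_insert, Finset.mem_singleton] at hx
        rcases hx with rfl | rfl | rfl | rfl
        · exact hZ _ m1
        · exact hZ _ m2
        · exact hZ _ n1
        · exact hZ _ n2
      · intro c hc
        exact Finset.card_le_four
      · intro c hc
        obtain ⟨m1, m2, m3⟩ := hIm c hc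
        obtain ⟨n1, n2, n3⟩ := hGm _ (hφmaps c hc)
        have b1 := cell_bounds hz m1 m2
        have b2 := cell_bounds hz n1 n2
        have eT : Λ * (T + 1) = Λ * T + Λ := by ring
        rw [eT] at b1 b2
        rcases le_total (a (z (c + T)) + a (z (φ c))) (a (z c) + a (z (φ c + T))) with hle | hle
        · rw [max_eq_right hle, min_eq_left hle]
          omega
        · rw [max_eq_left hle, min_eq_right hle]
          omega

end Pool.Agent.Helper840.E48
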