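import Pool.Agent.Helper840.E48Base

set_option autoImplicit false

namespace Pool.Agent.Helper840.E48

open Finset

/-- every disjoint family of small shifts with small supports inside `Z` has few members that are
not multiples of `h` -/
def Stable (a : ℕ → ℕ) (Z : Finset ℕ) (K X h : ℕ) : Prop :=
  ∀ (I : Finset ℕ) (S : ℕ → Finset ℕ) (β d : ℕ → ℕ), IsFam a I S β d → (∀ i ∈ I, S i ⊆ Z) →
    (∀ i ∈ I, (S i).card ≤ 4) → (∀ i ∈ I, d i ≤ X) →
    ((I.filter (fun i => ¬ h ∣ d i)).card + 1) * K ≤ h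

theorem stability {a : ℕ → ℕ} {W U₁ Z : Finset ℕ} {K b₁ h₁ L₁ X : ℕ} (hK : 0 < K)
    (hsep : Sep a W K) (hU₁ : U₁ ⊆ W) (hZ : Z ⊆ W) (hdis : Disjoint Z U₁)
    (hA : HasAP a U₁ b₁ h₁ L₁) (hh₁ : 0 < h₁) (hL : 3 * X + 3 * K ≤ K * L₁) :
    ∃ Q ⊆ Z, ∃ h b L, 0 < h ∧ h ≤ h₁ ∧ Q.card * K ≤ 8 * h₁ ∧ HasAP a (U₁ ∪ Q) b h L ∧
      K * (h₁ * L₁) ≤ K * (h * L) + (2 * X + K) * h₁ ∧ Stable a (Z \ Q) K X h := by
  classical
  let Conf : ℕ → Prop := fun h => ∃ Q ⊆ Z, ∃ b L, 0 < h ∧ h ≤ h₁ ∧
    Q.card * K ≤ 8 * (h₁ - h) ∧ HasAP a (U₁ ∪ Q) b h L ∧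
      K * (h₁ * L₁) ≤ K * (h * L) + (2 * X + K) * (h₁ - h)
  have hex : ∃ h, Conf h := ⟨h₁, ∅, by simp, b₁, L₁, hh₁, le_rfl, by simp, by simpa using hA,
    by simp⟩
  set h := Nat.find hex with hh
  obtain ⟨Q, hQZ, b, L, hhpos, hhle, hQc, hAP, hspan⟩ := Nat.find_spec hex
  rw [← hh] at hhpos hhle hQc hAP hspan
  have hmin : ∀ h' < h, ¬ Conf h' := fun h' hlt => Nat.find_min hex hlt
  refine ⟨Q, hQZ, h, b, L, hhpos, hhle, hQc.trans (by omega), hAP, ?_, ?_⟩
  · refine hspan.trans ?_
    gcongr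
    omega
  · intro I S β d hF hSZ hSc hdX
    have hUQ : U₁ ∪ Q ⊆ W := Finset.union_subset hU₁ (hQZ.trans hZ)
    have hdisj : ∀ i ∈ I, Disjoint (S i) (U₁ ∪ Q) := by
      intro i hi
      rw [Finset.disjoint_union_right]
      constructor
      · exact Finset.disjoint_of_subset_left ((hSZ i hi).trans Finset.sdiff_subset) hdis
      · rw [Finset.disjoint_left]
        intro x hx
        exact (Finset.mem_sdiff.mp (hSZ i hi hx)).2
    have hsp : X * (h / K) + 2 * h ≤ h * L := by
      obtain ⟨δ, hδ⟩ := Nat.exists_eq_add_of_le hhle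
      have e1 : h₁ * (3 * X + 3 * K) ≤ h₁ * (K * L₁) := Nat.mul_le_mul_left _ hL
      have e2 : K * (X * (h / K)) ≤ X * h := by
        calc K * (X * (h / K)) = X * (K * (h / K)) := by ring
          _ ≤ X * h := Nat.mul_le_mul_left _ (Nat.mul_div_le h K)
      have e3 : h₁ - h = δ := by omega
      rw [e3] at hspan
      have e4 : K * (X * (h / K) + 2 * h) ≤ K * (h * L) := by
        have e5 : K * (h₁ * L₁) = h₁ * (K * L₁) := by ring
        have e6 : K * (X * (h / K) + 2 * h) = K * (X * (h / K)) + 2 * (K * h) := by ring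
        rw [e6]
        have e7 : h₁ * (3 * X + 3 * K) = 3 * (X * h) + 3 * (K * h) + (3 * X + 3 * K) * δ := by
          rw [hδ]; ring
        have e8 : (2 * X + K) * δ ≤ (3 * X + 3 * K) * δ := Nat.mul_le_mul_right _ (by omega)
        rw [e5] at hspan
        rw [e7] at e1
        omega
      exact Nat.le_of_mul_le_mul_left e4 hK
    obtain ⟨J, hJI, h', b', L', hh', hh'd, hJK, hAP', hspan', hJd, hexc⟩ :=
      refine_lemma (X := X) hK hsep hUQ hAP hhpos hF hdisj
        (fun i hi => ((hSZ i hi).trans Finset.sdiff_subset).trans hZ) hdX hsp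
    have hh'le : h' ≤ h := Nat.le_of_dvd hhpos hh'd
    rcases Nat.lt_or_ge h' h with hlt | hge
    · exfalso
      apply hmin h' hlt
      obtain ⟨m, hm⟩ := hh'd
      have hm2 : 2 ≤ m := by
        rcases m with _ | _ | m
        · omega
        · omega
        · omega
      have h2h' : 2 * h' ≤ h := by
        rw [hm, mul_comm 2 h']
        exact Nat.mul_le_mul_left _ hm2
      refine ⟨Q ∪ J.biUnion S, ?_, b', L', hh', by omega, ?_, ?_, ?_⟩
      · apply Finset.union_subset hQZ
        rw [Finset.biUnion_subset]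
        intro i hi
        exact (hSZ i (hJI hi)).trans Finset.sdiff_subset
      · have e1 : (Q ∪ J.biUnion S).card ≤ Q.card + 4 * J.card := by
          refine (Finset.card_union_le _ _).trans ?_
          gcongr
          refine (Finset.card_biUnion_le).trans ?_
          calc ∑ i ∈ J, (S i).card ≤ ∑ i ∈ J, 4 := Finset.sum_le_sum (fun i hi => hSc i (hJI hi))
            _ = 4 * J.card := by rw [Finset.sum_const, smul_eq_mul, mul_comm]
        have e2 : (Q ∪ J.biUnion S).card * K ≤ (Q.card + 4 * J.card) * K :=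
          Nat.mul_le_mul_right _ e1
        have e3 : (Q.card + 4 * J.card) * K = Q.card * K + 4 * (J.card * K) := by ring
        have e4 : (J.card + 1) * K = J.card * K + K := by ring
        omega
      · rwa [← Finset.union_assoc]
      · have e4 : (J.card + 1) * K = J.card * K + K := by ring
        have e5 : K * (h * L) ≤ K * (h' * L') + X * (J.card * K) + K * h' := by
          calc K * (h * L) ≤ K * (h' * L' + X * J.card + h') := Nat.mul_le_mul_left _ hspan'
            _ = _ := by ring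
        have e6 : X * (J.card * K) ≤ X * h := Nat.mul_le_mul_left _ (by omega)
        obtain ⟨δ, hδ⟩ := Nat.exists_eq_add_of_le hhle
        obtain ⟨δ', hδ'⟩ := Nat.exists_eq_add_of_le hh'le
        have e7 : h₁ - h = δ := by omega
        have e8 : h₁ - h' = δ + δ' := by omega
        rw [e7] at hspan
        rw [e8]
        have e9 : X * h ≤ 2 * X * δ' := by
          rw [mul_comm 2 X, mul_assoc]
          exact Nat.mul_le_mul_left _ (by omega)
        have e10 : K * h' ≤ K * δ' := Nat.mul_le_mul_left _ (by omega)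
        have e11 : (2 * X + K) * (δ + δ') = (2 * X + K) * δ + 2 * X * δ' + K * δ' := by ring
        rw [e11]
        omega
    · have : h' = h := le_antisymm hh'le hge
      rw [this] at hexc
      exact hexc

end Pool.Agent.Helper840.E48
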