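import Mathlib

set_option autoImplicit false

namespace Pool.Agent.Helper840.SlowF

open Finset Filter Topology

/-- A finite set of naturals in one residue class mod `Q` inside a real interval of length `L`
has at most `L / Q + 1` elements. -/
lemma card_le_of_residue (S : Finset ℕ) (Q : ℕ) (hQ : 0 < Q) (r : ℕ)
    (hr : ∀ n ∈ S, n % Q = r) (a L : ℝ) (hL : 0 ≤ L)
    (hS : ∀ n ∈ S, a < (n : ℝ) ∧ (n : ℝ) < a + L) : (S.card : ℝ) ≤ L / Q + 1 := by
  rcases S.eq_empty_or_nonempty with rfl | hne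
  · simp only [card_empty, Nat.cast_zero]; positivity
  set m := S.min' hne with hmdef
  have hm : m ∈ S := S.min'_mem hne
  have hle : ∀ n ∈ S, m ≤ n := fun n hn => S.min'_le n hn
  have hdvd : ∀ n ∈ S, Q ∣ n - m := by
    intro n hn
    have h1 : m ≡ n [MOD Q] := by
      unfold Nat.ModEq; rw [hr m hm, hr n hn]
    exact (Nat.modEq_iff_dvd' (hle n hn)).1 h1
  have hinj : Set.InjOn (fun n => (n - m) / Q) (S : Set ℕ) := by
    intro n hn n' hn' h
    simp only at h
    obtain ⟨c, hc⟩ := hdvd n hn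
    obtain ⟨c', hc'⟩ := hdvd n' hn'
    rw [hc, hc', Nat.mul_div_cancel_left _ hQ, Nat.mul_div_cancel_left _ hQ] at h
    have h1 := hle n hn
    have h2 := hle n' hn'
    have : n - m = n' - m := by rw [hc, hc', h]
    omega
  have hmaps : ∀ n ∈ S, (n - m) / Q ∈ range (⌊L / Q⌋₊ + 1) := by
    intro n hn
    rw [mem_range, Nat.lt_succ_iff]
    apply Nat.le_floor
    obtain ⟨c, hc⟩ := hdvd n hn
    rw [hc, Nat.mul_div_cancel_left _ hQ]
    rw [le_div_iff₀ (by exact_mod_cast hQ)]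
    have h1 : (n : ℝ) = m + Q * c := by
      have : n = m + Q * c := by have := hle n hn; omega
      exact_mod_cast this
    have h2 := (hS n hn).2
    have h3 := (hS m hm).1
    nlinarith
  have hcard := Finset.card_le_card_of_injOn (fun n => (n - m) / Q) hmaps hinj
  rw [card_range] at hcard
  have h4 : ((⌊L / Q⌋₊ : ℕ) : ℝ) ≤ L / Q := Nat.floor_le (by positivity)
  calc (S.card : ℝ) ≤ ((⌊L / Q⌋₊ + 1 : ℕ) : ℝ) := by exact_mod_cast hcard
    _ = (⌊L / Q⌋₊ : ℝ) + 1 := by push_cast; ring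
    _ ≤ L / Q + 1 := by linarith

/-- `f` is well approximated by `n * (periodic function)`. -/
def Approx (f : ℕ → ℕ) : Prop :=
  ∀ ε : ℝ, 0 < ε → ∃ Q : ℕ, 0 < Q ∧ ∃ h : ℕ → ℝ, (∀ n, 0 ≤ h n) ∧ Function.Periodic h Q ∧
    ∀ N : ℕ, (((Icc 1 N).filter (fun n => ε * n < |(f n : ℝ) - n * h n|)).card : ℝ) ≤ ε * N

lemma count_bound (f : ℕ → ℕ) (f0 : f 0 = 0) (H : Approx f) (δ : ℝ) (hδ : 0 < δ) (hδ1 : δ ≤ 1) :
    ∃ X : ℕ, ∀ x : ℕ, X ≤ x →
      (Set.ncard {n : ℕ | (x : ℝ) < (n : ℝ) + (f n : ℝ) ∧ (n : ℝ) + (f n : ℝ) < (x : ℝ) + δ * x} : ℝ)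
        ≤ 4 * (δ * x) := by
  obtain ⟨Q, hQ, h, h0, hper, hcount⟩ := H (δ / 4) (by positivity)
  refine ⟨⌈(Q : ℝ) / δ⌉₊ + 1, fun x hx => ?_⟩
  have hx1 : (Q : ℝ) / δ ≤ x := by
    calc (Q : ℝ) / δ ≤ (⌈(Q : ℝ) / δ⌉₊ : ℝ) := Nat.le_ceil _
      _ ≤ x := by exact_mod_cast (by omega : ⌈(Q : ℝ) / δ⌉₊ ≤ x)
  have hx2 : (Q : ℝ) ≤ δ * x := by
    rw [div_le_iff₀ hδ] at hx1; linarith
  have hxpos : (0 : ℝ) < x := by
    have : 0 < x := by omega
    exact_mod_cast this
  set P : ℕ → Prop := fun n => (x : ℝ) < (n : ℝ) + (f n : ℝ) ∧ (n : ℝ) + (f n : ℝ) < (x : ℝ) + δ * x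
    with hP
  set E : ℕ → Prop := fun n => δ / 4 * n < |(f n : ℝ) - n * h n| with hE
  classical
  set T : Finset ℕ := (Icc 1 (2 * x)).filter P with hT
  have hset : {n : ℕ | (x : ℝ) < (n : ℝ) + (f n : ℝ) ∧ (n : ℝ) + (f n : ℝ) < (x : ℝ) + δ * x}
      = (T : Set ℕ) := by
    ext n
    simp only [Set.mem_ofPred_eq, hT, coe_filter, mem_Icc]
    constructor
    · intro hn
      refine ⟨⟨?_, ?_⟩, hn⟩
      · rcases Nat.eq_zero_or_pos n with rfl | hpos
        · rw [f0] at hn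
          have := hn.1
          simp only [Nat.cast_zero, add_zero] at this
          linarith
        · exact hpos
      · have h1 : (n : ℝ) < 2 * x := by
          have h2 := hn.2
          have h3 : (0 : ℝ) ≤ f n := Nat.cast_nonneg _
          nlinarith
        have : n < 2 * x := by exact_mod_cast h1
        omega
    · intro hn
      exact hn.2
  rw [hset, Set.ncard_coe_finset]
  have hsplit : T.card = (T.filter E).card + (T.filter (fun n => ¬ E n)).card :=
    (Finset.card_filter_add_card_filter_not E).symm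
  have hT2 : ((T.filter E).card : ℝ) ≤ δ / 2 * x := by
    have h1 : (T.filter E).card ≤ ((Icc 1 (2 * x)).filter E).card := by
      apply Finset.card_le_card
      apply Finset.filter_subset_filter
      exact Finset.filter_subset _ _
    have h2 := hcount (2 * x)
    have h3 : (((T.filter E).card : ℕ) : ℝ) ≤ (((Icc 1 (2 * x)).filter E).card : ℝ) := by
      exact_mod_cast h1
    have h4 : δ / 4 * ((2 * x : ℕ) : ℝ) = δ / 2 * x := by push_cast; ring
    rw [h4] at h2
    exact h3.trans h2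
  have hT1 : ((T.filter (fun n => ¬ E n)).card : ℝ) ≤ 2 * (δ * x) + Q := by
    set T1 := T.filter (fun n => ¬ E n) with hT1def
    have hsum : T1.card = ∑ r ∈ range Q, (T1.filter (fun n => n % Q = r)).card := by
      apply Finset.card_eq_sum_card_fiberwise
      intro n _
      simp only [coe_range, Set.mem_Iio]
      exact Nat.mod_lt _ hQ
    have hbound : ∀ r ∈ range Q, ((T1.filter (fun n => n % Q = r)).card : ℝ)
        ≤ (2 * (δ * x)) / Q + 1 := by
      intro r _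
      have hpos : (0 : ℝ) < 1 + h r := by have := h0 r; linarith
      apply card_le_of_residue _ Q hQ r _ ((x - δ / 2 * x) / (1 + h r)) _ (by positivity)
      · intro n hn
        rw [mem_filter] at hn
        obtain ⟨hn1, hn2⟩ := hn
        rw [hT1def, mem_filter, hT, mem_filter, mem_Icc] at hn1
        obtain ⟨⟨⟨hn3, hn4⟩, hn5⟩, hn6⟩ := hn1
        simp only [hE, not_lt] at hn6
        have hhr : h n = h r := by
          rw [← hn2]; exact (hper.map_mod_nat n).symm
        rw [hhr] at hn6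
        rw [abs_le] at hn6
        obtain ⟨hl, hu⟩ := hn6
        have hn4' : (n : ℝ) ≤ 2 * x := by exact_mod_cast hn4
        have hb : δ / 4 * (n : ℝ) ≤ δ / 2 * x := by nlinarith
        simp only [hP] at hn5
        constructor
        · rw [div_lt_iff₀ hpos]
          nlinarith [hn5.1]
        · have h5 : (n : ℝ) * (1 + h r) < x + δ * x + δ / 2 * x := by nlinarith [hn5.2]
          have h6 : (n : ℝ) < (x + δ * x + δ / 2 * x) / (1 + h r) := by
            rw [lt_div_iff₀ hpos]; exact h5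
          have h7 : (x + δ * x + δ / 2 * x) / (1 + h r) =
              (x - δ / 2 * x) / (1 + h r) + (2 * (δ * x)) / (1 + h r) := by
            rw [← add_div]; ring_nf
          have h8 : (2 * (δ * x)) / (1 + h r) ≤ 2 * (δ * x) := by
            apply div_le_self (by positivity)
            have := h0 r; linarith
          linarith
      · intro n hn
        rw [mem_filter] at hn
        exact hn.2
    rw [hsum]
    push_cast
    calc (∑ r ∈ range Q, ((T1.filter (fun n => n % Q = r)).card : ℝ))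
        ≤ ∑ r ∈ range Q, ((2 * (δ * x)) / Q + 1) := Finset.sum_le_sum hbound
      _ = 2 * (δ * x) + Q := by
        rw [sum_const, card_range, nsmul_eq_mul]
        have : (Q : ℝ) ≠ 0 := by positivity
        field_simp
  rw [hsplit]
  push_cast
  nlinarith

/-- The slowly growing function. -/
theorem exists_slow (f : ℕ → ℕ) (f0 : f 0 = 0) (H : Approx f) :
    ∃ ψ : ℕ → ℕ, Tendsto ψ atTop atTop ∧ (∀ x, (ψ x) ^ 2 ≤ x) ∧ ∃ X : ℕ, ∀ x : ℕ, X ≤ x →
      0 < ψ x ∧
      (Set.ncard {n : ℕ | (x : ℝ) < (n : ℝ) + (f n : ℝ) ∧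
        (n : ℝ) + (f n : ℝ) < (x : ℝ) + (x : ℝ) / (ψ x : ℝ)} : ℝ)
        ≤ 4 * ((x : ℝ) / (ψ x : ℝ)) := by
  have key : ∀ k : ℕ, ∃ X : ℕ, 0 < k → ∀ x : ℕ, X ≤ x →
      (Set.ncard {n : ℕ | (x : ℝ) < (n : ℝ) + (f n : ℝ) ∧
        (n : ℝ) + (f n : ℝ) < (x : ℝ) + (x : ℝ) / (k : ℝ)} : ℝ) ≤ 4 * ((x : ℝ) / (k : ℝ)) := by
    intro k
    rcases Nat.eq_zero_or_pos k with rfl | hk
    · exact ⟨0, fun h => absurd h (lt_irrefl _)⟩
    · have hk' : (1 : ℝ) ≤ k := by exact_mod_cast hk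
      obtain ⟨X, hX⟩ := count_bound f f0 H (1 / k) (by positivity) (by
        rw [div_le_one (by positivity)]; exact hk')
      refine ⟨X, fun _ x hx => ?_⟩
      have := hX x hx
      have h1 : 1 / (k : ℝ) * x = x / k := by ring
      rw [h1] at this
      exact this
  choose X hX using key
  classical
  set ψ : ℕ → ℕ := fun x => Nat.findGreatest (fun k => X k ≤ x ∧ k ^ 2 ≤ x) x with hψ
  have hsq : ∀ x, (ψ x) ^ 2 ≤ x := by
    intro x
    by_cases h : ψ x = 0
    · rw [h]; simp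
    · exact (Nat.findGreatest_of_ne_zero (rfl : ψ x = ψ x) h).2
  have hge : ∀ K x : ℕ, X K ≤ x → K ^ 2 ≤ x → K ≤ ψ x := by
    intro K x h1 h2
    apply Nat.le_findGreatest _ ⟨h1, h2⟩
    nlinarith
  have htend : Tendsto ψ atTop atTop := by
    rw [tendsto_atTop_atTop]
    intro K
    refine ⟨max (X K) (K ^ 2), fun x hx => hge K x ?_ ?_⟩
    · exact (le_max_left _ _).trans hx
    · exact (le_max_right _ _).trans hx
  refine ⟨ψ, htend, hsq, max (X 1) 1, fun x hx => ?_⟩
  have h1 : 1 ≤ ψ x := hge 1 x ((le_max_left _ _).trans hx) (by simpa using (le_max_right _ _).trans hx)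
  refine ⟨h1, ?_⟩
  have h2 : X (ψ x) ≤ x :=
    (Nat.findGreatest_of_ne_zero (rfl : ψ x = ψ x) (by omega)).1
  exact hX (ψ x) h1 x h2

lemma tendsto_F (ψ : ℕ → ℕ) (h1 : Tendsto ψ atTop atTop) (h2 : ∀ x, (ψ x) ^ 2 ≤ x) :
    Tendsto (fun x : ℕ => (x : ℝ) / (ψ x : ℝ)) atTop atTop := by
  have h3 : Tendsto (fun x : ℕ => (ψ x : ℝ)) atTop atTop :=
    tendsto_natCast_atTop_atTop.comp h1
  apply tendsto_atTop_mono' _ _ h3
  filter_upwards [h1.eventually_ge_atTop 1] with x hx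
  have hpos : (0 : ℝ) < ψ x := by exact_mod_cast hx
  rw [le_div_iff₀ hpos]
  have := h2 x
  have h4 : ((ψ x : ℕ) : ℝ) ^ 2 ≤ x := by exact_mod_cast this
  nlinarith

end Pool.Agent.Helper840.SlowF
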