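import Mathlib
import Pool.Agent.Helper840.SlowF

set_option autoImplicit false

namespace Pool.Agent.Helper840.SigmaApprox

open Finset Filter Topology
open Pool.Agent.Helper840.SlowF

/-- truncated sum of reciprocal divisors -/
noncomputable def h (y n : ℕ) : ℝ := ∑ d ∈ Ioc 0 y, if d ∣ n then (d : ℝ)⁻¹ else 0

/-- reciprocal sum over the large divisors -/
noncomputable def g (y n : ℕ) : ℝ := ∑ d ∈ n.divisors.filter (fun d => y < d), (d : ℝ)⁻¹

lemma h_nonneg (y n : ℕ) : 0 ≤ h y n := by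
  unfold h
  apply Finset.sum_nonneg
  intro i _
  split_ifs
  · positivity
  · exact le_refl _

lemma g_nonneg (y n : ℕ) : 0 ≤ g y n := by
  unfold g
  exact Finset.sum_nonneg (fun _ _ => by positivity)

lemma h_periodic (y : ℕ) : Function.Periodic (h y) (y.factorial) := by
  intro n
  unfold h
  apply Finset.sum_congr rfl
  intro p hp
  rw [mem_Ioc] at hp
  have hd : p ∣ y.factorial := Nat.dvd_factorial hp.1 hp.2
  have : p ∣ n + y.factorial ↔ p ∣ n := (Nat.dvd_add_iff_left hd).symm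
  simp only [this]

lemma sigma_split (y n : ℕ) (hn : 0 < n) :
    ((ArithmeticFunction.sigma 1 n : ℕ) : ℝ) = n * (h y n + g y n) := by
  have h1 : ((ArithmeticFunction.sigma 1 n : ℕ) : ℝ) = n * ∑ d ∈ n.divisors, (d : ℝ)⁻¹ := by
    rw [ArithmeticFunction.sigma_one_apply, ← Nat.sum_div_divisors n (fun d => d)]
    push_cast
    rw [Finset.mul_sum]
    apply Finset.sum_congr rfl
    intro d hd
    rw [Nat.mem_divisors] at hd
    rw [Nat.cast_div hd.1 (by
      have : 0 < d := Nat.pos_of_dvd_of_pos hd.1 hn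
      positivity)]
    rw [div_eq_mul_inv]
  rw [h1]
  congr 1
  rw [← Finset.sum_filter_add_sum_filter_not n.divisors (fun p => y < p), add_comm]
  congr 1
  unfold h
  rw [← Finset.sum_filter]
  apply Finset.sum_congr _ (fun _ _ => rfl)
  ext p
  simp only [mem_filter, Nat.mem_divisors, mem_Ioc]
  constructor
  · rintro ⟨⟨hd, _⟩, hy⟩
    exact ⟨⟨Nat.pos_of_dvd_of_pos hd hn, by omega⟩, hd⟩
  · rintro ⟨⟨hy, hp⟩, hd⟩
    exact ⟨⟨hd, by omega⟩, by omega⟩

lemma sum_g (y N : ℕ) (hy : 0 < y) : ∑ n ∈ Icc 1 N, g y n ≤ N / y := by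
  have h1 : ∀ n ∈ Icc 1 N, g y n ≤ ∑ m ∈ Ioc y N, if m ∣ n then (m : ℝ)⁻¹ else 0 := by
    intro n hn
    rw [mem_Icc] at hn
    unfold g
    rw [← Finset.sum_filter]
    apply Finset.sum_le_sum_of_subset_of_nonneg
    · intro p hp
      simp only [mem_filter, Nat.mem_divisors, mem_Ioc] at hp ⊢
      refine ⟨⟨hp.2, ?_⟩, hp.1.1⟩
      exact (Nat.le_of_dvd (by omega) hp.1.1).trans hn.2
    · intro i _ _; positivity
  calc ∑ n ∈ Icc 1 N, g y n ≤ ∑ n ∈ Icc 1 N, ∑ m ∈ Ioc y N, (if m ∣ n then (m : ℝ)⁻¹ else 0) :=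
        Finset.sum_le_sum h1
    _ = ∑ m ∈ Ioc y N, ∑ n ∈ Icc 1 N, (if m ∣ n then (m : ℝ)⁻¹ else 0) := Finset.sum_comm
    _ ≤ ∑ m ∈ Ioc y N, N * ((m : ℝ) ^ 2)⁻¹ := by
        apply Finset.sum_le_sum
        intro m hm
        rw [mem_Ioc] at hm
        rw [← Finset.sum_filter, sum_const, nsmul_eq_mul]
        have hcard : ((Icc 1 N).filter (fun n => m ∣ n)).card = N / m := by
          have := Nat.Ioc_filter_dvd_card_eq_div N m
          rw [← this]
          rfl
        rw [hcard]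
        have hmpos : (0 : ℝ) < m := by
          have : 0 < m := by omega
          exact_mod_cast this
        have h2 : ((N / m : ℕ) : ℝ) ≤ (N : ℝ) / m := Nat.cast_div_le
        calc ((N / m : ℕ) : ℝ) * (m : ℝ)⁻¹ ≤ (N : ℝ) / m * (m : ℝ)⁻¹ :=
              mul_le_mul_of_nonneg_right h2 (by positivity)
          _ = N * ((m : ℝ) ^ 2)⁻¹ := by
              field_simp
    _ = N * ∑ m ∈ Ioc y N, ((m : ℝ) ^ 2)⁻¹ := by rw [Finset.mul_sum]
    _ ≤ N / y := by
        rcases le_or_gt y N with hyN | hyN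
        · have h3 := sum_Ioc_inv_sq_le_sub (α := ℝ) (k := y) (n := N) (by omega) hyN
          have h4 : (0 : ℝ) ≤ (N : ℝ)⁻¹ := by positivity
          calc (N : ℝ) * ∑ m ∈ Ioc y N, ((m : ℝ) ^ 2)⁻¹ ≤ N * (y : ℝ)⁻¹ :=
                mul_le_mul_of_nonneg_left (by linarith) (by positivity)
            _ = N / y := by rw [div_eq_mul_inv]
        · rw [Finset.Ioc_eq_empty (by omega)]
          simp only [sum_empty, mul_zero]
          positivity

lemma markov (y N : ℕ) (hy : 0 < y) (ε : ℝ) (hε : 0 < ε) :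
    (((Icc 1 N).filter (fun n => ε < g y n)).card : ℝ) ≤ N / (y * ε) := by
  have h1 : (((Icc 1 N).filter (fun n => ε < g y n)).card : ℝ) * ε ≤ N / y := by
    calc (((Icc 1 N).filter (fun n => ε < g y n)).card : ℝ) * ε
        = ∑ n ∈ (Icc 1 N).filter (fun n => ε < g y n), ε := by rw [sum_const, nsmul_eq_mul]
      _ ≤ ∑ n ∈ (Icc 1 N).filter (fun n => ε < g y n), g y n := by
          apply Finset.sum_le_sum
          intro n hn
          exact (mem_filter.1 hn).2.le
      _ ≤ ∑ n ∈ Icc 1 N, g y n := by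
          apply Finset.sum_le_sum_of_subset_of_nonneg (Finset.filter_subset _ _)
          intro n _ _; exact g_nonneg y n
      _ ≤ N / y := sum_g y N hy
  rw [← div_div, le_div_iff₀ hε]
  exact h1

theorem approx_sigma : Approx (fun n => ArithmeticFunction.sigma 1 n) := by
  intro ε hε
  set y : ℕ := ⌈1 / ε ^ 2⌉₊ + 1 with hy
  have hypos : 0 < y := by omega
  have hy2 : 1 / ε ^ 2 ≤ (y : ℝ) := by
    calc 1 / ε ^ 2 ≤ (⌈1 / ε ^ 2⌉₊ : ℝ) := Nat.le_ceil _
      _ ≤ y := by rw [hy]; push_cast; linarith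
  refine ⟨y.factorial, Nat.factorial_pos y, h y, h_nonneg y, h_periodic y, fun N => ?_⟩
  have h1 : (Icc 1 N).filter (fun n => ε * n < |((ArithmeticFunction.sigma 1 n : ℕ) : ℝ) - n * h y n|) ⊆
      (Icc 1 N).filter (fun n => ε < g y n) := by
    intro n hn
    rw [mem_filter, mem_Icc] at hn ⊢
    refine ⟨hn.1, ?_⟩
    have hnpos : (0 : ℝ) < n := by
      have : 0 < n := by omega
      exact_mod_cast this
    have h2 : |((ArithmeticFunction.sigma 1 n : ℕ) : ℝ) - n * h y n| = n * g y n := by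
      rw [sigma_split y n (by omega)]
      have : (n : ℝ) * (h y n + g y n) - n * h y n = n * g y n := by ring
      rw [this, abs_of_nonneg (mul_nonneg hnpos.le (g_nonneg y n))]
    have h3 : ε * n < n * g y n := by rw [← h2]; exact hn.2
    rw [mul_comm] at h3
    exact lt_of_mul_lt_mul_left h3 hnpos.le
  have h4 : (((Icc 1 N).filter (fun n => ε * n < |((ArithmeticFunction.sigma 1 n : ℕ) : ℝ) - n * h y n|)).card : ℝ)
      ≤ (((Icc 1 N).filter (fun n => ε < g y n)).card : ℝ) := by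
    exact_mod_cast Finset.card_le_card h1
  refine h4.trans ((markov y N hypos ε hε).trans ?_)
  have hy3 : (0 : ℝ) < y := by exact_mod_cast hypos
  rw [div_le_iff₀ (by positivity)]
  rw [div_le_iff₀ (by positivity)] at hy2
  have hN : (0 : ℝ) ≤ N := by positivity
  nlinarith

end Pool.Agent.Helper840.SigmaApprox
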