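import Mathlib
import Pool.Agent.Helper840.SlowF

set_option autoImplicit false

namespace Pool.Agent.Helper840.TotientApprox

open Finset Filter Topology
open Pool.Agent.Helper840.SlowF

/-- truncated totient ratio -/
noncomputable def h (y n : ℕ) : ℝ :=
  ∏ p ∈ (range (y + 1)).filter Nat.Prime, if p ∣ n then (1 - (p : ℝ)⁻¹) else 1

/-- reciprocal sum over the large prime divisors -/
noncomputable def g (y n : ℕ) : ℝ :=
  ∑ p ∈ n.primeFactors.filter (fun p => y < p), (p : ℝ)⁻¹

lemma factor_half {p : ℕ} (hp : p.Prime) : (1 / 2 : ℝ) ≤ 1 - (p : ℝ)⁻¹ := by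
  have h2 : (2 : ℝ) ≤ p := by exact_mod_cast hp.two_le
  have : (p : ℝ)⁻¹ ≤ 2⁻¹ := inv_anti₀ (by norm_num) h2
  linarith

lemma factor_le_one {p : ℕ} : 1 - (p : ℝ)⁻¹ ≤ 1 := by
  have : (0 : ℝ) ≤ (p : ℝ)⁻¹ := by positivity
  linarith

lemma h_ge (y n : ℕ) : (1 / 2 : ℝ) ^ (y + 1) ≤ h y n := by
  unfold h
  calc (1 / 2 : ℝ) ^ (y + 1) ≤ (1 / 2 : ℝ) ^ ((range (y + 1)).filter Nat.Prime).card := by
        apply pow_le_pow_of_le_one (by norm_num) (by norm_num)
        calc _ ≤ (range (y + 1)).card := Finset.card_filter_le _ _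
          _ = y + 1 := card_range _
    _ = ∏ p ∈ (range (y + 1)).filter Nat.Prime, (1 / 2 : ℝ) := by rw [prod_const]
    _ ≤ _ := by
        apply Finset.prod_le_prod
        · intro i _; norm_num
        · intro i hi
          rw [mem_filter] at hi
          split_ifs
          · exact factor_half hi.2
          · norm_num

lemma h_nonneg (y n : ℕ) : 0 ≤ h y n := le_trans (by positivity) (h_ge y n)

lemma h_le_one (y n : ℕ) : h y n ≤ 1 := by
  unfold h
  apply Finset.prod_le_one
  · intro i hi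
    rw [mem_filter] at hi
    split_ifs
    · have := factor_half hi.2; linarith
    · norm_num
  · intro i _
    split_ifs
    · exact factor_le_one
    · exact le_refl _

lemma h_periodic (y : ℕ) : Function.Periodic (h y) (y.factorial) := by
  intro n
  unfold h
  apply Finset.prod_congr rfl
  intro p hp
  rw [mem_filter, mem_range] at hp
  have hd : p ∣ y.factorial := (hp.2.dvd_factorial).2 (by omega)
  have : p ∣ n + y.factorial ↔ p ∣ n := (Nat.dvd_add_iff_left hd).symm
  simp only [this]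

lemma g_nonneg (y n : ℕ) : 0 ≤ g y n := by
  unfold g
  exact Finset.sum_nonneg (fun _ _ => by positivity)

lemma weierstrass {ι : Type*} (s : Finset ι) (a : ι → ℝ) (h0 : ∀ i ∈ s, 0 ≤ a i)
    (h1 : ∀ i ∈ s, a i ≤ 1) : 1 - ∑ i ∈ s, a i ≤ ∏ i ∈ s, (1 - a i) := by
  classical
  induction s using Finset.induction_on with
  | empty => simp
  | insert i s his ih =>
    rw [sum_insert his, prod_insert his]
    have ih' := ih (fun j hj => h0 j (mem_insert_of_mem hj)) (fun j hj => h1 j (mem_insert_of_mem hj))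
    have hi0 := h0 i (mem_insert_self _ _)
    have hi1 := h1 i (mem_insert_self _ _)
    have hs : 0 ≤ ∑ j ∈ s, a j := Finset.sum_nonneg (fun j hj => h0 j (mem_insert_of_mem hj))
    nlinarith

lemma totient_split (y n : ℕ) (hn : 0 < n) :
    (Nat.totient n : ℝ) = n * (h y n * ∏ p ∈ n.primeFactors.filter (fun p => y < p), (1 - (p : ℝ)⁻¹)) := by
  have h1 : (Nat.totient n : ℝ) = n * ∏ p ∈ n.primeFactors, (1 - (p : ℝ)⁻¹) := by
    have := Nat.totient_eq_mul_prod_factors n
    have h2 := congrArg (fun q : ℚ => (q : ℝ)) this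
    push_cast at h2
    exact h2
  rw [h1]
  congr 1
  rw [← Finset.prod_filter_mul_prod_filter_not n.primeFactors (fun p => y < p), mul_comm]
  congr 1
  unfold h
  rw [← Finset.prod_filter]
  apply Finset.prod_congr _ (fun _ _ => rfl)
  ext p
  simp only [mem_filter, Nat.mem_primeFactors, mem_range]
  constructor
  · rintro ⟨⟨hp, hd, _⟩, hy⟩
    exact ⟨⟨by omega, hp⟩, hd⟩
  · rintro ⟨⟨hy, hp⟩, hd⟩
    exact ⟨⟨hp, hd, by omega⟩, by omega⟩

lemma tail_bounds (y n : ℕ) :
    1 - g y n ≤ ∏ p ∈ n.primeFactors.filter (fun p => y < p), (1 - (p : ℝ)⁻¹) ∧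
    ∏ p ∈ n.primeFactors.filter (fun p => y < p), (1 - (p : ℝ)⁻¹) ≤ 1 := by
  constructor
  · unfold g
    apply weierstrass
    · intro i _; positivity
    · intro i hi
      rw [mem_filter, Nat.mem_primeFactors] at hi
      have := factor_half hi.1.1; linarith
  · apply Finset.prod_le_one
    · intro i hi
      rw [mem_filter, Nat.mem_primeFactors] at hi
      have := factor_half hi.1.1; linarith
    · intro i _; exact factor_le_one

lemma totient_lower (y n : ℕ) (hn : 0 < n) : n * h y n * (1 - g y n) ≤ (Nat.totient n : ℝ) := by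
  rw [totient_split y n hn, mul_assoc]
  have h1 := (tail_bounds y n).1
  have h2 := h_nonneg y n
  have h3 : (0 : ℝ) ≤ n := by positivity
  exact mul_le_mul_of_nonneg_left (mul_le_mul_of_nonneg_left h1 h2) h3

lemma totient_approx (y n : ℕ) (hn : 0 < n) :
    |(Nat.totient n : ℝ) - n * h y n| ≤ n * g y n := by
  have h1 := totient_lower y n hn
  have h3 : (0 : ℝ) ≤ n := by positivity
  have h4 : (Nat.totient n : ℝ) ≤ n * h y n := by
    rw [totient_split y n hn]
    have h1 := (tail_bounds y n).2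
    have h2 := h_nonneg y n
    apply mul_le_mul_of_nonneg_left _ h3
    exact mul_le_of_le_one_right h2 h1
  have h5 := h_le_one y n
  have h6 := g_nonneg y n
  have h7 := h_nonneg y n
  rw [abs_le]
  constructor
  · have h8 : h y n * g y n ≤ g y n := mul_le_of_le_one_left h6 h5
    have h9 : (n : ℝ) * (h y n * g y n) ≤ n * g y n := mul_le_mul_of_nonneg_left h8 h3
    nlinarith
  · have : (0 : ℝ) ≤ n * g y n := mul_nonneg h3 h6
    linarith

lemma sum_g (y N : ℕ) (hy : 0 < y) : ∑ n ∈ Icc 1 N, g y n ≤ N / y := by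
  have h1 : ∀ n ∈ Icc 1 N, g y n ≤ ∑ m ∈ Ioc y N, if m ∣ n then (m : ℝ)⁻¹ else 0 := by
    intro n hn
    rw [mem_Icc] at hn
    unfold g
    rw [← Finset.sum_filter]
    apply Finset.sum_le_sum_of_subset_of_nonneg
    · intro p hp
      simp only [mem_filter, Nat.mem_primeFactors, mem_Ioc] at hp ⊢
      refine ⟨⟨hp.2, ?_⟩, hp.1.2.1⟩
      exact (Nat.le_of_dvd (by omega) hp.1.2.1).trans hn.2
    · intro i _ _; positivity
  calc ∑ n ∈ Icc 1 N, g y n ≤ ∑ n ∈ Icc 1 N, ∑ m ∈ Ioc y N, (if m ∣ n then (m : ℝ)⁻¹ else 0) :=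
        Finset.sum_le_sum h1
    _ = ∑ m ∈ Ioc y N, ∑ n ∈ Icc 1 N, (if m ∣ n then (m : ℝ)⁻¹ else 0) := Finset.sum_comm
    _ ≤ ∑ m ∈ Ioc y N, N * ((m : ℝ) ^ 2)⁻¹ := by
        apply Finset.sum_le_sum
        intro m hm
        rw [mem_Ioc] at hm
        rw [← Finset.sum_filter, sum_const, nsmul_eq_mul]
        have hcard : ((Icc 1 N).filter (fun n => m ∣ n)).card = N / m := by
          have := Nat.Ioc_filter_dvd_card_eq_div N m
          rw [← this]
          rfl
        rw [hcard]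
        have hmpos : (0 : ℝ) < m := by
          have : 0 < m := by omega
          exact_mod_cast this
        have h2 : ((N / m : ℕ) : ℝ) ≤ (N : ℝ) / m := Nat.cast_div_le
        calc ((N / m : ℕ) : ℝ) * (m : ℝ)⁻¹ ≤ (N : ℝ) / m * (m : ℝ)⁻¹ :=
              mul_le_mul_of_nonneg_right h2 (by positivity)
          _ = N * ((m : ℝ) ^ 2)⁻¹ := by
              field_simp
    _ = N * ∑ m ∈ Ioc y N, ((m : ℝ) ^ 2)⁻¹ := by rw [Finset.mul_sum]
    _ ≤ N / y := by
        rcases le_or_gt y N with hyN | hyN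
        · have h3 := sum_Ioc_inv_sq_le_sub (α := ℝ) (k := y) (n := N) (by omega) hyN
          have h4 : (0 : ℝ) ≤ (N : ℝ)⁻¹ := by positivity
          calc (N : ℝ) * ∑ m ∈ Ioc y N, ((m : ℝ) ^ 2)⁻¹ ≤ N * (y : ℝ)⁻¹ :=
                mul_le_mul_of_nonneg_left (by linarith) (by positivity)
            _ = N / y := by rw [div_eq_mul_inv]
        · rw [Finset.Ioc_eq_empty (by omega)]
          simp only [sum_empty, mul_zero]
          positivity

lemma markov (y N : ℕ) (hy : 0 < y) (ε : ℝ) (hε : 0 < ε) :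
    (((Icc 1 N).filter (fun n => ε < g y n)).card : ℝ) ≤ N / (y * ε) := by
  have h1 : (((Icc 1 N).filter (fun n => ε < g y n)).card : ℝ) * ε ≤ N / y := by
    calc (((Icc 1 N).filter (fun n => ε < g y n)).card : ℝ) * ε
        = ∑ n ∈ (Icc 1 N).filter (fun n => ε < g y n), ε := by rw [sum_const, nsmul_eq_mul]
      _ ≤ ∑ n ∈ (Icc 1 N).filter (fun n => ε < g y n), g y n := by
          apply Finset.sum_le_sum
          intro n hn
          exact (mem_filter.1 hn).2.le
      _ ≤ ∑ n ∈ Icc 1 N, g y n := by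
          apply Finset.sum_le_sum_of_subset_of_nonneg (Finset.filter_subset _ _)
          intro n _ _; exact g_nonneg y n
      _ ≤ N / y := sum_g y N hy
  rw [← div_div, le_div_iff₀ hε]
  exact h1

theorem approx_totient : Approx Nat.totient := by
  intro ε hε
  set y : ℕ := ⌈1 / ε ^ 2⌉₊ + 1 with hy
  have hypos : 0 < y := by omega
  have hy2 : 1 / ε ^ 2 ≤ (y : ℝ) := by
    calc 1 / ε ^ 2 ≤ (⌈1 / ε ^ 2⌉₊ : ℝ) := Nat.le_ceil _
      _ ≤ y := by rw [hy]; push_cast; linarith
  refine ⟨y.factorial, Nat.factorial_pos y, h y, h_nonneg y, h_periodic y, fun N => ?_⟩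
  have h1 : (Icc 1 N).filter (fun n => ε * n < |((Nat.totient n : ℕ) : ℝ) - n * h y n|) ⊆
      (Icc 1 N).filter (fun n => ε < g y n) := by
    intro n hn
    rw [mem_filter, mem_Icc] at hn ⊢
    refine ⟨hn.1, ?_⟩
    have h2 := totient_approx y n (by omega)
    have hnpos : (0 : ℝ) < n := by
      have : 0 < n := by omega
      exact_mod_cast this
    have h3 : ε * n < n * g y n := lt_of_lt_of_le hn.2 h2
    rw [mul_comm] at h3
    exact lt_of_mul_lt_mul_left h3 hnpos.le
  have h4 : (((Icc 1 N).filter (fun n => ε * n < |((Nat.totient n : ℕ) : ℝ) - n * h y n|)).card : ℝ)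
      ≤ (((Icc 1 N).filter (fun n => ε < g y n)).card : ℝ) := by
    exact_mod_cast Finset.card_le_card h1
  refine h4.trans ((markov y N hypos ε hε).trans ?_)
  have hy3 : (0 : ℝ) < y := by exact_mod_cast hypos
  rw [div_le_iff₀ (by positivity)]
  rw [div_le_iff₀ (by positivity)] at hy2
  have hN : (0 : ℝ) ≤ N := by positivity
  nlinarith

/-- The totient is rarely much smaller than its argument. -/
theorem totient_tight (ε : ℝ) (hε : 0 < ε) : ∃ c : ℝ, 0 < c ∧ ∀ N : ℕ,
    (((Icc 1 N).filter (fun n => (Nat.totient n : ℝ) < c * n)).card : ℝ) ≤ ε * N := by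
  set y : ℕ := ⌈2 / ε⌉₊ + 1 with hy
  have hypos : 0 < y := by omega
  have hy2 : 2 / ε ≤ (y : ℝ) := by
    calc 2 / ε ≤ (⌈2 / ε⌉₊ : ℝ) := Nat.le_ceil _
      _ ≤ y := by rw [hy]; push_cast; linarith
  refine ⟨(1 / 2) ^ (y + 1) / 2, by positivity, fun N => ?_⟩
  have h1 : (Icc 1 N).filter (fun n => (Nat.totient n : ℝ) < (1 / 2) ^ (y + 1) / 2 * n) ⊆
      (Icc 1 N).filter (fun n => 1 / 2 < g y n) := by
    intro n hn
    rw [mem_filter, mem_Icc] at hn ⊢
    refine ⟨hn.1, ?_⟩
    by_contra hcon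
    push Not at hcon
    have h2 := totient_lower y n (by omega)
    have hnpos : (0 : ℝ) < n := by
      have : 0 < n := by omega
      exact_mod_cast this
    have h3 := h_ge y n
    have h4 : (1 / 2 : ℝ) ^ (y + 1) * (1 / 2) ≤ h y n * (1 - g y n) := by
      apply mul_le_mul h3 (by linarith) (by norm_num) (h_nonneg y n)
    have h5 : (n : ℝ) * ((1 / 2 : ℝ) ^ (y + 1) * (1 / 2)) ≤ n * (h y n * (1 - g y n)) :=
      mul_le_mul_of_nonneg_left h4 hnpos.le
    have h6 := hn.2
    nlinarith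
  have h4 : (((Icc 1 N).filter (fun n => (Nat.totient n : ℝ) < (1 / 2) ^ (y + 1) / 2 * n)).card : ℝ)
      ≤ (((Icc 1 N).filter (fun n => 1 / 2 < g y n)).card : ℝ) := by
    exact_mod_cast Finset.card_le_card h1
  refine h4.trans ((markov y N hypos (1 / 2) (by norm_num)).trans ?_)
  have hy3 : (0 : ℝ) < y := by exact_mod_cast hypos
  rw [div_le_iff₀ (by positivity)]
  rw [div_le_iff₀ (by positivity)] at hy2
  have hN : (0 : ℝ) ≤ N := by positivity
  nlinarith

end Pool.Agent.Helper840.TotientApprox
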